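import Pool.Agent.Lib.MP_22c5db_an.H3.Part

/-! Locally adapted matrix units. -/

open scoped InnerProductSpace ComplexConjugate
open Finset

noncomputable section

namespace Pool.Agent.Kad.H3

open Pool.Agent.Kad.H2

universe u

set_option linter.unusedSectionVars false

variable {H : Type u} [NormedAddCommGroup H] [InnerProductSpace ℂ H] [CompleteSpace H]
  {M : VonNeumannAlgebra H} {τ : Op H →ₗ[ℝ] ℝ} {φ : Bil H} {C : ℝ}
  {ι : Type} [Fintype ι] [DecidableEq ι] {e : ι → ι → Op H}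

theorem adL_cp {w p : Op H} (hw : Cen M w) (hp : IsStarProjection p) (hpM : p ∈ M) :
    IsStarProjection (w * p) := hw.1.mul hp (hw.2.2 p hpM)

theorem adL_ss {w a b : Op H} (hw : Cen M w) (ha : a ∈ M) :
    star (w * a) * (w * b) = w * (star a * b) := by
  rw [star_mul, hw.1.isSelfAdjoint.star_eq, mul_assoc, ← mul_assoc w, hw.1.isIdempotentElem.eq,
    ← mul_assoc, ← hw.2.2 _ (star_mem ha), mul_assoc]

theorem adL_ss' {w a b : Op H} (hw : Cen M w) (ha : a ∈ M) (hb : b ∈ M) :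
    w * a * star (w * b) = w * (a * star b) := by
  rw [star_mul, hw.1.isSelfAdjoint.star_eq, mul_assoc, ← mul_assoc a,
    ← hw.2.2 _ (mul_mem ha (star_mem hb)), ← mul_assoc, hw.1.isIdempotentElem.eq]

/-- a cut passes to a smaller central projection -/
theorem adL_shrink {f p w y r : Op H} {n : ℕ} {t : Fin n → Op H} (hy : Cen M y) (hyw : y * w = y)
    (ht : ∀ i, t i ∈ M ∧ star (t i) * t i = w * f) (hs : ∑ i, t i * star (t i) + r = w * p) :
    (∀ i, y * t i ∈ M ∧ star (y * t i) * (y * t i) = y * f) ∧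
      ∑ i, y * t i * star (y * t i) + y * r = y * p := by
  refine ⟨fun i => ⟨mul_mem hy.2.1 (ht i).1, ?_⟩, ?_⟩
  · rw [adL_ss hy (ht i).1, (ht i).2, ← mul_assoc, hyw]
  · rw [sum_congr rfl fun i _ => adL_ss' hy (ht i).1 (ht i).1, ← mul_sum, ← mul_add, hs,
      ← mul_assoc, hyw]

theorem adL_parts (h : Tr M τ) {f : Op H} (hf : IsStarProjection f) (hfM : f ∈ M) {k : ℕ}
    (hk : ∀ y, Cen M y → τ y = k * τ (y * f)) {T : Type} {q : T → Op H}
    (hq : ∀ s, IsStarProjection (q s) ∧ q s ∈ M) {z : Op H} (hz : Cen M z) (hz0 : z ≠ 0)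
    (S : Finset T) : ∃ w, Cen M w ∧ w ≠ 0 ∧ z * w = w ∧ ∀ s ∈ S,
      ∃ (n : ℕ) (t : Fin n → Op H) (r : Op H), (∀ i, t i ∈ M ∧ star (t i) * t i = w * f) ∧
        IsStarProjection r ∧ r ∈ M ∧ ∑ i, t i * star (t i) + r = w * q s ∧
        ∀ y, Cen M y → y * w = y → τ (y * r) ≤ τ (y * f) := by
  classical
  induction S using Finset.induction_on with
  | empty => exact ⟨z, hz, hz0, hz.1.isIdempotentElem.eq, fun s hs => absurd hs (notMem_empty s)⟩
  | insert s₀ S _ ih =>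
    obtain ⟨w, hw, hw0, hzw, ih⟩ := ih
    obtain ⟨v, hv, hv0, hwv, n, t, r, a1, a2, a3, a4, a5, -⟩ :=
      cutL h hf hfM hk (hq s₀).1 (hq s₀).2 hw hw0
    have hvw : v * w = v := by rw [hv.2.2 w hw.2.1, hwv]
    refine ⟨v, hv, hv0, by rw [← hwv, ← mul_assoc, hzw], fun s hs => ?_⟩
    rcases mem_insert.1 hs with rfl | hs
    · exact ⟨n, t, r, a1, a2, a3, a4, fun y hy _ => a5 y hy⟩
    · obtain ⟨n, t, r, b1, b2, b3, b4, b5⟩ := ih s hs
      obtain ⟨c1, c2⟩ := adL_shrink hv hvw b1 b4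
      refine ⟨n, fun i => v * t i, v * r, c1, adL_cp hv b2 b3, mul_mem hv.2.1 b3, c2,
        fun y hy hyv => ?_⟩
      rw [← mul_assoc, hyv]
      exact b5 y hy (by rw [← hyv, mul_assoc, hvw])

theorem adL_sum {T : Type} [Fintype T] {p r : T → Op H} {P : Op H}
    (hp : ∀ s, IsStarProjection (p s)) (hP : IsStarProjection P) (hs : ∑ s, p s = P)
    (hr : ∀ s, IsStarProjection (r s)) (hpr : ∀ s, p s * r s = r s) :
    IsStarProjection (∑ s, r s) := by
  classical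
  have b2 := (proj_sum hp hP hs).2
  have b3 : ∀ s, r s * p s = r s := fun s => by
    have e2 := congrArg star (hpr s)
    rwa [star_mul, (hp s).isSelfAdjoint.star_eq, (hr s).isSelfAdjoint.star_eq] at e2
  refine ⟨?_, ?_⟩
  · rw [IsIdempotentElem, sum_mul]
    refine sum_congr rfl fun s _ => ?_
    rw [mul_sum, sum_eq_single s (fun s' _ hs => ?_) (fun hs => absurd (mem_univ s) hs)]
    · exact (hr s).isIdempotentElem.eq
    · rw [← b3 s, ← hpr s', mul_assoc, ← mul_assoc (p s), b2 s s' hs.symm, zero_mul, mul_zero]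
  · rw [IsSelfAdjoint, star_sum]
    exact sum_congr rfl fun s _ => (hr s).isSelfAdjoint.star_eq

/-- all the cuts under one central projection -/
theorem adL_cuts (h : Tr M τ) {f : Op H} (hf : IsStarProjection f) (hfM : f ∈ M) {k : ℕ}
    (hk : ∀ y, Cen M y → τ y = k * τ (y * f)) {T : Type} [Fintype T] {q : T → Op H}
    (hq : ∀ s, IsStarProjection (q s) ∧ q s ∈ M) (hq1 : ∑ s, q s = 1) {z : Op H} (hz : Cen M z)
    (hz0 : z ≠ 0) : ∃ w, Cen M w ∧ w ≠ 0 ∧ z * w = w ∧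
      ∃ (n : T → ℕ) (t : ∀ s, Fin (n s) → Op H) (r : T → Op H) (n' : ℕ) (t' : Fin n' → Op H)
        (r' : Op H), (∀ s i, t s i ∈ M ∧ star (t s i) * t s i = w * f) ∧
        (∀ s, IsStarProjection (r s) ∧ r s ∈ M) ∧
        (∀ s, ∑ i, t s i * star (t s i) + r s = w * q s) ∧ (∀ s, τ (r s) ≤ τ (w * f)) ∧
        (∀ i, t' i ∈ M ∧ star (t' i) * t' i = w * f) ∧ IsStarProjection r' ∧ r' ∈ M ∧
        ∑ i, t' i * star (t' i) + r' = ∑ s, r s ∧ τ r' < τ (w * f) := by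
  obtain ⟨w, hw, hw0, hzw, h1⟩ := adL_parts h hf hfM hk hq hz hz0 univ
  choose n t r a1 a2 a3 a4 a5 using fun s => h1 s (mem_univ s)
  have hp : ∀ s, IsStarProjection (w * q s) := fun s => adL_cp hw (hq s).1 (hq s).2
  have hR : IsStarProjection (∑ s, r s) :=
    adL_sum hp hw.1 (by rw [← mul_sum, hq1, mul_one]) a2 fun s =>
      (cut_le (adL_cp hw hf hfM) (hp s) (fun i => (a1 s i).2) (a2 s) (a4 s)).2
  obtain ⟨v, hv, hv0, hwv, n', t', r', c1, c2, c3, c4, -, c5⟩ :=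
    cutL h hf hfM hk hR (sum_mem fun s _ => a3 s) hw hw0
  have hvw : v * w = v := by rw [hv.2.2 w hw.2.1, hwv]
  refine ⟨v, hv, hv0, by rw [← hwv, ← mul_assoc, hzw], n, fun s i => v * t s i, fun s => v * r s,
    n', t', r', fun s => (adL_shrink hv hvw (a1 s) (a4 s)).1,
    fun s => ⟨adL_cp hv (a2 s) (a3 s), mul_mem hv.2.1 (a3 s)⟩,
    fun s => (adL_shrink hv hvw (a1 s) (a4 s)).2, fun s => a5 s v hv hvw, c1, c2, c3, ?_, c5⟩
  rw [c4, mul_sum]

/-- matrix units under a central projection extend to unital ones -/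
theorem adL_ext {k : ℕ} {g : Fin k → Fin k → Op H} (hg : MU g 1) (hgM : ∀ i j, g i j ∈ M)
    (o : Fin k) {w : Op H} (hw : Cen M w) {v : ι → Op H} (hc : Fintype.card ι = k)
    (hv : ∀ a, v a ∈ M ∧ star (v a) * v a = w * g o o) (hs : ∑ a, v a * star (v a) = w) :
    ∃ e : ι → ι → Op H, MU e 1 ∧ (∀ i j, e i j ∈ M) ∧ ∀ a, w * e a a = v a * star (v a) := by
  obtain ⟨ψ⟩ : Nonempty (ι ≃ Fin k) := ⟨Fintype.equivFinOfCardEq hc⟩
  have hu := hw.one_sub
  have hww : w * w = w := hw.1.isIdempotentElem.eq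
  have huw : (1 - w) * w = 0 := by rw [sub_mul, one_mul, hww, sub_self]
  have hwu : w * (1 - w) = 0 := by rw [mul_sub, mul_one, hww, sub_self]
  have h1 : ∀ a, (1 - w) * v a = 0 := fun a => by
    refine (CStarRing.star_mul_self_eq_zero_iff _).1 ?_
    rw [adL_ss hu (hv a).1, (hv a).2, ← mul_assoc, huw, zero_mul]
  have h2 : ∀ a, star (v a) * (1 - w) = 0 := fun a => by
    have e1 := congrArg star (h1 a)
    rwa [star_mul, hu.1.isSelfAdjoint.star_eq, star_zero] at e1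
  have h3 : ∀ a, v a * (1 - w) = 0 := fun a => by rw [← hu.2.2 _ (hv a).1, h1]
  have h4 : ∀ a, (1 - w) * star (v a) = 0 := fun a => by
    rw [hu.2.2 _ (star_mem (hv a).1), h2]
  have h5 : ∀ a, w * v a = v a := fun a => by
    have e1 := h1 a
    rw [sub_mul, one_mul, sub_eq_zero] at e1
    exact e1.symm
  have hf : IsStarProjection (g o o) := ⟨by rw [IsIdempotentElem, hg.mul, if_pos rfl], hg.adj _ _⟩
  have k1 : ∀ a, star (v a + (1 - w) * g (ψ a) o) * (v a + (1 - w) * g (ψ a) o) = g o o :=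
    fun a => by
    rw [star_add, add_mul, mul_add, mul_add, adL_ss hu (hgM _ _), (hv a).2, hg.adj, hg.mul,
      if_pos rfl, ← mul_assoc, h2, zero_mul, star_mul, hu.1.isSelfAdjoint.star_eq, mul_assoc, h1,
      mul_zero, add_zero, zero_add, ← add_mul, add_sub_cancel, one_mul]
  have k2 : ∀ a, (v a + (1 - w) * g (ψ a) o) * star (v a + (1 - w) * g (ψ a) o) =
      v a * star (v a) + (1 - w) * g (ψ a) (ψ a) := fun a => by
    rw [star_add, add_mul, mul_add, mul_add, adL_ss' hu (hgM _ _) (hgM _ _), hg.adj, hg.mul,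
      if_pos rfl, star_mul, hu.1.isSelfAdjoint.star_eq, ← hu.2.2 _ (star_mem (hgM _ _)),
      ← mul_assoc, h3, zero_mul, add_zero, hu.2.2 (g (ψ a) o) (hgM _ _), mul_assoc, h4, mul_zero,
      zero_add]
  have hM : ∀ a, v a + (1 - w) * g (ψ a) o ∈ M := fun a =>
    add_mem (hv a).1 (mul_mem hu.2.1 (hgM _ _))
  refine ⟨fun a b => (v a + (1 - w) * g (ψ a) o) * star (v b + (1 - w) * g (ψ b) o),
    cut_mu hf k1 ?_, fun a b => mul_mem (hM a) (star_mem (hM b)), fun a => ?_⟩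
  · rw [sum_congr rfl fun a _ => k2 a, sum_add_distrib, hs, ← mul_sum,
      Equiv.sum_comp ψ fun i => g i i, hg.sum, mul_one, add_sub_cancel]
  · show w * ((v a + (1 - w) * g (ψ a) o) * star (v a + (1 - w) * g (ψ a) o)) = _
    rw [k2, mul_add, ← mul_assoc, h5, ← mul_assoc, hwu, zero_mul, add_zero]

theorem adL (hU : Uns M) (h : Tr M τ) {κ : Type} [Fintype κ] {X : κ → Op H} (hX : ∀ j, X j ∈ M)
    (h0 : ∀ j, 0 ≤ X j) {ε : ℝ} (hε : 0 < ε) (k₀ : ℕ) {z : Op H} (hz : Cen M z) (hz0 : z ≠ 0) :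
    ∃ w, Cen M w ∧ w ≠ 0 ∧ z * w = w ∧ ∃ σ : Op H →ₗ[ℝ] ℝ, Tr0 M σ ∧
      ∃ (ι : Type) (_ : Fintype ι) (_ : DecidableEq ι) (e : ι → ι → Op H), MU e 1 ∧
        (∀ i j, e i j ∈ M) ∧ k₀ ≤ Fintype.card ι ∧
        ∀ j, ∑ t, ‖e t t * (X j * w) * e t t‖ ≤ Fintype.card ι * (σ (X j) + ε) := by
  classical
  obtain ⟨T, _, q, hq, hq1, hqX⟩ := part0 hX h0 (half_pos hε)
  obtain ⟨k₁, hk₁⟩ := exists_nat_ge ((Fintype.card T * ∑ j, ‖X j‖) / (ε / 2))
  obtain ⟨k, kp, kk₀, kk₁⟩ : ∃ k : ℕ, 0 < k ∧ k₀ ≤ k ∧ k₁ ≤ k := ⟨k₀ + k₁ + 1, by omega, by omega,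
    by omega⟩
  have kR : (0 : ℝ) < k := Nat.cast_pos.2 kp
  have hk : (Fintype.card T * ∑ j, ‖X j‖) ≤ k * (ε / 2) :=
    (div_le_iff₀ (half_pos hε)).1 (hk₁.trans (Nat.cast_le.2 kk₁))
  obtain ⟨g, hg, hgM⟩ := hU k kp
  obtain ⟨o⟩ : Nonempty (Fin k) := ⟨⟨0, kp⟩⟩
  have hf : IsStarProjection (g o o) := ⟨by rw [IsIdempotentElem, hg.mul, if_pos rfl], hg.adj _ _⟩
  have hτ : ∀ y, Cen M y → τ y = k * τ (y * g o o) := fun y hy => by
    have e1 := (Tr0.of h).pf_cen hg hgM {o} hy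
    rw [pF, sum_singleton, card_singleton, Fintype.card_fin, Nat.cast_one, one_mul] at e1
    exact e1.symm
  obtain ⟨w, hw, hw0, hzw, n, t, r, n', t', r', a1, a2, a5, a4, c1, c2, c3, c5, c4⟩ :=
    adL_cuts h hf (hgM o o) hτ hq hq1 hz hz0
  obtain ⟨w0, σ, hσ, hwσ⟩ := tr_restr h hw hw0
  have hf' := adL_cp hw hf (hgM o o)
  have hτw := hτ w hw
  have f0 : 0 < τ (w * g o o) := by
    rw [hτw] at w0
    exact (mul_pos_iff_of_pos_left kR).1 w0
  have hp : ∀ s, IsStarProjection (w * q s) := fun s => adL_cp hw (hq s).1 (hq s).2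
  have b1 := fun s => cut_le hf' (hp s) (fun i => (a1 s i).2) (a2 s).1 (a5 s)
  have d1 := fun s => cut_sum_tr h (a1 s) (a5 s)
  have d2 := cut_sum_tr h c1 c5
  have d3 := h.proj c2 c3
  have d4 : ((∑ s, n s + n' : ℕ) : ℝ) * τ (w * g o o) + τ r' = k * τ (w * g o o) := by
    have e1 : ∑ s, τ (w * q s) = τ w := by rw [← map_sum, ← mul_sum, hq1, mul_one]
    rw [sum_congr rfl fun s _ => d1 s, sum_add_distrib, ← sum_mul, ← map_sum, d2, hτw] at e1
    push_cast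
    linarith
  have d6 : ∑ s, n s + n' = k := by
    have e1 : ((∑ s, n s + n' : ℕ) : ℝ) ≤ k := le_of_mul_le_mul_right (by linarith [d3.1]) f0
    have e2 : (k : ℝ) < ((∑ s, n s + n' + 1 : ℕ) : ℝ) := by
      rw [Nat.cast_succ]
      exact lt_of_mul_lt_mul_right (by linarith) f0.le
    have e3 := Nat.cast_le.1 e1
    have e4 := Nat.cast_lt.1 e2
    omega
  have d7 : r' = 0 := by
    rw [d6] at d4
    exact d3.2.2 (by linarith)
  rw [d7, add_zero] at c5
  let v : (Σ s, Fin (n s)) ⊕ Fin n' → Op H := Sum.elim (fun x => t x.1 x.2) t'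
  have w1 : ∀ a, v a ∈ M ∧ star (v a) * v a = w * g o o := fun a => by
    cases a with
    | inl x => exact a1 x.1 x.2
    | inr i => exact c1 i
  have w2 : ∑ a, v a * star (v a) = w := by
    rw [Fintype.sum_sum_type, Fintype.sum_sigma, ← mul_one w, ← hq1, mul_sum,
      sum_congr rfl fun s _ => (a5 s).symm, sum_add_distrib, ← c5]
    rfl
  have w3 : Fintype.card ((Σ s, Fin (n s)) ⊕ Fin n') = k := by
    rw [← d6]
    simp
  obtain ⟨e, he, heM, hev⟩ := adL_ext hg hgM o hw w3 w1 w2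
  refine ⟨w, hw, hw0, hzw, σ, hσ, _, inferInstance, inferInstance, e, he, heM, w3.symm ▸ kk₀,
    fun j => ?_⟩
  have u0 : ∀ a, e a a * (X j * w) * e a a = v a * star (v a) * X j * (v a * star (v a)) :=
    fun a => by
    rw [← hev, hw.2.2 (e a a) (heM a a), mul_assoc (e a a) w, hw.2.2 _ (hX j),
      mul_assoc _ _ (e a a * w), mul_assoc (X j) w, ← hw.2.2 (e a a) (heM a a), ← mul_assoc w,
      hw.1.isIdempotentElem.eq]
    simp only [mul_assoc]
  rw [w3, sum_congr rfl fun a _ => congrArg norm (u0 a), Fintype.sum_sum_type, Fintype.sum_sigma]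
  have u1 : ∀ s, ∑ i : Fin (n s), ‖t s i * star (t s i) * X j * (t s i * star (t s i))‖ ≤
      k * (σ (q s) * ‖q s * X j * q s‖) := fun s => by
    have e0 : q s * (w * q s) = w * q s := by
      rw [← mul_assoc, ← hw.2.2 _ (hq s).2, mul_assoc, (hq s).1.isIdempotentElem.eq]
    refine (sum_le_sum fun i _ => (cut_norm (hp s) (cut_proj hf' (a1 s i).2) ((b1 s).1 i)).trans
      (cut_norm (hq s).1 (hp s) e0)).trans ?_
    rw [sum_const, card_univ, Fintype.card_fin, nsmul_eq_mul, ← mul_assoc]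
    refine mul_le_mul_of_nonneg_right ?_ (norm_nonneg _)
    have e1 := d1 s
    rw [hwσ, hτw] at e1
    exact le_of_mul_le_mul_right (by linarith [(h.proj (a2 s).1 (a2 s).2).1]) f0
  have u2 : (n' : ℝ) ≤ Fintype.card T := by
    have e1 : τ (∑ s, r s) ≤ Fintype.card T * τ (w * g o o) := by
      rw [map_sum]
      refine (sum_le_sum fun s _ => a4 s).trans_eq ?_
      rw [sum_const, card_univ, nsmul_eq_mul]
    exact le_of_mul_le_mul_right (by linarith [d3.1]) f0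
  have u3 : ∑ i : Fin n', ‖t' i * star (t' i) * X j * (t' i * star (t' i))‖ ≤ k * (ε / 2) := by
    refine (sum_le_sum fun i _ =>
      cut_norm (IsStarProjection.one _) (cut_proj hf' (c1 i).2) (one_mul _)).trans ?_
    rw [sum_const, card_univ, Fintype.card_fin, nsmul_eq_mul, one_mul, mul_one]
    refine le_trans (mul_le_mul u2 ?_ (norm_nonneg _) (Nat.cast_nonneg _)) hk
    exact single_le_sum (f := fun j => ‖X j‖) (fun _ _ => norm_nonneg _) (mem_univ j)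
  have u4 := (sum_le_sum fun s (_ : s ∈ univ) => u1 s).trans_eq (mul_sum _ _ _).symm
  have u5 := mul_le_mul_of_nonneg_left (hqX σ hσ j) kR.le
  calc _ ≤ k * (σ (X j) + ε / 2) + k * (ε / 2) := add_le_add (u4.trans u5) u3
    _ = _ := by ring

theorem adL_ad (hU : Uns M) (h : Tr M τ) {κ : Type} [Fintype κ] {x : κ → Op H}
    (hx : ∀ j, x j ∈ M) {ε : ℝ} (hε : 0 < ε) (k₀ : ℕ) {z : Op H} (hz : Cen M z) (hz0 : z ≠ 0) :
    ∃ w, Cen M w ∧ w ≠ 0 ∧ z * w = w ∧ ∃ σ : Op H →ₗ[ℝ] ℝ, Tr0 M σ ∧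
      ∃ (ι : Type) (_ : Fintype ι) (_ : DecidableEq ι) (e : ι → ι → Op H), MU e 1 ∧
        (∀ i j, e i j ∈ M) ∧ k₀ ≤ Fintype.card ι ∧
        ∀ j, Ad e (x j * w) (σ (star (x j) * x j) + ε) := by
  obtain ⟨w, hw, hw0, hzw, σ, hσ, ι, _, _, e, a1, a2, a3, a4⟩ :=
    adL hU h (X := fun j => x j * star (x j))
      (fun j => mul_mem (hx j) (star_mem (hx j))) (fun j => mul_star_self_nonneg _) hε k₀ hz hz0
  refine ⟨w, hw, hw0, hzw, σ, hσ, ι, _, _, e, a1, a2, a3, fun j => ?_⟩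
  have b := a4 j
  rw [hσ.comm _ (hx j) _ (star_mem (hx j))] at b
  refine le_of_eq_of_le (sum_congr rfl fun t _ => ?_) b
  rw [sq, ← CStarRing.norm_self_mul_star, star_mul, a1.adj, ← hw.2.2 _ (hx j), mul_assoc,
    ← mul_assoc (w * x j), adL_ss' hw (hx j) (hx j), hw.2.2 _ (mul_mem (hx j) (star_mem (hx j))),
    ← mul_assoc]

end Pool.Agent.Kad.H3
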