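import Pool.Agent.Lib.MP_22c5db_an.H3.Basic

/-! Averaging over a family. -/

open scoped InnerProductSpace ComplexConjugate
open Finset

noncomputable section

namespace Pool.Agent.Kad.H3

open Pool.Agent.Kad.H2

universe u

set_option linter.unusedSectionVars false

variable {H : Type u} [NormedAddCommGroup H] [InnerProductSpace ℂ H] [CompleteSpace H]
  {M : VonNeumannAlgebra H} {τ : Op H →ₗ[ℝ] ℝ} {φ : Bil H} {C : ℝ}
  {ι : Type} [Fintype ι] [DecidableEq ι] {e : ι → ι → Op H}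

variable {I : Type} [Fintype I] {a : I → Op H}

theorem avg_sq (h1 : ∑ i, star (a i) * a i = 1) (η : H) : ∑ i, ‖a i η‖ ^ 2 = ‖η‖ ^ 2 := by
  have h2 : (⟪η, (∑ i, star (a i) * a i) η⟫_ℂ).re = ∑ i, ‖a i η‖ ^ 2 := by
    rw [_root_.sum_apply, inner_sum, Complex.re_sum]
    exact sum_congr rfl fun i _ => basic_re (a i) η
  rw [← h2, h1]
  have h3 := basic_re (1 : Op H) η
  rwa [star_one, one_mul] at h3

theorem avg_row (h1 : ∑ i, star (a i) * a i = 1) (w : I → H) :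
    ‖∑ i, star (a i) (w i)‖ ^ 2 ≤ ∑ i, ‖w i‖ ^ 2 := by
  obtain ⟨η, hη⟩ : ∃ η, η = ∑ i, star (a i) (w i) := ⟨_, rfl⟩
  rw [← hη]
  have h2 : ‖η‖ ^ 2 ≤ ∑ i, ‖a i η‖ * ‖w i‖ := by
    have h3 : ⟪η, η⟫_ℂ = ∑ i, ⟪a i η, w i⟫_ℂ := by
      nth_rewrite 2 [hη]
      rw [inner_sum]
      refine sum_congr rfl fun i _ => ?_
      rw [ContinuousLinearMap.star_eq_adjoint, ContinuousLinearMap.adjoint_inner_right]
    rw [← inner_self_eq_norm_sq (𝕜 := ℂ), h3, map_sum]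
    exact sum_le_sum fun i _ => re_inner_le_norm _ _
  have h4 := sum_mul_sq_le_sq_mul_sq univ (fun i => ‖a i η‖) (fun i => ‖w i‖)
  rw [avg_sq h1] at h4
  have h5 : (‖η‖ ^ 2) ^ 2 ≤ ‖η‖ ^ 2 * ∑ i, ‖w i‖ ^ 2 :=
    (pow_le_pow_left₀ (sq_nonneg _) h2 2).trans h4
  rcases (sq_nonneg ‖η‖).eq_or_lt with h0 | h0
  · rw [← h0]
    exact sum_nonneg fun i _ => sq_nonneg _
  · rw [sq (‖η‖ ^ 2)] at h5
    exact le_of_mul_le_mul_left h5 h0

theorem sub_cob_avg (h : CC M φ) (ha : ∀ i, a i ∈ M) (h1 : ∑ i, star (a i) * a i = 1) {x y : Op H}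
    (hx : x ∈ M) (hy : y ∈ M) : (φ - cob (avg φ a)) x y =
      ∑ i, star (a i) * φ (a i * x) y - x * avg φ a y := by
  have h3 : ∀ i, star (a i) * φ (a i * x) y = star (a i) * a i * φ x y +
      star (a i) * φ (a i) (x * y) - star (a i) * φ (a i) x * y := fun i => by
    rw [h _ (ha i) x hx y hy, mul_sub, mul_add, ← mul_assoc, mul_assoc (star (a i)) (φ _ x)]
  have h2 : ∑ i, star (a i) * a i * φ x y = φ x y := by rw [← sum_mul, h1, one_mul]
  simp only [h3, sum_sub_distrib, sum_add_distrib, h2]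
  rw [LinearMap.sub_apply, LinearMap.sub_apply, cob_apply, avg_apply φ a (x * y),
    avg_apply φ a x, sum_mul]
  abel

theorem avg_bd (hb : Bd2 M φ C) (hC : 0 ≤ C) (ha : ∀ i, a i ∈ M)
    (h1 : ∑ i, star (a i) * a i = 1) (h2 : ‖∑ i, a i * star (a i)‖ ≤ 1) :
    Bd M (avg φ a) (3 * C) := by
  intro y hy
  refine ContinuousLinearMap.opNorm_le_bound _ (by positivity) fun ζ => ?_
  have h3 := avg_row h1 (fun i => φ (a i) y ζ)
  have h4 := gt (lfEv_le hb hy ζ) (by positivity) (x := a) ha (s := 1) (t := 1)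
    (fun ξ => by rw [avg_sq h1, _root_.one_pow, one_mul])
    (cl_iff.2 (by simpa only [star_star, _root_.one_pow] using h2))
  have h5 : avg φ a y ζ = ∑ i, star (a i) (φ (a i) y ζ) := by
    rw [avg_apply]
    simp only [_root_.sum_apply, mul_apply_eq_comp]
  rw [← h5] at h3
  refine (pow_le_pow_iff_left₀ (norm_nonneg _) (by positivity) two_ne_zero).1 (h3.trans ?_)
  refine le_trans h4 ?_
  have : 0 ≤ (C * ‖y‖ * ‖ζ‖) ^ 2 := by positivity
  nlinarith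

theorem avg_gt (h : CC M φ) (hb : Bd2 M φ C) (hC : 0 ≤ C) (ha : ∀ i, a i ∈ M)
    (h1 : ∑ i, star (a i) * a i = 1) (h2 : ‖∑ i, a i * star (a i)‖ ≤ 1) {κ : Type} [Fintype κ]
    {x : κ → Op H} (hx : ∀ l, x l ∈ M) {t s : ℝ} (ht : 0 ≤ t) (hs : 0 ≤ s) (hx1 : Cl x t)
    (hx2 : ‖∑ i, a i * (∑ l, x l * star (x l)) * star (a i)‖ ≤ s ^ 2) {y : Op H} (hy : y ∈ M)
    (ζ : H) : ∑ l, ‖(φ - cob (avg φ a)) (x l) y ζ‖ ^ 2 ≤
      (C * (5 * t + 2 * s) * ‖y‖ * ‖ζ‖) ^ 2 := by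
  obtain ⟨b, hbd⟩ : ∃ b, b = C * ‖y‖ * ‖ζ‖ := ⟨_, rfl⟩
  have hb0 : 0 ≤ b := by rw [hbd]; positivity
  have k := gt (lfEv_le hb hy ζ) (hbd ▸ hb0) (κ := κ × I) (x := fun P => a P.2 * x P.1)
    (fun P => mul_mem (ha _) (hx _)) (s := t) (t := s)
    (fun ξ => by
      rw [Fintype.sum_prod_type]
      simp only [mul_apply_eq_comp, avg_sq h1]
      exact hx1 ξ)
    (cl_iff.2 (by
      refine le_trans (le_of_eq ?_) hx2
      rw [Fintype.sum_prod_type_right]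
      simp only [star_star, star_mul, mul_sum, sum_mul, mul_assoc]))
  rw [← hbd, Fintype.sum_prod_type] at k
  have hA : ∑ l, ‖∑ i, star (a i) (φ (a i * x l) y ζ)‖ ^ 2 ≤ (2 * b * (t + s)) ^ 2 := by
    refine (sum_le_sum fun l _ => avg_row h1 (fun i => φ (a i * x l) y ζ)).trans ?_
    refine le_trans k ?_
    have : 0 ≤ b ^ 2 * (t * s) := by positivity
    nlinarith
  have hB : ∑ l, ‖x l (avg φ a y ζ)‖ ^ 2 ≤ (t * (3 * b)) ^ 2 := by
    refine (hx1 _).trans ?_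
    rw [mul_pow]
    refine mul_le_mul_of_nonneg_left (pow_le_pow_left₀ (norm_nonneg _) ?_ 2) (sq_nonneg _)
    refine ((avg φ a y).le_opNorm ζ).trans ?_
    calc _ ≤ 3 * C * ‖y‖ * ‖ζ‖ :=
          mul_le_mul_of_nonneg_right (avg_bd hb hC ha h1 h2 y hy) (norm_nonneg _)
      _ = _ := by rw [hbd]; ring
  have hm := lf_mink (by positivity) (by positivity) hA hB
  refine le_trans (le_of_eq (sum_congr rfl fun l _ => ?_)) (hm.trans (le_of_eq ?_))
  · rw [sub_cob_avg h ha h1 (hx l) hy]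
    simp only [sub_apply, _root_.sum_apply, mul_apply_eq_comp]
  · rw [hbd]; ring

end Pool.Agent.Kad.H3
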