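import Pool.Agent.Lib.MP_22c5db_an.H3.Defs

/-! Elementary facts. -/

open scoped InnerProductSpace ComplexConjugate
open Finset

noncomputable section

namespace Pool.Agent.Kad.H3

open Pool.Agent.Kad.H2

universe u

set_option linter.unusedSectionVars false

variable {H : Type u} [NormedAddCommGroup H] [InnerProductSpace ℂ H] [CompleteSpace H]
  {M : VonNeumannAlgebra H} {τ : Op H →ₗ[ℝ] ℝ} {φ : Bil H} {C : ℝ}
  {ι : Type} [Fintype ι] [DecidableEq ι] {e : ι → ι → Op H}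

theorem Tr0.of (h : Tr M τ) : Tr0 M τ := ⟨h.one, h.comm, h.pos⟩

theorem Tr0.nonneg (h : Tr0 M τ) {a : Op H} (ha : a ∈ M) (h0 : 0 ≤ a) : 0 ≤ τ a := by
  have hsa : IsSelfAdjoint a := IsSelfAdjoint.of_nonneg h0
  have hM : cfc (fun t : ℝ => √t) a ∈ M := mem_of_comm fun r hr =>
    (Commute.cfc_real (comm_of_mem ha hr).symm _).eq.symm
  have e : star (cfc (fun t : ℝ => √t) a) * cfc (fun t : ℝ => √t) a = a := by
    rw [IsSelfAdjoint.cfc.star_eq, ← cfc_mul ..]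
    conv_rhs => rw [← cfc_id' ℝ a]
    exact cfc_congr fun t ht => Real.mul_self_sqrt (spectrum_nonneg_of_nonneg h0 ht)
  have := h.pos _ hM
  rwa [e] at this

theorem Tr0.mono (h : Tr0 M τ) {a b : Op H} (ha : a ∈ M) (hb : b ∈ M) (hab : a ≤ b) :
    τ a ≤ τ b := by
  have := h.nonneg (sub_mem hb ha) (sub_nonneg.2 hab)
  rw [map_sub] at this
  linarith

theorem Tr0.le_norm (h : Tr0 M τ) {a : Op H} (ha : a ∈ M) (h0 : 0 ≤ a) : τ a ≤ ‖a‖ := by
  have hsa : IsSelfAdjoint a := IsSelfAdjoint.of_nonneg h0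
  have h1 := hsa.le_algebraMap_norm_self
  rw [Algebra.algebraMap_eq_smul_one] at h1
  have hM : ‖a‖ • (1 : Op H) ∈ M := by
    rw [← Complex.coe_smul]
    exact smul_mem' _ (one_mem M)
  have := h.mono ha hM h1
  rwa [map_smul, h.one, smul_eq_mul, mul_one] at this

theorem Tr0.proj (h : Tr0 M τ) {p : Op H} (hp : IsStarProjection p) (hpM : p ∈ M) :
    0 ≤ τ p ∧ τ p ≤ 1 := by
  have e : star p * p = p := by rw [hp.isSelfAdjoint.star_eq, hp.isIdempotentElem.eq]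
  have e' : star (1 - p) * (1 - p) = 1 - p := by
    rw [hp.one_sub.isSelfAdjoint.star_eq, hp.one_sub.isIdempotentElem.eq]
  have h1 := h.pos p hpM
  have h2 := h.pos (1 - p) (sub_mem (one_mem M) hpM)
  rw [e] at h1
  rw [e', map_sub, h.one] at h2
  exact ⟨h1, by linarith⟩

/-- the trace of a unit, on a central piece -/
theorem Tr0.pf_cen (h : Tr0 M τ) (he : MU e 1) (heM : ∀ i j, e i j ∈ M) (F : Finset ι) {y : Op H}
    (hy : Cen M y) : Fintype.card ι * τ (y * pF e F) = F.card * τ y := by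
  have h1 : ∀ s t, τ (y * e s s) = τ (y * e t t) := fun s t => by
    have h2 := h.comm _ (mul_mem hy.2.1 (heM s t)) _ (heM t s)
    rwa [mul_assoc, he.mul, if_pos rfl, ← mul_assoc, ← hy.2.2 _ (heM t s), mul_assoc, he.mul,
      if_pos rfl] at h2
  have h2 : ∀ t, τ y = Fintype.card ι * τ (y * e t t) := fun t => by
    have h3 : τ y = ∑ s, τ (y * e s s) := by rw [← map_sum, ← mul_sum, he.sum, mul_one]
    rw [h3, sum_congr rfl fun s _ => h1 s t, sum_const, card_univ, nsmul_eq_mul]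
  rw [pF, mul_sum, map_sum, mul_sum, sum_congr rfl fun t _ => (h2 t).symm, sum_const, nsmul_eq_mul]

/-- a subequivalence, on a central piece -/
theorem Tr0.le_cen (h : Tr0 M τ) {s p q y : Op H} (hs : s ∈ M) (hp : IsStarProjection p)
    (hq : IsStarProjection q) (hqM : q ∈ M) (h1 : star s * s = p) (h2 : q * s = s) (hy : Cen M y) :
    τ (y * p) ≤ τ (y * q) := by
  have hsp : s * p = s := VN2.piso_right hp h1
  have hw : IsStarProjection (s * star s) := by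
    refine ⟨?_, ?_⟩
    · rw [IsIdempotentElem, mul_assoc, ← mul_assoc (star s), h1, ← mul_assoc, hsp]
    · rw [IsSelfAdjoint, star_mul, star_star]
  have hlw : q * (s * star s) = s * star s := by rw [← mul_assoc, h2]
  have hd : IsStarProjection (q - s * star s) := hw.sub_of_mul_eq_right hq hlw
  have hss : star s ∈ M := star_mem hs
  have hdM : q - s * star s ∈ M := sub_mem hqM (mul_mem hs hss)
  have h3 := (h.proj (hy.1.mul hd (hy.2.2 _ hdM)) (mul_mem hy.2.1 hdM)).1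
  have h4 := h.comm _ (mul_mem hy.2.1 hs) _ hss
  rw [← mul_assoc (star s), ← hy.2.2 _ hss, mul_assoc y (star s), h1, mul_assoc] at h4
  rw [mul_sub, map_sub, h4] at h3
  linarith

/-- the normalised restriction to a central piece -/
theorem tr_restr (h : Tr M τ) {w : Op H} (hw : Cen M w) (hw0 : w ≠ 0) :
    0 < τ w ∧ ∃ σ : Op H →ₗ[ℝ] ℝ, Tr0 M σ ∧ ∀ x, τ (w * x) = τ w * σ x := by
  obtain ⟨h0, -, h1⟩ := h.proj hw.1 hw.2.1
  have hp : 0 < τ w := lt_of_le_of_ne h0 fun h2 => hw0 (h1 h2.symm)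
  have hσ : ∀ x, ((τ w)⁻¹ • τ ∘ₗ LinearMap.mulLeft ℝ w) x = (τ w)⁻¹ * τ (w * x) := fun x => rfl
  refine ⟨hp, (τ w)⁻¹ • τ ∘ₗ LinearMap.mulLeft ℝ w, ⟨?_, fun x hx y hy => ?_, fun x hx => ?_⟩,
    fun x => ?_⟩
  · rw [hσ, mul_one, inv_mul_cancel₀ hp.ne']
  · rw [hσ, hσ, ← mul_assoc w x, h.comm _ (mul_mem hw.2.1 hx) _ hy, ← mul_assoc y,
      ← hw.2.2 y hy, mul_assoc w]
  · rw [hσ]
    refine mul_nonneg (inv_nonneg.2 h0) ?_
    have h2 := h.pos _ (mul_mem hw.2.1 hx)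
    rwa [star_mul, hw.1.isSelfAdjoint.star_eq, mul_assoc, ← mul_assoc w w,
      hw.1.isIdempotentElem.eq, ← mul_assoc, ← hw.2.2 _ (star_mem hx), mul_assoc] at h2
  · rw [hσ, ← mul_assoc, mul_inv_cancel₀ hp.ne', one_mul]

theorem tr_mix {τ' : Op H →ₗ[ℝ] ℝ} (h : Tr M τ) (h' : Tr M τ') {s s' : ℝ} (hs : 0 ≤ s)
    (hs' : 0 ≤ s') : ∃ σ : Op H →ₗ[ℝ] ℝ, Tr M σ ∧ ∀ x, s * τ x + s' * τ' x = (s + s') * σ x := by
  rcases (add_nonneg hs hs').eq_or_lt with h0 | h0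
  · have h1 : s = 0 := by linarith
    have h2 : s' = 0 := by linarith
    exact ⟨τ, h, fun x => by rw [h1, h2]; ring⟩
  have hσ : ∀ x, ((s + s')⁻¹ • (s • τ + s' • τ')) x = (s + s')⁻¹ * (s * τ x + s' * τ' x) :=
    fun x => rfl
  refine ⟨(s + s')⁻¹ • (s • τ + s' • τ'),
    ⟨?_, fun x hx y hy => ?_, fun x hx => ?_, fun x hx h1 => ?_⟩, fun x => ?_⟩
  · rw [hσ, h.one, h'.one, mul_one, mul_one, inv_mul_cancel₀ h0.ne']
  · rw [hσ, hσ, h.comm x hx y hy, h'.comm x hx y hy]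
  · rw [hσ]
    exact mul_nonneg (inv_nonneg.2 h0.le)
      (add_nonneg (mul_nonneg hs (h.pos x hx)) (mul_nonneg hs' (h'.pos x hx)))
  · rw [hσ] at h1
    have h2 := (mul_eq_zero.1 h1).resolve_left (inv_ne_zero h0.ne')
    have h3 := mul_nonneg hs (h.pos x hx)
    have h4 := mul_nonneg hs' (h'.pos x hx)
    rcases hs.eq_or_lt with h5 | h5
    · have h6 : s' * τ' (star x * x) = 0 := by linarith
      exact h'.faith x hx ((mul_eq_zero.1 h6).resolve_left (by linarith))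
    · have h6 : s * τ (star x * x) = 0 := by linarith
      exact h.faith x hx ((mul_eq_zero.1 h6).resolve_left h5.ne')
  · rw [hσ, ← mul_assoc, mul_inv_cancel₀ h0.ne', one_mul]

theorem ZN.left (hz : ZN M φ) (h : CC M φ) {z x y : Op H} (hc : Cen M z) (hx : x ∈ M)
    (hy : y ∈ M) : φ (z * x) y = z * φ x y := by
  rw [h z hc.2.1 x hx y hy, (hz z hc _ (mul_mem hx hy)).1, (hz z hc x hx).1, zero_mul, add_zero,
    sub_zero]

theorem ZN.right (hz : ZN M φ) (h : CC M φ) {z x y : Op H} (hc : Cen M z) (hx : x ∈ M)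
    (hy : y ∈ M) : φ x (y * z) = φ x y * z := by
  have h1 := h x hx y hy z hc.2.1
  rw [(hz z hc _ (mul_mem hx hy)).2, (hz z hc y hy).2, mul_zero, zero_add] at h1
  exact sub_eq_zero.1 h1.symm

theorem ZN.comm (hz : ZN M φ) (h : CC M φ) {z x y : Op H} (hc : Cen M z) (hx : x ∈ M)
    (hy : y ∈ M) : z * φ x y = φ x y * z := by
  rw [← hz.left h hc hx hy, hc.2.2 x hx, h x hx z hc.2.1 y hy, (hz z hc y hy).1, (hz z hc x hx).2,
    mul_zero, zero_mul, zero_add, sub_zero, hc.2.2 y hy, hz.right h hc hx hy]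

theorem ZN.sub_cob (hz : ZN M φ) {β : Op H →ₗ[ℂ] Op H} (hβ : ZM M β) : ZN M (φ - cob β) := by
  intro z hc x hx
  obtain ⟨h1, h2⟩ := hβ z hc
  constructor
  · rw [LinearMap.sub_apply, LinearMap.sub_apply, cob_apply, (hz z hc x hx).1, h1, (h2 x hx).1,
      zero_mul, sub_self, add_zero, sub_zero]
  · rw [LinearMap.sub_apply, LinearMap.sub_apply, cob_apply, (hz z hc x hx).2, h1, ← hc.2.2 x hx,
      (h2 x hx).1, (h2 x hx).2, mul_zero, zero_sub, zero_sub, neg_add_cancel, neg_zero]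

theorem ZM.add {β β' : Op H →ₗ[ℂ] Op H} (h : ZM M β) (h' : ZM M β') : ZM M (β + β') := by
  intro z hc
  refine ⟨by rw [LinearMap.add_apply, (h z hc).1, (h' z hc).1, add_zero], fun x hx => ⟨?_, ?_⟩⟩
  · rw [LinearMap.add_apply, LinearMap.add_apply, ((h z hc).2 x hx).1, ((h' z hc).2 x hx).1,
      mul_add]
  · rw [LinearMap.add_apply, mul_add, add_mul, ((h z hc).2 x hx).2, ((h' z hc).2 x hx).2]

theorem zm_bl (hz : ZN M φ) (h : CC M φ) (heM : ∀ i j, e i j ∈ M) : ZM M (bl φ e) := by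
  intro z hc
  have h1 : ∀ x ∈ M, z * bl φ e x = bl φ e x * z := fun x hx => by
    rw [bl_apply, mul_smul_comm, smul_mul_assoc, Finset.mul_sum, Finset.sum_mul]
    refine congrArg _ (Finset.sum_congr rfl fun s _ => ?_)
    rw [Finset.mul_sum, Finset.sum_mul]
    refine Finset.sum_congr rfl fun t _ => ?_
    rw [← mul_assoc, hc.2.2 _ (heM t s), mul_assoc, hz.comm h hc (heM s t) hx, mul_assoc]
  refine ⟨?_, fun x hx => ⟨?_, h1 x hx⟩⟩
  · simp only [bl_apply, fun s t => (hz z hc _ (heM s t)).2, mul_zero, Finset.sum_const_zero,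
      smul_zero]
  · rw [h1 x hx, hc.2.2 x hx, bl_apply, bl_apply, smul_mul_assoc, Finset.sum_mul]
    refine congrArg _ (Finset.sum_congr rfl fun s _ => ?_)
    rw [Finset.sum_mul]
    refine Finset.sum_congr rfl fun t _ => ?_
    rw [hz.right h hc (heM s t) hx, mul_assoc]

theorem bd2_sub_cob (hb : Bd2 M φ C) {β : Op H →ₗ[ℂ] Op H} {c : ℝ} (hc : 0 ≤ c)
    (hβ : Bd M β c) : Bd2 M (φ - cob β) (C + 3 * c) := by
  intro x hx y hy
  have h1 : ‖x * β y‖ ≤ c * ‖x‖ * ‖y‖ := (norm_mul_le _ _).trans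
    ((mul_le_mul_of_nonneg_left (hβ y hy) (norm_nonneg _)).trans (le_of_eq (by ring)))
  have h2 : ‖β (x * y)‖ ≤ c * ‖x‖ * ‖y‖ := (hβ _ (mul_mem hx hy)).trans
    ((mul_le_mul_of_nonneg_left (norm_mul_le _ _) hc).trans (le_of_eq (by ring)))
  have h3 : ‖β x * y‖ ≤ c * ‖x‖ * ‖y‖ := (norm_mul_le _ _).trans
    (mul_le_mul_of_nonneg_right (hβ x hx) (norm_nonneg _))
  rw [LinearMap.sub_apply, LinearMap.sub_apply, cob_apply]
  have h4 := norm_sub_le (φ x y) (x * β y - β (x * y) + β x * y)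
  have h5 := norm_add_le (x * β y - β (x * y)) (β x * y)
  have h6 := norm_sub_le (x * β y) (β (x * y))
  have h7 := hb x hx y hy
  linarith

theorem nrm_two (h : Nrm M φ e C) : Nrm M φ e (2 * C) := by
  have h0 := h.c0
  refine ⟨h.cc, fun κ _ x hx t ht hcl y hy ζ => (h.col κ x hx t ht hcl y hy ζ).trans ?_,
    by linarith, h.mu, h.mem, h.left, h.right⟩
  have h1 : 0 ≤ C * t * ‖y‖ * ‖ζ‖ := by positivity
  exact pow_le_pow_left₀ h1 (by linarith) 2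

theorem dom_two {ζ : H} {G : Op H →L[ℝ] ℝ} (h : Dom M τ φ e C ζ G) :
    Dom M τ φ e (2 * C) ζ G := by
  refine ⟨h.pos, fun κ _ x hx hcl F b hb hF => (h.flat κ x hx hcl F b hb hF).trans ?_, h.vec, h.tr⟩
  have h1 := h.pos.pos b
  exact mul_le_mul_of_nonneg_right (by nlinarith [sq_nonneg C]) (by positivity)

theorem Loc.mono {c c' : ℝ} (h : Loc M φ c) (hc : c ≤ c') : Loc M φ c' := by
  intro ξ
  obtain ⟨ψ, h1, h2⟩ := h ξ
  exact ⟨ψ, fun a ha => (h1 a ha).trans (mul_le_mul_of_nonneg_right hc (norm_nonneg _)), h2⟩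

theorem Loc.add {β : Op H →ₗ[ℂ] Op H} {c c' : ℝ} (h : Loc M (φ - cob β) c) (hβ : Bd M β c') :
    Loc M φ (c' + c) := by
  intro ξ
  obtain ⟨ψ, h1, h2⟩ := h ξ
  refine ⟨β + ψ, fun a ha => ?_, fun x hx y hy b hb => ?_⟩
  · rw [LinearMap.add_apply, add_mul]
    exact (norm_add_le _ _).trans (add_le_add (hβ a ha) (h1 a ha))
  · rw [cob_add, LinearMap.add_apply, LinearMap.add_apply, ContinuousLinearMap.add_apply,
      ← h2 x hx y hy b hb, LinearMap.sub_apply, LinearMap.sub_apply,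
      ContinuousLinearMap.sub_apply, add_sub_cancel]

theorem loc_of_kp (h : CC M φ) (hK : KP M φ C) (hC : 0 ≤ C) : Loc M φ (4 * C) := by
  intro ξ
  obtain ⟨g, hg, hg'⟩ := ext_one h (key h hK hC ξ) (by positivity)
  obtain ⟨ψ, hψ, hψ'⟩ := ext_two g (by positivity) hg
  refine ⟨ψ, fun a ha => (hψ a ha).trans (le_of_eq (by ring)), fun x hx y hy b hb => ?_⟩
  rw [hg' x hx y hy b hb, cob_apply, add_apply, sub_apply, RM.mapp, RM.mapp, hψ' y hy b hb,
    hψ' _ (mul_mem hx hy) b hb, ← RM.mapp y b, hψ' x hx _ (mul_mem hy hb)]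

theorem wlim_cob {I : Type*} {F : Filter I} {β : I → Op H →ₗ[ℂ] Op H} {β₀ : Op H →ₗ[ℂ] Op H}
    (hlim : ∀ x ∈ M, ∀ ζ η : H,
      Filter.Tendsto (fun i => ⟪η, β i x ζ⟫_ℂ) F (nhds ⟪η, β₀ x ζ⟫_ℂ))
    {x y : Op H} (hx : x ∈ M) (hy : y ∈ M) (ζ η : H) :
    Filter.Tendsto (fun i => ⟪η, (φ - cob (β i)) x y ζ⟫_ℂ) F
      (nhds ⟪η, (φ - cob β₀) x y ζ⟫_ℂ) := by
  have e : ∀ γ : Op H →ₗ[ℂ] Op H, ⟪η, (φ - cob γ) x y ζ⟫_ℂ = ⟪η, φ x y ζ⟫_ℂ -
      (⟪star x η, γ y ζ⟫_ℂ - ⟪η, γ (x * y) ζ⟫_ℂ + ⟪η, γ x (y ζ)⟫_ℂ) := by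
    intro γ
    rw [ContinuousLinearMap.star_eq_adjoint, ContinuousLinearMap.adjoint_inner_left]
    simp only [LinearMap.sub_apply, cob_apply, ContinuousLinearMap.sub_apply,
      ContinuousLinearMap.add_apply, ContinuousLinearMap.mul_apply, inner_sub_right,
      inner_add_right]
  simp only [e]
  exact tendsto_const_nhds.sub (((hlim y hy ζ _).sub (hlim _ (mul_mem hx hy) ζ η)).add
    (hlim _ hx _ η))

theorem col_lim {I : Type*} (𝒰 : Ultrafilter I) (β : I → Op H →ₗ[ℂ] Op H) {c D : ℝ} (hc : 0 ≤ c)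
    (hβ : ∀ i, Bd M (β i) c)
    (h : ∀ (κ : Type) [Fintype κ] (x : κ → Op H), (∀ l, x l ∈ M) → ∀ t : ℝ, 0 ≤ t → Cl x t →
      ∀ y ∈ M, ∀ (ζ : H) (ε : ℝ), 0 < ε → ∀ᶠ i in (𝒰 : Filter I),
        ∑ l, ‖(φ - cob (β i)) (x l) y ζ‖ ^ 2 ≤ (D * t * ‖y‖ * ‖ζ‖) ^ 2 + ε) :
    ∃ β₀ : Op H →ₗ[ℂ] Op H, Bd M β₀ c ∧ Col M (φ - cob β₀) D ∧
      ((∀ i, ZM M (β i)) → ZM M β₀) := by
  obtain ⟨β₀, hb0, hlim⟩ := wlim 𝒰 β hc hβ
  refine ⟨β₀, hb0, fun κ _ x hx t ht hcl y hy ζ => le_of_forall_pos_le_add fun ε hε => ?_,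
    fun hZ z hz => ?_⟩
  · exact limit_sum_le (F := (𝒰 : Filter I)) (w := fun i l => (φ - cob (β i)) (x l) y ζ)
      (fun l η => wlim_cob hlim (hx l) hy ζ η) tendsto_const_nhds (h κ x hx t ht hcl y hy ζ ε hε)
  have e : ∀ (a : Op H) (ζ η : H), ⟪η, (z * a) ζ⟫_ℂ = ⟪star z η, a ζ⟫_ℂ := fun a ζ η => by
    rw [ContinuousLinearMap.star_eq_adjoint, ContinuousLinearMap.adjoint_inner_left]
    rfl
  refine ⟨ContinuousLinearMap.ext fun ζ => ext_inner_left ℂ fun η =>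
    tendsto_nhds_unique (hlim z hz.2.1 ζ η) ?_, fun x hx => ⟨ContinuousLinearMap.ext fun ζ =>
      ext_inner_left ℂ fun η => tendsto_nhds_unique (hlim _ (mul_mem hz.2.1 hx) ζ η) ?_,
    ContinuousLinearMap.ext fun ζ => ext_inner_left ℂ fun η =>
      tendsto_nhds_unique ?_ (hlim x hx (z ζ) η)⟩⟩
  · simp only [fun i => (hZ i z hz).1]
    exact tendsto_const_nhds
  · simp only [fun i => ((hZ i z hz).2 x hx).1, e]
    exact hlim x hx ζ _
  · have e2 : ∀ i, β i x (z ζ) = (z * β i x) ζ := fun i => by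
      rw [((hZ i z hz).2 x hx).2]
      rfl
    simp only [e2, e]
    exact hlim x hx ζ _

end Pool.Agent.Kad.H3
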