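import Pool.Agent.Lib.MP_22c5db_an.H3.Basic

/-! Block diagonal sums. -/

open scoped InnerProductSpace ComplexConjugate
open Finset

noncomputable section

namespace Pool.Agent.Kad.H3

open Pool.Agent.Kad.H2

universe u

set_option linter.unusedSectionVars false

variable {H : Type u} [NormedAddCommGroup H] [InnerProductSpace ℂ H] [CompleteSpace H]
  {M : VonNeumannAlgebra H} {τ : Op H →ₗ[ℝ] ℝ} {φ : Bil H} {C : ℝ}
  {ι : Type} [Fintype ι] [DecidableEq ι] {e : ι → ι → Op H}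

variable {A : Type} [Fintype A] {w : A → Op H} {β : A → Op H →ₗ[ℂ] Op H}

omit [Fintype A] in
theorem blk_inner (hw : Orth M w) (a : A) (η ζ : H) : ⟪w a η, ζ⟫_ℂ = ⟪η, w a ζ⟫_ℂ :=
  (hw.cen a).1.isSelfAdjoint.isSymmetric η ζ

omit [Fintype A] in
theorem blk_idem (hw : Orth M w) (a : A) : w a * w a = w a := (hw.cen a).1.isIdempotentElem.eq

theorem blk_mul_sum (hw : Orth M w) (a : A) : w a * ∑ b, w b = w a := by
  rw [mul_sum, sum_eq_single a (fun b _ hb => hw.orth a b hb.symm)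
    fun hi => absurd (mem_univ a) hi, blk_idem hw]

theorem blk_rest (hw : Orth M w) (ζ : H) (a : A) : w a (ζ - (∑ b, w b) ζ) = 0 := by
  rw [map_sub, ← mul_apply_eq_comp, blk_mul_sum hw, sub_self]

omit [Fintype A] in
theorem blk_norm_le (hw : Orth M w) (a : A) (ζ : H) : ‖w a ζ‖ ≤ ‖ζ‖ := by
  have h1 := (w a).le_opNorm ζ
  have h2 : ‖w a‖ ≤ 1 := IsStarProjection.norm_le _ (hw.cen a).1
  have h3 := mul_le_mul_of_nonneg_right h2 (norm_nonneg ζ)
  linarith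

theorem blk_pyth (hw : Orth M w) (η : A → H) {η₀ : H} (h0 : ∀ a, w a η₀ = 0) :
    ‖∑ a, w a (η a) + η₀‖ ^ 2 = ∑ a, ‖w a (η a)‖ ^ 2 + ‖η₀‖ ^ 2 := by
  have h1 : ∀ a b, a ≠ b → ⟪w a (η a), w b (η b)⟫_ℂ = 0 := fun a b hab => by
    rw [blk_inner hw, ← mul_apply_eq_comp, hw.orth a b hab,
      zero_apply, inner_zero_right]
  have h2 : ∀ a, ⟪w a (η a), η₀⟫_ℂ = 0 := fun a => by rw [blk_inner hw, h0, inner_zero_right]
  have h3 : ⟪∑ a, w a (η a), η₀⟫_ℂ = 0 := by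
    rw [sum_inner]
    exact sum_eq_zero fun a _ => h2 a
  have h4 : ‖∑ a, w a (η a)‖ ^ 2 = ∑ a, ‖w a (η a)‖ ^ 2 := by
    rw [← inner_self_eq_norm_sq (𝕜 := ℂ), sum_inner, map_sum]
    refine sum_congr rfl fun a _ => ?_
    rw [inner_sum, sum_eq_single a (fun b _ hb => h1 a b hb.symm)
      (fun h => absurd (mem_univ a) h), inner_self_eq_norm_sq]
  rw [norm_add_sq (𝕜 := ℂ), h3, map_zero, mul_zero, add_zero, h4]

theorem Orth.sum_cen (hw : Orth M w) : Cen M (∑ a, w a) := by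
  refine ⟨winA_sum_proj (fun a => (hw.cen a).1) hw.orth, sum_mem fun a _ => (hw.cen a).2.1,
    fun x hx => ?_⟩
  rw [sum_mul, mul_sum]
  exact sum_congr rfl fun a _ => (hw.cen a).2.2 x hx

/-- Pythagoras -/
theorem Orth.split (hw : Orth M w) (ζ : H) :
    ‖ζ‖ ^ 2 = ∑ a, ‖w a ζ‖ ^ 2 + ‖ζ - (∑ a, w a) ζ‖ ^ 2 := by
  have h := blk_pyth hw (fun _ => ζ) (blk_rest hw ζ)
  have h1 : ∑ a, w a ζ + (ζ - (∑ a, w a) ζ) = ζ := by
    rw [_root_.sum_apply, add_sub_cancel]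
  rw [← h, h1]

/-- Pythagoras for vectors on the pieces -/
theorem Orth.pyth (hw : Orth M w) (η : A → H) {η₀ : H} (h0 : ∀ a, w a η₀ = 0) :
    ‖∑ a, w a (η a) + η₀‖ ^ 2 = ∑ a, ‖w a (η a)‖ ^ 2 + ‖η₀‖ ^ 2 := by
  exact blk_pyth hw η h0

theorem blk_bd (hw : Orth M w) {c : ℝ} (hc : 0 ≤ c) (hβ : ∀ a, Bd M (β a) c) :
    Bd M (blk w β) c := by
  intro x hx
  have hcx : 0 ≤ c * ‖x‖ := mul_nonneg hc (norm_nonneg x)
  refine ContinuousLinearMap.opNorm_le_bound _ hcx fun ζ => ?_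
  have h1 : blk w β x ζ = ∑ a, w a (β a x (w a ζ)) + 0 := by
    rw [blk_apply, _root_.sum_apply, add_zero]
    rfl
  have h2 := blk_pyth hw (fun a => β a x (w a ζ)) (η₀ := 0) fun a => map_zero _
  have h3 : ∀ a, ‖w a (β a x (w a ζ))‖ ^ 2 ≤ (c * ‖x‖) ^ 2 * ‖w a ζ‖ ^ 2 := fun a => by
    rw [← mul_pow]
    refine pow_le_pow_left₀ (norm_nonneg _) ((blk_norm_le hw a _).trans ?_) 2
    exact ((β a x).le_opNorm _).trans (mul_le_mul_of_nonneg_right (hβ a x hx) (norm_nonneg _))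
  have h4 := sum_le_sum fun a (_ : a ∈ (univ : Finset A)) => h3 a
  rw [← mul_sum] at h4
  have h5 := hw.split ζ
  have h6 : ∑ a, ‖w a ζ‖ ^ 2 ≤ ‖ζ‖ ^ 2 := by
    have := sq_nonneg ‖ζ - (∑ a, w a) ζ‖
    linarith
  have h7 := mul_le_mul_of_nonneg_left h6 (sq_nonneg (c * ‖x‖))
  refine le_of_sq_le_sq ?_ (mul_nonneg hcx (norm_nonneg ζ))
  rw [h1, h2, norm_zero, mul_pow]
  linarith

theorem blk_zm (hw : Orth M w) (hβ : ∀ a, ZM M (β a)) : ZM M (blk w β) := by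
  intro z hz
  have hc : ∀ a, z * w a = w a * z := fun a => hz.2.2 _ (hw.cen a).2.1
  refine ⟨?_, fun x hx => ⟨?_, ?_⟩⟩
  · rw [blk_apply]
    exact sum_eq_zero fun a _ => by rw [(hβ a z hz).1, zero_mul, mul_zero]
  · rw [blk_apply, blk_apply, mul_sum]
    refine sum_congr rfl fun a _ => ?_
    rw [((hβ a z hz).2 x hx).1, ← mul_assoc z, hc a, mul_assoc, mul_assoc]
  · rw [blk_apply, mul_sum, sum_mul]
    refine sum_congr rfl fun a _ => ?_
    rw [← mul_assoc z, hc a, mul_assoc, ← mul_assoc z, ((hβ a z hz).2 x hx).2, mul_assoc, hc a,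
      mul_assoc, mul_assoc]

theorem cob_blk (hw : Orth M w) {x y : Op H} (hx : x ∈ M) (hy : y ∈ M) :
    cob (blk w β) x y = ∑ a, w a * (cob (β a) x y * w a) := by
  rw [cob_apply, blk_apply, blk_apply, blk_apply, mul_sum, sum_mul, ← sum_sub_distrib,
    ← sum_add_distrib]
  refine sum_congr rfl fun a _ => ?_
  have h1 : x * (w a * (β a y * w a)) = w a * (x * β a y * w a) := by
    rw [← mul_assoc x, ← (hw.cen a).2.2 x hx, mul_assoc, mul_assoc]
  have h2 : w a * (β a x * w a) * y = w a * (β a x * y * w a) := by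
    rw [mul_assoc, mul_assoc, (hw.cen a).2.2 y hy, mul_assoc]
  rw [h1, h2, cob_apply, add_mul, sub_mul, mul_add, mul_sub]

theorem sub_cob_blk (hw : Orth M w) (h : CC M φ) (hz : ZN M φ) {x y : Op H} (hx : x ∈ M)
    (hy : y ∈ M) (ζ : H) : (φ - cob (blk w β)) x y ζ =
      ∑ a, w a ((φ - cob (β a)) x y (w a ζ)) + φ x y (ζ - (∑ a, w a) ζ) ∧
      ∀ a, w a (φ x y (ζ - (∑ a, w a) ζ)) = 0 := by
  have hc : ∀ a (ξ : H), w a (φ x y ξ) = φ x y (w a ξ) := fun a ξ => by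
    rw [← mul_apply_eq_comp, hz.comm h (hw.cen a) hx hy,
      mul_apply_eq_comp]
  refine ⟨?_, fun a => by rw [hc, blk_rest hw, map_zero]⟩
  have h1 : ∀ a, w a ((φ - cob (β a)) x y (w a ζ)) =
      φ x y (w a ζ) - w a (cob (β a) x y (w a ζ)) := fun a => by
    rw [LinearMap.sub_apply, LinearMap.sub_apply, _root_.sub_apply, map_sub, hc,
      ← mul_apply_eq_comp (w a) (w a), blk_idem hw]
  have h2 : cob (blk w β) x y ζ = ∑ a, w a (cob (β a) x y (w a ζ)) := by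
    rw [cob_blk hw hx hy, _root_.sum_apply]
    rfl
  rw [LinearMap.sub_apply, LinearMap.sub_apply, _root_.sub_apply, h2,
    sum_congr rfl fun a _ => h1 a, sum_sub_distrib, map_sub, _root_.sum_apply,
    map_sum]
  abel

end Pool.Agent.Kad.H3
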