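import Pool.Agent.Lib.MP_22c5db_an.H3.Basic

/-! Exhaustion by central projections. -/

open scoped InnerProductSpace ComplexConjugate
open Finset

noncomputable section

namespace Pool.Agent.Kad.H3

open Pool.Agent.Kad.H2

universe u

set_option linter.unusedSectionVars false

variable {H : Type u} [NormedAddCommGroup H] [InnerProductSpace ℂ H] [CompleteSpace H]
  {M : VonNeumannAlgebra H} {τ : Op H →ₗ[ℝ] ℝ} {φ : Bil H} {C : ℝ}
  {ι : Type} [Fintype ι] [DecidableEq ι] {e : ι → ι → Op H}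

theorem exh_sum_proj {I : Type*} (F : Finset I) {r : I → Op H}
    (hr : ∀ i ∈ F, IsStarProjection (r i)) (ho : ∀ i ∈ F, ∀ j ∈ F, i ≠ j → r i * r j = 0) :
    IsStarProjection (∑ i ∈ F, r i) := by
  refine ⟨?_, ?_⟩
  · rw [IsIdempotentElem, sum_mul_sum]
    refine sum_congr rfl fun i hi => ?_
    rw [sum_eq_single i (fun j hj hji => ho i hi j hj hji.symm) fun h => absurd hi h]
    exact (hr i hi).isIdempotentElem.eq
  · rw [IsSelfAdjoint, star_sum]
    exact sum_congr rfl fun j hj => (hr j hj).isSelfAdjoint.star_eq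

/-- finite approximation of an orthogonal family -/
theorem approx_fin {I : Type*} (S : Set I) (r : I → Op H) (hr : ∀ i ∈ S, IsStarProjection (r i))
    (ho : S.Pairwise fun i j => r i * r j = 0) {ζ : H}
    (hζ : ζ ∈ (Submodule.span ℂ {η : H | ∃ i ∈ S, r i η = η}).topologicalClosure) {ε : ℝ}
    (hε : 0 < ε) : ∃ F : Finset I, ↑F ⊆ S ∧ ∀ F' : Finset I, F ⊆ F' → ↑F' ⊆ S →
      ‖ζ - (∑ i ∈ F', r i) ζ‖ ≤ ε := by
  classical
  have hspan : ∀ ζ ∈ Submodule.span ℂ {η : H | ∃ i ∈ S, r i η = η}, ∃ F : Finset I,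
      ↑F ⊆ S ∧ ∀ G : Finset I, F ⊆ G → ↑G ⊆ S → (∑ i ∈ G, r i) ζ = ζ := by
    intro ζ hζ
    induction hζ using Submodule.span_induction with
    | mem ζ hζ =>
      obtain ⟨z, hz, e⟩ := hζ
      refine ⟨{z}, by simpa using hz, fun G hG hGS => ?_⟩
      rw [ContinuousLinearMap.sum_apply, sum_eq_single z (fun w hw hwz => ?_)
        (fun hn => absurd (hG (mem_singleton_self z)) hn), e]
      rw [← e, ← ContinuousLinearMap.mul_apply, ho (hGS hw) hz hwz]; rfl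
    | zero => exact ⟨∅, by simp, fun G _ _ => map_zero _⟩
    | add x y _ _ hx hy =>
      obtain ⟨F, hF, hF'⟩ := hx
      obtain ⟨G, hG, hG'⟩ := hy
      refine ⟨F ∪ G, by simp [hF, hG], fun K hK hKS => ?_⟩
      rw [map_add, hF' K (subset_union_left.trans hK) hKS, hG' K (subset_union_right.trans hK) hKS]
    | smul c x _ hx =>
      obtain ⟨F, hF, hF'⟩ := hx
      exact ⟨F, hF, fun K hK hKS => by rw [map_smul, hF' K hK hKS]⟩
  obtain ⟨ζ₀, h0, hd⟩ := Metric.mem_closure_iff.1 hζ ε hε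
  obtain ⟨F, hF, hF'⟩ := hspan ζ₀ h0
  refine ⟨F, hF, fun G hG hGS => ?_⟩
  have hp := exh_sum_proj G (fun i hi => hr i (hGS hi)) fun i hi j hj => ho (hGS hi) (hGS hj)
  have h1 := VN0.norm_proj_le hp.one_sub (ζ - ζ₀)
  rw [ContinuousLinearMap.sub_apply, ContinuousLinearMap.one_apply, map_sub, hF' G hG hGS,
    sub_sub_sub_cancel_right] at h1
  rw [dist_eq_norm] at hd
  exact h1.trans hd.le

theorem exhZ_rel (P : Op H → Prop) {z₀ : Op H} (hz₀ : Cen M z₀)
    (hP : ∀ z, Cen M z → z ≠ 0 → z₀ * z = z → ∃ w, Cen M w ∧ w ≠ 0 ∧ z * w = w ∧ P w)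
    (V : Finset H) {ε : ℝ} (hε : 0 < ε) :
    ∃ (A : Type) (_ : Fintype A) (w : A → Op H), Orth M w ∧ (∀ a, z₀ * w a = w a ∧ P (w a)) ∧
      ∀ ζ ∈ V, ‖z₀ ζ - (∑ a, w a) ζ‖ ≤ ε := by
  classical
  obtain ⟨S, hS⟩ := zorn_subset {S : Set (Op H) | (∀ z ∈ S, Cen M z ∧ z₀ * z = z ∧ P z) ∧
      S.Pairwise fun z w => z * w = 0} (by
    intro K hK hch
    refine ⟨⋃₀ K, ⟨fun z ⟨s, hs, hz⟩ => (hK hs).1 z hz, ?_⟩,
      fun s hs => Set.subset_sUnion_of_mem hs⟩
    exact (Set.pairwise_sUnion hch.directedOn).2 fun s hs => (hK hs).2)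
  obtain ⟨hS1, hS2⟩ := hS.prop
  obtain ⟨q, hq, hq1, -, hq3, -, hq5⟩ := exists_proj {ζ : H | ∃ z ∈ S, z ζ = ζ}
  have hcomm : ∀ t : Op H, (∀ z ∈ S, t * z = z * t) → (∀ z ∈ S, star t * z = z * star t) →
      t * q = q * t := by
    have k : ∀ t : Op H, (∀ z ∈ S, t * z = z * t) → ∀ ζ ∈ {ζ : H | ∃ z ∈ S, z ζ = ζ},
        q (t ζ) = t ζ := fun t ht ζ ⟨z, hz, e⟩ => hq1 _ ⟨z, hz, by
      rw [← ContinuousLinearMap.mul_apply, ← ht z hz, ContinuousLinearMap.mul_apply, e]⟩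
    exact fun t h1 h2 => hq5 t (k t h1) (k _ h2)
  have hqc : Cen M q := ⟨hq, mem_of_comm fun s hs => hcomm s
    (fun z hz => comm_of_mem (hS1 z hz).1.2.1 hs)
    fun z hz => comm_of_mem (hS1 z hz).1.2.1 (star_mem hs), fun x hx => (hcomm x
      (fun z hz => ((hS1 z hz).1.2.2 x hx).symm)
      fun z hz => ((hS1 z hz).1.2.2 _ (star_mem hx)).symm).symm⟩
  have hzz₀ : z₀ * z₀ = z₀ := hz₀.1.isIdempotentElem
  have hq1' : z₀ * (1 - q) = 0 := by
    by_contra hne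
    have hc := hz₀.mul hqc.one_sub
    have hle : z₀ * (z₀ * (1 - q)) = z₀ * (1 - q) := by rw [← mul_assoc, hzz₀]
    obtain ⟨z', k1, k2, k3, k4⟩ := hP _ hc hne hle
    have k5 : ∀ z ∈ S, z' * z = 0 := fun z hz => by
      have hzz : z * z = z := (hS1 z hz).1.1.isIdempotentElem
      have : q * z = z := ContinuousLinearMap.ext fun ζ =>
        hq1 (z ζ) ⟨z, hz, congrArg (fun x : Op H => x ζ) hzz⟩
      rw [← k3, ← k1.2.2 _ hc.2.1, mul_assoc, mul_assoc, sub_mul, one_mul, this, sub_self,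
        mul_zero, mul_zero]
    have k6 : z₀ * z' = z' := by rw [← k3, ← mul_assoc, hle]
    have hmem : z' ∈ S := hS.mem_of_prop_insert ⟨fun z hz => by
      rcases hz with rfl | hz
      exacts [⟨k1, k6, k4⟩, hS1 z hz], hS2.insert fun z hz _ =>
        ⟨k5 z hz, by rw [← k1.2.2 z (hS1 z hz).1.2.1, k5 z hz]⟩⟩
    exact k2 (by rw [← k5 z' hmem]; exact k1.1.isIdempotentElem.symm)
  have hqz : q * z₀ = z₀ := by
    rw [mul_sub, mul_one, sub_eq_zero] at hq1'
    rw [hqc.2.2 _ hz₀.2.1, ← hq1']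
  have hap : ∀ ζ : H, ∃ F : Finset (Op H), ↑F ⊆ S ∧ ∀ F' : Finset (Op H), F ⊆ F' → ↑F' ⊆ S →
      ‖z₀ ζ - (∑ i ∈ F', i) (z₀ ζ)‖ ≤ ε := fun ζ =>
    approx_fin S (fun z => z) (fun z hz => (hS1 z hz).1.1) hS2 (by
      have := hq3 (z₀ ζ)
      rwa [← ContinuousLinearMap.mul_apply, hqz] at this) hε
  choose F hF hF' using hap
  set G := V.biUnion F with hG
  have hGS : ↑G ⊆ S := fun z hz => by
    obtain ⟨j, -, hj⟩ := mem_biUnion.1 hz
    exact hF j hj
  have hmem : ∀ b, (G.equivFin.symm b : Op H) ∈ S := fun b => hGS (G.equivFin.symm b).2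
  refine ⟨Fin G.card, inferInstance, fun b => (G.equivFin.symm b : Op H),
    ⟨fun b => (hS1 _ (hmem b)).1, fun b b' hb => hS2 (hmem b) (hmem b') fun e =>
      hb (G.equivFin.symm.injective (Subtype.ext e))⟩, fun b => (hS1 _ (hmem b)).2,
    fun ζ hζ => ?_⟩
  rw [G.equivFin.symm.sum_comp fun z => (z : Op H), sum_coe_sort G fun z => z]
  have h1 := hF' ζ G (subset_biUnion_of_mem F hζ) hGS
  have h2 : (∑ i ∈ G, i) * z₀ = ∑ i ∈ G, i := by
    rw [sum_mul]
    exact sum_congr rfl fun i hi => by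
      rw [(hS1 i (hGS hi)).1.2.2 _ hz₀.2.1, (hS1 i (hGS hi)).2.1]
  rwa [← ContinuousLinearMap.mul_apply (∑ i ∈ G, i), h2] at h1

theorem exhZ (P : Op H → Prop)
    (hP : ∀ z, Cen M z → z ≠ 0 → ∃ w, Cen M w ∧ w ≠ 0 ∧ z * w = w ∧ P w)
    (V : Finset H) {ε : ℝ} (hε : 0 < ε) :
    ∃ (A : Type) (_ : Fintype A) (w : A → Op H), Orth M w ∧ (∀ a, P (w a)) ∧
      ∀ ζ ∈ V, ‖ζ - (∑ a, w a) ζ‖ ≤ ε := by
  obtain ⟨A, hA, w, h1, h2, h3⟩ := exhZ_rel P (Cen.one (R := M))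
    (fun z hz hz0 _ => hP z hz hz0) V hε
  exact ⟨A, hA, w, h1, fun a => (h2 a).2, h3⟩

theorem atoms (F : Finset (Op H)) (hF : ∀ z ∈ F, Cen M z) :
    ∃ (A : Type) (_ : Fintype A) (w : A → Op H), Orth M w ∧ ∑ a, w a = 1 ∧
      ∀ z ∈ F, ∀ a, z * w a = w a ∨ z * w a = 0 := by
  classical
  induction F using Finset.induction_on with
  | empty =>
    exact ⟨Unit, inferInstance, fun _ => 1, ⟨fun _ => Cen.one, fun a b h => absurd rfl h⟩,
      by simp, fun z hz => absurd hz (notMem_empty z)⟩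
  | insert y F _ ih =>
    obtain ⟨A, hA, w, h1, h2, h3⟩ := ih fun z hz => hF z (mem_insert_of_mem hz)
    have hy : Cen M y := hF y (mem_insert_self _ _)
    have hyy : y * y = y := hy.1.isIdempotentElem
    have hu : ∀ u, Cen M u → ∀ v, Cen M v → ∀ a b,
        u * w a * (v * w b) = u * v * (w a * w b) := fun u _ v hv a b => by
      rw [mul_assoc, ← mul_assoc (w a), ← hv.2.2 _ (h1.cen a).2.1, mul_assoc, ← mul_assoc]
    have e1 : y * (1 - y) = 0 := by rw [mul_sub, mul_one, hyy, sub_self]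
    have e2 : (1 - y) * y = 0 := by rw [sub_mul, one_mul, hyy, sub_self]
    refine ⟨A ⊕ A, inferInstance, Sum.elim (fun a => y * w a) fun a => (1 - y) * w a,
      ⟨?_, ?_⟩, ?_, ?_⟩
    · rintro (a | a)
      exacts [hy.mul (h1.cen a), hy.one_sub.mul (h1.cen a)]
    · rintro (a | a) (b | b) hab <;> simp only [Sum.elim_inl, Sum.elim_inr]
      · rw [hu _ hy _ hy, h1.orth a b fun h => hab (congrArg _ h), mul_zero]
      · rw [hu _ hy _ hy.one_sub, e1, zero_mul]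
      · rw [hu _ hy.one_sub _ hy, e2, zero_mul]
      · rw [hu _ hy.one_sub _ hy.one_sub, h1.orth a b fun h => hab (congrArg _ h), mul_zero]
    · rw [Fintype.sum_sum_type]
      simp only [Sum.elim_inl, Sum.elim_inr]
      rw [← mul_sum, ← mul_sum, h2, mul_one, mul_one, add_sub_cancel]
    · intro z hz
      rcases mem_insert.1 hz with rfl | hz
      · rintro (a | a) <;> simp only [Sum.elim_inl, Sum.elim_inr]
        · exact Or.inl (by rw [← mul_assoc, hyy])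
        · exact Or.inr (by rw [← mul_assoc, e1, zero_mul])
      · have hzc := hF z (mem_insert_of_mem hz)
        have k : ∀ u, Cen M u → ∀ a, z * (u * w a) = u * w a ∨ z * (u * w a) = 0 := by
          intro u hu a
          rw [← mul_assoc, hzc.2.2 _ hu.2.1, mul_assoc]
          rcases h3 z hz a with h | h
          · exact Or.inl (by rw [h])
          · exact Or.inr (by rw [h, mul_zero])
        rintro (a | a)
        exacts [k _ hy a, k _ hy.one_sub a]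

end Pool.Agent.Kad.H3
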