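import Pool.Agent.Lib.MP_22c5db_an.H3.AdL
import Pool.Agent.Lib.MP_22c5db_an.H3.Exh
import Pool.Agent.Lib.MP_22c5db_an.H3.Blk

/-! The column bound for finite continuous algebras. -/

open scoped InnerProductSpace ComplexConjugate
open Finset

noncomputable section

namespace Pool.Agent.Kad.H3

open Pool.Agent.Kad.H2

universe u

set_option linter.unusedSectionVars false

variable {H : Type u} [NormedAddCommGroup H] [InnerProductSpace ℂ H] [CompleteSpace H]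
  {M : VonNeumannAlgebra H} {τ : Op H →ₗ[ℝ] ℝ} {φ : Bil H} {C : ℝ}
  {ι : Type} [Fintype ι] [DecidableEq ι] {e : ι → ι → Op H}

/-- the local estimate on a central piece -/
def ColTwoP (M : VonNeumannAlgebra H) (φ : Bil H) (C : ℝ) (S : Finset (Op H)) (δ : ℝ)
    (w : Op H) : Prop :=
  ∃ β : Op H →ₗ[ℂ] Op H, Bd M β (3 * C) ∧ ZM M β ∧
    ∀ (κ : Type) [Fintype κ] (x : κ → Op H), (∀ l, x l ∈ M) → ∀ t : ℝ, 0 ≤ t → Cl x t →
      ∑ l, x l * star (x l) ∈ S → ∀ y ∈ M, ∀ ζ : H, ∑ l, ‖w ((φ - cob β) (x l) y ζ)‖ ^ 2 ≤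
        (C * (5 * t + 2 * √(t ^ 2 + δ)) * ‖y‖ * ‖ζ‖) ^ 2

theorem colTwo_piece (hU : Uns M) (hτ : Tr M τ) (h : CC M φ) (hb : Bd2 M φ C) (hC : 0 ≤ C)
    (hz : ZN M φ) (S : Finset (Op H)) {δ : ℝ} (hδ : 0 < δ) (z : Op H) (hc : Cen M z)
    (hz0 : z ≠ 0) : ∃ w, Cen M w ∧ w ≠ 0 ∧ z * w = w ∧ ColTwoP M φ C S δ w := by
  classical
  obtain ⟨w, hw, hw0, hzw, σ, hσ, ι, _, _, e, he, heM, hk, hX⟩ := adL hU hτ
    (X := fun j : Fin S.card => if ((S.equivFin.symm j : S) : Op H) ∈ M ∧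
      0 ≤ ((S.equivFin.symm j : S) : Op H) then ((S.equivFin.symm j : S) : Op H) else 0)
    (fun j => by split_ifs with hj; exacts [hj.1, zero_mem M])
    (fun j => by split_ifs with hj; exacts [hj.2, le_rfl]) hδ 1 hc hz0
  have : Nonempty ι := Fintype.card_pos_iff.1 hk
  have hzm : ZM M (bl φ e) := zm_bl hz h heM
  refine ⟨w, hw, hw0, hzw, bl φ e, bl_bd hb hC he heM, hzm,
    fun κ _ x hx t ht hcl hS y hy ζ => ?_⟩
  have e1 : ∀ l, w ((φ - cob (bl φ e)) (x l) y ζ) = (φ - cob (bl φ e)) (w * x l) y ζ := fun l => by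
    rw [(hz.sub_cob hzm).left (h.sub_cob _) hw (hx l) hy]
    rfl
  simp only [e1]
  have hcl' : Cl (fun l => w * x l) t := fun ξ => by
    refine le_trans (sum_le_sum fun l _ => ?_) (hcl ξ)
    refine pow_le_pow_left₀ (norm_nonneg _) ?_ 2
    exact (w.le_of_opNorm_le hw.1.norm_le (x l ξ)).trans (one_mul _).le
  refine bl_gt h hb hC he heM (x := fun l => w * x l) (fun l => mul_mem hw.2.1 (hx l)) ht
    (Real.sqrt_nonneg _) hcl' ?_ hy ζ
  have m1 : ∑ l, x l * star (x l) ∈ M :=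
    sum_mem fun l _ => mul_mem (hx l) (star_mem (hx l))
  have m2 : ∑ l, star (x l) * x l ∈ M :=
    sum_mem fun l _ => mul_mem (star_mem (hx l)) (hx l)
  have p1 : 0 ≤ ∑ l, x l * star (x l) := Finset.sum_nonneg fun l _ => mul_star_self_nonneg _
  have p2 : 0 ≤ ∑ l, star (x l) * x l := Finset.sum_nonneg fun l _ => star_mul_self_nonneg _
  have h2 := hX (S.equivFin ⟨_, hS⟩)
  simp only [Equiv.symm_apply_apply, m1, p1, and_self, if_true] at h2
  have h3 : σ (∑ l, x l * star (x l)) ≤ t ^ 2 := by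
    have : σ (∑ l, x l * star (x l)) = σ (∑ l, star (x l) * x l) := by
      rw [map_sum, map_sum]
      exact Finset.sum_congr rfl fun l _ => hσ.comm _ (hx l) _ (star_mem (hx l))
    rw [this]
    exact (hσ.le_norm m2 p2).trans (cl_iff.1 hcl)
  have h4 : ∑ l, w * x l * star (w * x l) = (∑ l, x l * star (x l)) * w := by
    rw [sum_mul]
    refine sum_congr rfl fun l _ => ?_
    rw [star_mul, hw.1.isSelfAdjoint.star_eq, hw.2.2 _ (hx l), mul_assoc (x l), mul_assoc (x l),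
      ← mul_assoc w, hw.2.2 _ (star_mem (hx l)), mul_assoc, hw.1.isIdempotentElem.eq]
  rw [h4, Real.sq_sqrt (by positivity)]
  exact h2.trans (mul_le_mul_of_nonneg_left (by linarith) (Nat.cast_nonneg _))

theorem colTwo_step (hU : Uns M) (hτ : Tr M τ) (h : CC M φ) (hb : Bd2 M φ C) (hC : 0 ≤ C)
    (hz : ZN M φ) (S : Finset (Op H)) (V : Finset H) {δ : ℝ} (hδ : 0 < δ) :
    ∃ β : Op H →ₗ[ℂ] Op H, Bd M β (3 * C) ∧ ZM M β ∧
      ∀ (κ : Type) [Fintype κ] (x : κ → Op H), (∀ l, x l ∈ M) → ∀ t : ℝ, 0 ≤ t → Cl x t →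
        ∑ l, x l * star (x l) ∈ S → ∀ y ∈ M, ∀ ζ ∈ V, ∑ l, ‖(φ - cob β) (x l) y ζ‖ ^ 2 ≤
          (C * (5 * t + 2 * √(t ^ 2 + δ)) * ‖y‖ * ‖ζ‖) ^ 2 +
            Fintype.card κ * (C * t * ‖y‖ * δ) ^ 2 := by
  obtain ⟨A, _, w, hw, hP, hV⟩ := exhZ (M := M) (ColTwoP M φ C S δ)
    (colTwo_piece hU hτ h hb hC hz S hδ) V hδ
  choose β hβ1 hβ2 hβ3 using hP
  refine ⟨blk w β, blk_bd hw (by positivity) hβ1, blk_zm hw hβ2,
    fun κ _ x hx t ht hcl hS y hy ζ hζ => ?_⟩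
  have e1 : ∀ l, ‖(φ - cob (blk w β)) (x l) y ζ‖ ^ 2 =
      ∑ a, ‖w a ((φ - cob (β a)) (x l) y (w a ζ))‖ ^ 2 +
        ‖φ (x l) y (ζ - (∑ a, w a) ζ)‖ ^ 2 := fun l => by
    obtain ⟨k1, k2⟩ := sub_cob_blk (β := β) hw h hz (hx l) hy ζ
    rw [k1]
    exact hw.pyth _ k2
  simp only [e1]
  rw [sum_add_distrib, sum_comm]
  refine add_le_add ?_ ?_
  · calc _ ≤ ∑ a, (C * (5 * t + 2 * √(t ^ 2 + δ)) * ‖y‖) ^ 2 * ‖w a ζ‖ ^ 2 :=
          sum_le_sum fun a _ => (hβ3 a κ x hx t ht hcl hS y hy (w a ζ)).trans (mul_pow _ _ 2).le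
      _ ≤ _ := by
          rw [← mul_sum, mul_pow _ ‖ζ‖]
          refine mul_le_mul_of_nonneg_left ?_ (sq_nonneg _)
          have := hw.split ζ
          nlinarith [sq_nonneg ‖ζ - (∑ a, w a) ζ‖]
  · rw [← card_univ, ← nsmul_eq_mul]
    refine sum_le_card_nsmul _ _ _ fun l _ => pow_le_pow_left₀ (norm_nonneg _) ?_ 2
    refine ((φ (x l) y).le_opNorm _).trans ?_
    refine mul_le_mul ((hb _ (hx l) y hy).trans ?_) (hV ζ hζ) (norm_nonneg _) (by positivity)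
    exact mul_le_mul_of_nonneg_right (mul_le_mul_of_nonneg_left (hcl.norm_le ht l) hC)
      (norm_nonneg _)

theorem col_two (hU : Uns M) (hτ : Tr M τ) (h : CC M φ) (hb : Bd2 M φ C) (hC : 0 ≤ C)
    (hz : ZN M φ) : ∃ β : Op H →ₗ[ℂ] Op H, Bd M β (3 * C) ∧ Col M (φ - cob β) (7 * C) ∧
      ZN M (φ - cob β) := by
  classical
  have h1 := fun i : Finset (Op H) × Finset H × ℕ =>
    colTwo_step hU hτ h hb hC hz i.1 i.2.1 (δ := 1 / ((i.2.2 : ℝ) + 1)) (by positivity)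
  choose β hβ1 hβ2 hβ3 using h1
  let 𝒰 : Ultrafilter (Finset (Op H) × Finset H × ℕ) := Ultrafilter.of Filter.atTop
  have hU' : (𝒰 : Filter (Finset (Op H) × Finset H × ℕ)) ≤ Filter.atTop := Ultrafilter.of_le _
  obtain ⟨β₀, k1, k2, k3⟩ := col_lim (M := M) (φ := φ) 𝒰 β (c := 3 * C) (D := 7 * C)
    (by positivity) hβ1 (fun κ _ x hx t ht hcl y hy ζ ε hε => by
      have t1 : Filter.Tendsto (fun i : Finset (Op H) × Finset H × ℕ => 1 / ((i.2.2 : ℝ) + 1))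
          Filter.atTop (nhds 0) := by
        refine tendsto_one_div_add_atTop_nhds_zero_nat.comp ?_
        rw [← Filter.prod_atTop_atTop_eq, ← Filter.prod_atTop_atTop_eq]
        exact Filter.tendsto_snd.comp Filter.tendsto_snd
      have t2 : Continuous fun s : ℝ => (C * (5 * t + 2 * √(t ^ 2 + s)) * ‖y‖ * ‖ζ‖) ^ 2 +
          Fintype.card κ * (C * t * ‖y‖ * s) ^ 2 := by
        fun_prop
      have t3 := (t2.tendsto 0).comp t1
      rw [add_zero, Real.sqrt_sq ht, mul_zero, zero_pow two_ne_zero, mul_zero, add_zero,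
        show C * (5 * t + 2 * t) * ‖y‖ * ‖ζ‖ = 7 * C * t * ‖y‖ * ‖ζ‖ by ring] at t3
      apply hU'
      filter_upwards [Filter.eventually_ge_atTop
        (({∑ l, x l * star (x l)}, {ζ}, 0) : Finset (Op H) × Finset H × ℕ),
        t3.eventually (eventually_le_nhds (lt_add_of_pos_right _ hε))] with i hi hi'
      exact (hβ3 i κ x hx t ht hcl (hi.1 (Finset.mem_singleton_self _)) y hy ζ
        (hi.2.1 (Finset.mem_singleton_self _))).trans hi')
  exact ⟨β₀, k1, k2, hz.sub_cob (k3 hβ2)⟩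

end Pool.Agent.Kad.H3
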