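import Pool.Agent.Lib.MP_22c5db_an.H3.Basic

/-! Restriction to a central piece. -/

open scoped InnerProductSpace ComplexConjugate
open Finset

noncomputable section

namespace Pool.Agent.Kad.H3

open Pool.Agent.Kad.H2

universe u

set_option linter.unusedSectionVars false

variable {H : Type u} [NormedAddCommGroup H] [InnerProductSpace ℂ H] [CompleteSpace H]
  {M : VonNeumannAlgebra H} {τ : Op H →ₗ[ℝ] ℝ} {φ : Bil H} {C : ℝ}
  {ι : Type} [Fintype ι] [DecidableEq ι] {e : ι → ι → Op H}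

variable {K : Type u} [NormedAddCommGroup K] [InnerProductSpace ℂ K] [CompleteSpace K]
  {J : Unit → H →L[ℂ] K} {N : VonNeumannAlgebra K} {w : Op H}

/-- the restricted cocycle -/
def cor (J : Unit → H →L[ℂ] K) (φ : Bil H) : Bil K :=
  LinearMap.mk₂ ℂ (fun X Y => CaseC.el J () () (φ (ent J X () ()) (ent J Y () ())))
    (fun X X' Y => by
      simp only [ent, ContinuousLinearMap.add_comp, ContinuousLinearMap.comp_add, map_add,
        LinearMap.add_apply])
    (fun c X Y => by
      simp only [ent, ContinuousLinearMap.smul_comp, ContinuousLinearMap.comp_smul, map_smul,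
        LinearMap.smul_apply])
    (fun X Y Y' => by
      simp only [ent, ContinuousLinearMap.add_comp, ContinuousLinearMap.comp_add, map_add])
    (fun c X Y => by
      simp only [ent, ContinuousLinearMap.smul_comp, ContinuousLinearMap.comp_smul, map_smul])

theorem cor_apply (J : Unit → H →L[ℂ] K) (φ : Bil H) (X Y : Op K) :
    cor J φ X Y = CaseC.el J () () (φ (ent J X () ()) (ent J Y () ())) := rfl

/-- the entry as a linear map -/
def corE (J : Unit → H →L[ℂ] K) : Op K →ₗ[ℂ] Op H where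
  toFun X := ent J X () ()
  map_add' X Y := by
    simp only [ent, ContinuousLinearMap.add_comp, ContinuousLinearMap.comp_add]
  map_smul' c X := by
    simp only [ent, ContinuousLinearMap.smul_comp, ContinuousLinearMap.comp_smul, RingHom.id_apply]

theorem corE_apply (J : Unit → H →L[ℂ] K) (X : Op K) : corE J X = ent J X () () := rfl

theorem corA_mul (hJ : Frame M w J N) (X Y : Op K) :
    ent J (X * Y) () () = ent J X () () * ent J Y () () :=
  (hJ.ent_mul X Y () ()).trans (Fintype.sum_unique _)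

theorem corA_LE (hJ : Frame M w J N) (X : Op K) : CaseC.el J () () (ent J X () ()) = X := by
  have h := hJ.mat_ent X
  rw [CaseC.mat_eq, Fintype.sum_unique, Fintype.sum_unique] at h
  exact h

theorem corA_EL (hJ : Frame M w J N) (x : Op H) :
    ent J (CaseC.el J () () x) () () = w * x * w := by
  rw [CaseC.ent_el hJ, if_pos ⟨rfl, rfl⟩]

theorem corA_Lmul (hJ : Frame M w J N) (x y : Op H) :
    CaseC.el J () () x * CaseC.el J () () y = CaseC.el J () () (x * w * y) := by
  rw [CaseC.el_mul hJ, if_pos rfl]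

theorem corA_mulL (hJ : Frame M w J N) (X : Op K) (a : Op H) :
    X * CaseC.el J () () a = CaseC.el J () () (ent J X () () * a) := by
  conv_lhs => rw [← corA_LE hJ X]
  rw [corA_Lmul hJ, (hJ.z_ent X () ()).2]

theorem corA_Lmul' (hJ : Frame M w J N) (X : Op K) (a : Op H) :
    CaseC.el J () () a * X = CaseC.el J () () (a * ent J X () ()) := by
  conv_lhs => rw [← corA_LE hJ X]
  rw [corA_Lmul hJ, mul_assoc, (hJ.z_ent X () ()).1]

theorem corA_mem (hJ : Frame M w J N) {X : Op K} (hX : X ∈ N) : ent J X () () ∈ M :=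
  (hJ.mem_iff X).1 hX () ()

theorem corA_normJ (hJ : Frame M w J N) : ‖J ()‖ ≤ 1 := by
  have h1 := ContinuousLinearMap.norm_adjoint_comp_self (J ())
  rw [hJ.adj, if_pos rfl] at h1
  have h2 := hJ.proj.norm_le
  nlinarith [norm_nonneg (J ())]

theorem corA_normA (hJ : Frame M w J N) : ‖ContinuousLinearMap.adjoint (J ())‖ ≤ 1 := by
  rw [LinearIsometryEquiv.norm_map]
  exact corA_normJ hJ

theorem corA_normE (hJ : Frame M w J N) (X : Op K) : ‖ent J X () ()‖ ≤ ‖X‖ := by
  refine (ContinuousLinearMap.opNorm_comp_le _ _).trans ?_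
  refine (mul_le_of_le_one_left (norm_nonneg _) (corA_normA hJ)).trans ?_
  exact (ContinuousLinearMap.opNorm_comp_le _ _).trans
    (mul_le_of_le_one_right (norm_nonneg _) (corA_normJ hJ))

theorem corA_normL (hJ : Frame M w J N) (x : Op H) : ‖CaseC.el J () () x‖ ≤ ‖x‖ := by
  refine (ContinuousLinearMap.opNorm_comp_le _ _).trans ?_
  refine (mul_le_of_le_one_left (norm_nonneg _) (corA_normJ hJ)).trans ?_
  exact (ContinuousLinearMap.opNorm_comp_le _ _).trans
    (mul_le_of_le_one_right (norm_nonneg _) (corA_normA hJ))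

theorem corA_wl (hw : Cen M w) {x : Op H} (hx : x ∈ M) : w * x * w = w * x := by
  rw [mul_assoc, ← hw.2.2 x hx, ← mul_assoc, hw.1.isIdempotentElem.eq]

theorem corA_wr (hw : Cen M w) {x : Op H} (hx : x ∈ M) : w * x * w = x * w := by
  rw [corA_wl hw hx, hw.2.2 x hx]

theorem cor_cen (hw : Cen M w) (hJ : Frame M w J N) {Z : Op K} (hZ : Cen N Z) :
    Cen M (ent J Z () ()) ∧ w * ent J Z () () = ent J Z () () ∧ (ent J Z () () = 0 → Z = 0) := by
  refine ⟨⟨⟨?_, ?_⟩, corA_mem hJ hZ.2.1, fun x hx => ?_⟩, (hJ.z_ent Z () ()).1, fun h0 => ?_⟩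
  · rw [IsIdempotentElem, ← corA_mul hJ, hZ.1.isIdempotentElem.eq]
  · rw [IsSelfAdjoint, ← ent_star, hZ.1.isSelfAdjoint.star_eq]
  · have h1 := congrArg (fun X => ent J X () ()) (hZ.2.2 _ (CaseC.el_mem hJ () () hx))
    simp only [corA_mul hJ, corA_EL hJ] at h1
    conv_lhs at h1 => rw [corA_wl hw hx, ← mul_assoc, (hJ.z_ent Z () ()).2]
    conv_rhs at h1 => rw [corA_wr hw hx, mul_assoc, (hJ.z_ent Z () ()).1]
    exact h1
  · rw [← corA_LE hJ Z, h0, map_zero]

theorem cor_cc (hw : Cen M w) (hJ : Frame M w J N) (h : CC M φ) (hz : ZN M φ) :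
    CC N (cor J φ) ∧ ZN N (cor J φ) := by
  refine ⟨fun X hX Y hY Z hZ => ?_, fun Z hZ X hX => ?_⟩
  · simp only [cor_apply]
    rw [corA_mulL hJ, corA_Lmul' hJ, corA_mul hJ, corA_mul hJ,
      h _ (corA_mem hJ hX) _ (corA_mem hJ hY) _ (corA_mem hJ hZ), map_sub, map_add]
  · have h1 := hz _ (cor_cen hw hJ hZ).1 _ (corA_mem hJ hX)
    simp only [cor_apply, h1.1, h1.2, map_zero, and_self]

theorem cor_bd (hJ : Frame M w J N) (hb : Bd2 M φ C) (hC : 0 ≤ C) : Bd2 N (cor J φ) C := by
  intro X hX Y hY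
  rw [cor_apply]
  refine (corA_normL hJ _).trans ((hb _ (corA_mem hJ hX) _ (corA_mem hJ hY)).trans ?_)
  exact mul_le_mul (mul_le_mul_of_nonneg_left (corA_normE hJ X) hC) (corA_normE hJ Y)
    (norm_nonneg _) (mul_nonneg hC (norm_nonneg _))

theorem cor_loc (hw : Cen M w) (hJ : Frame M w J N) (h : CC M φ) (hz : ZN M φ) {c : ℝ}
    (hc : 0 ≤ c) (hl : Loc N (cor J φ) c) : LocW M φ w c := by
  intro ξ
  obtain ⟨ψ, hψ, h1⟩ := hl (J () ξ)
  refine ⟨(corE J).comp (ψ.comp (CaseC.el J () ())), fun a ha => ?_, fun x hx y hy b hb => ?_⟩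
  · exact (corA_normE hJ _).trans ((hψ _ (CaseC.el_mem hJ () () ha)).trans
      (mul_le_mul_of_nonneg_left (corA_normL hJ a) hc))
  · have hww := hw.1.isIdempotentElem.eq
    have e1 : ent J (cor J φ (CaseC.el J () () x) (CaseC.el J () () y)) () () = w * φ x y := by
      rw [cor_apply, corA_EL hJ, corA_EL hJ, corA_EL hJ, corA_wl hw hx, corA_wr hw hy,
        hz.left h hw hx (mul_mem hy hw.2.1), hz.right h hw hx hy, ← hz.comm h hw hx hy,
        ← mul_assoc, ← mul_assoc, hww, hww, mul_assoc, ← hz.comm h hw hx hy, ← mul_assoc, hww]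
    have e2 : ent J (cob ψ (CaseC.el J () () x) (CaseC.el J () () y)) () () =
        cob ((corE J).comp (ψ.comp (CaseC.el J () ()))) x y := by
      rw [cob_apply, cob_apply, ← corE_apply, map_add, map_sub, corA_Lmul hJ, ← hw.2.2 x hx,
        mul_assoc, CaseC.el_zl hJ]
      simp only [corE_apply, LinearMap.comp_apply, corA_mul hJ, corA_EL hJ]
      rw [corA_wr hw hx, corA_wl hw hy, mul_assoc, (hJ.z_ent _ () ()).1, ← mul_assoc,
        (hJ.z_ent _ () ()).2]
    have e3 : CaseC.el J () () b (J () ξ) = J () (b ξ) := by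
      have h2 := (FrameAux.pre hJ).adj () () ξ
      rw [if_pos rfl] at h2
      change J () (b (ContinuousLinearMap.adjoint (J ()) (J () ξ))) = _
      rw [h2, ← (FrameAux.pre hJ).Jz () (b ξ)]
      exact congrArg (J ()) (congrArg (fun T : Op H => T ξ) (hw.2.2 b hb)).symm
    have h3 := h1 _ (CaseC.el_mem hJ () () hx) _ (CaseC.el_mem hJ () () hy) _
      (CaseC.el_mem hJ () () hb)
    rw [e3] at h3
    rw [← e2, FrameAux.ent_apply, ← h3, ← FrameAux.ent_apply, e1]
    rfl

theorem corB_mat (J : Unit → H →L[ℂ] K) (m : Unit → Unit → Op H) :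
    mat J m = CaseC.el J () () (m () ()) := by
  rw [mat, Fintype.sum_unique, Fintype.sum_unique]
  rfl

theorem corB_le (hJ : Frame M w J N) (X : Op K) : CaseC.el J () () (ent J X () ()) = X :=
  (corB_mat J (ent J X)).symm.trans (hJ.mat_ent X)

theorem corB_emul (hJ : Frame M w J N) (X Y : Op K) :
    ent J (X * Y) () () = ent J X () () * ent J Y () () := by
  rw [hJ.ent_mul, Fintype.sum_unique]

theorem corB_one (hJ : Frame M w J N) : ent J (1 : Op K) () () = w :=
  (hJ.adj () ()).trans (if_pos rfl)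

theorem corB_lw (hJ : Frame M w J N) : CaseC.el J () () w = 1 := by
  rw [← corB_one hJ, corB_le hJ]

theorem corB_lz (hJ : Frame M w J N) (x : Op H) :
    CaseC.el J () () (w * x) = CaseC.el J () () x := by
  change (J ()).comp ((w.comp x).comp _) = (J ()).comp (x.comp _)
  rw [ContinuousLinearMap.comp_assoc w, ← ContinuousLinearMap.comp_assoc (J ()), hJ.comp_z]

theorem corB_lmul (hw : Cen M w) (hJ : Frame M w J N) {x : Op H} (hx : x ∈ M) (y : Op H) :
    CaseC.el J () () x * CaseC.el J () () y = CaseC.el J () () (x * y) := by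
  have h := hJ.mat_mul (fun _ _ => x) fun _ _ => y
  rw [corB_mat, corB_mat, corB_mat, Fintype.sum_unique, ← hw.2.2 x hx, mul_assoc, corB_lz hJ] at h
  exact h

theorem corB_lstar (J : Unit → H →L[ℂ] K) (x : Op H) :
    star (CaseC.el J () () x) = CaseC.el J () () (star x) := by
  have h := mat_star J fun _ _ => x
  rw [corB_mat, corB_mat] at h
  exact h

theorem corB_lmem (hJ : Frame M w J N) {x : Op H} (hx : x ∈ M) : CaseC.el J () () x ∈ N := by
  have h := hJ.mat_mem (m := fun _ _ => x) fun _ _ => hx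
  rw [corB_mat] at h
  exact h

theorem cor_one (hJ : Frame M w J N) (hw0 : w ≠ 0) : (1 : Op K) ≠ 0 := by
  intro h
  apply hw0
  rw [← corB_one hJ, h, ent, ContinuousLinearMap.zero_comp, ContinuousLinearMap.comp_zero]

theorem cor_sep (hw : Cen M w) (hJ : Frame M w J N) (hS : Sep M) : Sep N := by
  classical
  obtain ⟨S, hS⟩ := hS
  refine ⟨S.image (J ()), fun Z hZ h0 => ?_⟩
  obtain ⟨h1, -, h2⟩ := cor_cen hw hJ hZ
  refine h2 (hS _ h1 fun ξ hξ => ?_)
  change ContinuousLinearMap.adjoint (J ()) (Z (J () ξ)) = 0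
  rw [h0 _ (mem_image_of_mem _ hξ), map_zero]

theorem cor_pi (hw : Cen M w) (hJ : Frame M w J N) (h : PI M w) : PI N 1 := by
  obtain ⟨s, hs, t, ht, h1, h2, h3⟩ := h
  refine ⟨_, corB_lmem hJ hs, _, corB_lmem hJ ht, ?_, ?_, ?_⟩
  · rw [corB_lstar, corB_lmul hw hJ (star_mem hs), h1, corB_lw hJ]
  · rw [corB_lstar, corB_lmul hw hJ (star_mem ht), h2, corB_lw hJ]
  · rw [corB_lstar, corB_lmul hw hJ (star_mem hs), h3, map_zero]

theorem cor_noPI (hw : Cen M w) (hJ : Frame M w J N)
    (h : ∀ c, Cen M c → c ≠ 0 → w * c = c → ¬ PI M c) : NoPI N := by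
  rintro c hc hc0 ⟨s, hs, t, ht, h1, h2, h3⟩
  obtain ⟨h4, h5, h6⟩ := cor_cen hw hJ hc
  refine h _ h4 (fun h7 => hc0 (h6 h7)) h5
    ⟨_, (hJ.mem_iff s).1 hs () (), _, (hJ.mem_iff t).1 ht () (), ?_, ?_, ?_⟩
  · rw [← ent_star, ← corB_emul hJ, h1]
  · rw [← ent_star, ← corB_emul hJ, h2]
  · rw [← ent_star, ← corB_emul hJ, h3, ent, ContinuousLinearMap.zero_comp,
      ContinuousLinearMap.comp_zero]

theorem cor_mu (hw : Cen M w) (hJ : Frame M w J N) (he : MU e w) (heM : ∀ i j, e i j ∈ M) :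
    MU (fun i j => CaseC.el J () () (e i j)) 1 ∧ (∀ i j, CaseC.el J () () (e i j) ∈ N) ∧
      ∀ i, Ab M (e i i) → Ab N (CaseC.el J () () (e i i)) := by
  refine ⟨⟨fun i j k l => ?_, fun i j => ?_, ?_⟩, fun i j => corB_lmem hJ (heM i j),
    fun i hi X hX Y hY => ?_⟩
  · rw [corB_lmul hw hJ (heM i j), he.mul]
    split_ifs
    · rfl
    · exact map_zero _
  · rw [corB_lstar, he.adj]
  · rw [← map_sum, he.sum, corB_lw hJ]
  · have hx := (hJ.mem_iff X).1 hX () ()
    have hy := (hJ.mem_iff Y).1 hY () ()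
    have hp := heM i i
    have key : ∀ x ∈ M, ∀ y ∈ M, CaseC.el J () () (e i i) * CaseC.el J () () x *
        CaseC.el J () () (e i i) * CaseC.el J () () y * CaseC.el J () () (e i i) =
        CaseC.el J () () (e i i * x * e i i * y * e i i) := by
      intro x hx y hy
      rw [corB_lmul hw hJ hp, corB_lmul hw hJ (mul_mem hp hx),
        corB_lmul hw hJ (mul_mem (mul_mem hp hx) hp),
        corB_lmul hw hJ (mul_mem (mul_mem (mul_mem hp hx) hp) hy)]
    have h1 := key _ hx _ hy
    have h2 := key _ hy _ hx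
    rw [corB_le hJ, corB_le hJ] at h1 h2
    rw [h1, h2, hi _ hx _ hy]

end Pool.Agent.Kad.H3
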