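import Pool.Agent.Lib.MP_22c5db_an.H3.Basic

/-! Finite algebras: covering and cancellation. -/

open scoped InnerProductSpace ComplexConjugate
open Finset

noncomputable section

namespace Pool.Agent.Kad.H3

open Pool.Agent.Kad.H2

universe u

set_option linter.unusedSectionVars false

variable {H : Type u} [NormedAddCommGroup H] [InnerProductSpace ℂ H] [CompleteSpace H]
  {M : VonNeumannAlgebra H} {τ : Op H →ₗ[ℝ] ℝ} {φ : Bil H} {C : ℝ}
  {ι : Type} [Fintype ι] [DecidableEq ι] {e : ι → ι → Op H}

open VN2 in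
theorem cover_or {z p : Op H} (hz : Cen M z) (hp : IsStarProjection p) (hpR : p ∈ M) (hp0 : p ≠ 0)
    (hzp : z * p = p) : (∃ c, Cen M c ∧ c ≠ 0 ∧ z * c = c ∧ PI M c) ∨
    ∃ c, Cen M c ∧ z * c = c ∧ c * p ≠ 0 ∧ ∃ (n : ℕ) (a : Fin n → Op H),
      (∀ i, a i ∈ M ∧ a i * p = a i ∧ ‖a i‖ ≤ 1) ∧ ∑ i, a i * star (a i) = c := by
  classical
  obtain ⟨S, c, E, w, hpS, hS, hc, hcp0, hzc, hEv, hE0, hE, hwR, hww, hcE, hpw, hcw⟩ :=
    exists_data hz hp hpR hp0 hzp
  have hcc := hc.1.isIdempotentElem.eq
  have hcs := hc.1.isSelfAdjoint.star_eq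
  have hwpi : w * star w * w = w := piso_of_proj (hww ▸ hcE)
  have hw'p : IsStarProjection (w * star w) := (piso_proj hwpi).2
  have hwsR : star w ∈ M := star_mem hwR
  have hcws : c * star w = star w := star_left hc.1 (by rw [← hc.2.2 w hwR, hcw])
  have hwE : w * (1 - E) = w := by
    rw [← piso_right hcE hww, mul_assoc, mul_assoc, hE.one_sub.isIdempotentElem.eq]
  have hwv : ∀ v ∈ S, w * v = 0 := fun v hv => by
    rw [← hwE, mul_assoc, sub_mul, one_mul, hEv v hv, sub_self, mul_zero]
  have hvw : ∀ v ∈ S, star v * star w = 0 := fun v hv => by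
    rw [← star_mul, hwv v hv, star_zero]
  have hvp : ∀ v ∈ S, v * p = v := fun v hv => piso_right hp (hS.1 v hv).2
  have hcp : IsStarProjection (c * p) := hc.1.mul hp (hc.2.2 p hpR)
  have hcv : ∀ v v' : S, star (c * v.1) * (c * v'.1) = c * (star v.1 * v'.1) := by
    intro v v'
    rw [star_mul, hcs, mul_assoc, ← mul_assoc c c, hcc, ← mul_assoc,
      ← hc.2.2 _ (star_mem (hS.1 v.1 v.2).1), mul_assoc]
  rcases S.finite_or_infinite with hfin | hinf
  · right
    have : Fintype S := hfin.fintype
    have hEsum : E = ∑ v : S, v.1 * star v.1 := by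
      refine ext_set {η : H | ∃ v ∈ S, ∃ ζ, η = v ζ} ?_ fun η hη => ?_
      · rintro _ ⟨v, hv, ζ, rfl⟩
        rw [← mulA, hEv v hv, ← mulA, sum_mul, sum_eq_single (⟨v, hv⟩ : S)]
        · rw [mul_assoc, (hS.1 v hv).2, hvp v hv]
        · intro u _ hu
          rw [mul_assoc, hS.2 u.1 u.2 v hv fun h => hu (Subtype.ext h), mul_zero]
        · intro h
          exact absurd (mem_univ _) h
      · have h1 : ∀ v ∈ S, star v η = 0 := fun v hv =>
          star_apply_eq_zero fun ζ => hη _ ⟨v, hv, ζ, rfl⟩
        rw [hE0 η h1, sumA]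
        exact (sum_eq_zero fun v _ => by rw [mulA, h1 v.1 v.2, map_zero]).symm
    let b : Option S → Op H := fun i => i.elim (star w) fun v => c * v.1
    have hb : ∀ i, b i ∈ M ∧ b i * p = b i ∧ ‖b i‖ ≤ 1 := by
      rintro (_ | v)
      · exact ⟨hwsR, VN1.star_mul_eq hp.isSelfAdjoint hpw, by
          show ‖star w‖ ≤ 1
          rw [norm_star]
          exact piso_norm hwpi⟩
      · refine ⟨mul_mem hc.2.1 (hS.1 v.1 v.2).1, ?_, piso_norm (piso_of_proj ?_)⟩
        · show c * v.1 * p = c * v.1
          rw [mul_assoc, hvp v.1 v.2]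
        · show IsStarProjection (star (c * v.1) * (c * v.1))
          rwa [hcv, (hS.1 v.1 v.2).2]
    have hsum : ∑ i, b i * star (b i) = c := by
      have h1 : ∀ v : S, c * v.1 * star (c * v.1) = c * (v.1 * star v.1) := fun v => by
        rw [star_mul, hcs, mul_assoc, ← mul_assoc v.1,
          ← hc.2.2 _ (mul_mem (hS.1 v.1 v.2).1 (star_mem (hS.1 v.1 v.2).1)), ← mul_assoc, hcc]
      rw [Fintype.sum_option]
      show star w * star (star w) + ∑ v : S, c * v.1 * star (c * v.1) = c
      rw [star_star, hww, sum_congr rfl fun v _ => h1 v, ← mul_sum, ← hEsum, ← mul_add,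
        sub_add_cancel, mul_one]
    refine ⟨c, hc, hzc, hcp0, _, fun i => b ((Fintype.equivFin (Option S)).symm i),
      fun i => hb _, ?_⟩
    rw [← hsum]
    exact Equiv.sum_comp (Fintype.equivFin (Option S)).symm fun i => b i * star (b i)
  · left
    have : Infinite S := hinf.to_subtype
    obtain ⟨φ⟩ := exists_inj S
    have main : ∀ ψ : Option S → S, Function.Injective ψ → ∃ s ∈ M, star s * s = c ∧
        (∀ η, (∀ i, star (ψ i).1 η = 0) → star s η = 0) ∧
        ∀ y : Op H, (∀ i, y * (ψ i).1 = 0) → y * s = 0 := by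
      intro ψ hψ
      refine exists_isom (p := p) (W := fun i : Option S => i.elim (star w) fun v => c * v.1)
        ?_ ?_ ?_ ?_ (fun i => hS.1 _ (ψ i).2)
        (fun i j hij => hS.2 _ (ψ i).2 _ (ψ j).2 fun h => hij (hψ (Subtype.ext h)))
        fun η hη => ?_
      · rintro (_ | v)
        · exact ⟨hwsR, hcws⟩
        · exact ⟨mul_mem hc.2.1 (hS.1 v.1 v.2).1, by
            show c * (c * v.1) = c * v.1
            rw [← mul_assoc, hcc]⟩
      · rintro (_ | v)
        · show IsStarProjection (star (star w) * star w)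
          rwa [star_star]
        · show IsStarProjection (star (c * v.1) * (c * v.1))
          rwa [hcv, (hS.1 v.1 v.2).2]
      · rintro (_ | v)
        · show p * star (star w) = star (star w)
          rw [star_star, hpw]
        · show p * star (c * v.1) = star (c * v.1)
          exact star_left hp (by rw [mul_assoc, hvp v.1 v.2])
      · rintro (_ | v) (_ | v') hne
        · exact absurd rfl hne
        · show star (star w) * (c * v'.1) = 0
          rw [star_star, ← mul_assoc, ← hc.2.2 w hwR, hcw, hwv v'.1 v'.2]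
        · show star (c * v.1) * star w = 0
          rw [star_mul, hcs, mul_assoc, hcws, hvw v.1 v.2]
        · show star (c * v.1) * (c * v'.1) = 0
          rw [hcv, hS.2 v.1 v.2 v'.1 v'.2 fun h => hne (congrArg some (Subtype.ext h)), mul_zero]
      · have h1 : E (c η) = 0 := hE0 _ fun v hv => by
          have h2 : star (c * v) η = 0 := hη (some ⟨v, hv⟩)
          rwa [star_mul, hcs, mulA] at h2
        have h2 : star (star w) η = 0 := hη none
        rw [star_star] at h2
        have h3 : (star w * w) (c η) = 0 := by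
          rw [mulA, ← mulA w c, ← hc.2.2 w hwR, hcw, h2, map_zero]
        rwa [hww, mulA, subA, oneA, h1, sub_zero, ← mulA, hcc] at h3
    obtain ⟨s₁, hs₁R, h11, h12, -⟩ := main (fun i => φ (Sum.inl i))
      (φ.injective.comp Sum.inl_injective)
    obtain ⟨s₂, hs₂R, h21, -, h23⟩ := main (fun i => φ (Sum.inr i))
      (φ.injective.comp Sum.inr_injective)
    refine ⟨c, hc, fun h0 => hcp0 (by rw [h0, zero_mul]), hzc, s₁, hs₁R, s₂, hs₂R, h11, h21,
      h23 _ fun j => ?_⟩
    ext ζ
    refine h12 _ fun i => ?_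
    show (star (φ (Sum.inl i)).1 * (φ (Sum.inr j)).1) ζ = 0
    rw [hS.2 _ (φ _).2 _ (φ _).2 fun h => Sum.inl_ne_inr (φ.injective (Subtype.ext h)), zeroA]

/-- covering by finitely many copies -/
theorem cover_fin (h : NoPI M) {z p : Op H} (hz : Cen M z) (hp : IsStarProjection p) (hpR : p ∈ M)
    (hp0 : p ≠ 0) (hzp : z * p = p) :
    ∃ c, Cen M c ∧ z * c = c ∧ c * p ≠ 0 ∧ ∃ (n : ℕ) (a : Fin n → Op H),
      (∀ i, a i ∈ M ∧ a i * p = a i ∧ ‖a i‖ ≤ 1) ∧ ∑ i, a i * star (a i) = c :=
  (cover_or hz hp hpR hp0 hzp).resolve_left fun ⟨c, hc, h0, _, hpi⟩ => h c hc h0 hpi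

theorem cover_sum {κ : Type} [Fintype κ] {a : κ → Op H} {c : Op H} (hc : IsStarProjection c)
    (h : ∑ i, a i * star (a i) = c) (ζ : H) : ∑ i, ‖star (a i) ζ‖ ^ 2 = ‖c ζ‖ ^ 2 := by
  rw [← VN0.re_inner_star_mul c, hc.isSelfAdjoint.star_eq, hc.isIdempotentElem.eq, ← h,
    _root_.sum_apply, inner_sum, Complex.re_sum]
  exact sum_congr rfl fun i _ => by rw [← VN0.re_inner_star_mul, star_star]

theorem cover_mul {κ : Type} [Fintype κ] {a : κ → Op H} {c : Op H} (hc : IsStarProjection c)
    (h : ∑ i, a i * star (a i) = c) (i : κ) : c * a i = a i := by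
  refine VN1.mul_eq_of_star hc.isSelfAdjoint (ContinuousLinearMap.ext fun ζ => ?_)
  have h1 := cover_sum hc h (ζ - c ζ)
  rw [map_sub c, VN0.proj_proj hc, sub_self, norm_zero, zero_pow two_ne_zero,
    sum_eq_zero_iff_of_nonneg fun i _ => sq_nonneg _] at h1
  have h2 := h1 i (mem_univ i)
  rw [pow_eq_zero_iff two_ne_zero, norm_eq_zero, map_sub, sub_eq_zero] at h2
  exact h2.symm

/-- the shifted copies of a wandering projection -/
def coverU (v r : Op H) : ℕ → Op H
  | 0 => r
  | n + 1 => v * coverU v r n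

theorem coverU_orth {v r p : Op H} (hr : IsStarProjection r) (h1 : star v * v = p) (h2 : p * v = v)
    (h3 : p * r = r) (h4 : r * v = 0) :
    ∀ i j, star (coverU v r i) * coverU v r j = if i = j then r else 0 := by
  have hp : ∀ n, p * coverU v r n = coverU v r n := by
    rintro (_ | n)
    · exact h3
    · rw [coverU, ← mul_assoc, h2]
  have rs := hr.isSelfAdjoint.star_eq
  have h5 : star v * r = 0 := by
    have := congrArg star h4
    rwa [star_mul, rs, star_zero] at this
  intro i
  induction i with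
  | zero =>
    rintro (_ | j)
    · rw [coverU, rs, hr.isIdempotentElem.eq, if_pos rfl]
    · rw [coverU, coverU, rs, ← mul_assoc, h4, zero_mul, if_neg (by omega)]
  | succ i ih =>
    rintro (_ | j)
    · rw [coverU, coverU, star_mul, mul_assoc, h5, mul_zero, if_neg (by omega)]
    · rw [coverU, coverU, star_mul, mul_assoc, ← mul_assoc (star v), h1, hp, ih]
      simp only [add_left_inj]

/-- every projection is finite -/
theorem cover_finite (h : NoPI M) {v p : Op H} (hp : IsStarProjection p) (hv : v ∈ M)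
    (h1 : star v * v = p) (h2 : p * v = v) : v * star v = p := by
  have v1 : v * star v * v = v := piso_of_proj (h1 ▸ hp)
  have hpM : p ∈ M := h1 ▸ mul_mem (star_mem hv) hv
  have hr : IsStarProjection (p - v * star v) :=
    (piso_proj v1).2.sub_of_mul_eq_left hp
      (by rw [mul_assoc, VN1.star_mul_eq hp.isSelfAdjoint h2])
  have hrM : p - v * star v ∈ M := sub_mem hpM (mul_mem hv (star_mem hv))
  by_contra hne
  have r0 : p - v * star v ≠ 0 := fun h0 => hne (sub_eq_zero.1 h0).symm
  have h3 : p * (p - v * star v) = p - v * star v := by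
    rw [mul_sub, hp.isIdempotentElem.eq, ← mul_assoc, h2]
  have h4 : (p - v * star v) * v = 0 := by rw [sub_mul, h2, v1, sub_self]
  generalize p - v * star v = r at hr hrM r0 h3 h4
  have ho := coverU_orth hr h1 h2 h3 h4
  have hu : ∀ n, coverU v r n ∈ M := fun n => by
    induction n with
    | zero => exact hrM
    | succ n ih => exact mul_mem hv ih
  obtain ⟨c, hc, -, c0, n, a, a1, a2⟩ := cover_fin h Cen.one hr hrM r0 (one_mul r)
  have key : ∀ k l : ℕ, star (∑ i : Fin n, coverU v r (k + i) * star (a i)) *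
      (∑ j : Fin n, coverU v r (l + j) * star (a j)) =
      ∑ i : Fin n, ∑ j : Fin n, a i * (if k + i = l + j then r else 0) * star (a j) := by
    intro k l
    rw [star_sum, sum_mul_sum]
    refine sum_congr rfl fun i _ => sum_congr rfl fun j _ => ?_
    rw [star_mul, star_star, ← ho, mul_assoc, mul_assoc, mul_assoc]
  have diag : ∀ k : ℕ, star (∑ i : Fin n, coverU v r (k + i) * star (a i)) *
      (∑ j : Fin n, coverU v r (k + j) * star (a j)) = c := by
    intro k
    rw [key, ← a2]
    refine sum_congr rfl fun i _ => ?_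
    rw [sum_eq_single i]
    · rw [if_pos rfl, (a1 i).2.1]
    · intro j _ hj
      rw [if_neg fun e => hj (Fin.ext (by omega)), mul_zero, zero_mul]
    · intro hi
      exact absurd (mem_univ i) hi
  have mem : ∀ k : ℕ, (∑ i : Fin n, coverU v r (k + i) * star (a i)) ∈ M := fun k =>
    sum_mem fun i _ => mul_mem (hu _) (star_mem (a1 i).1)
  refine h c hc (fun h0 => c0 (by rw [h0, zero_mul])) ⟨_, mem 0, _, mem n, diag 0, diag n, ?_⟩
  rw [key]
  refine sum_eq_zero fun i _ => sum_eq_zero fun j _ => ?_
  rw [if_neg (by have := i.2; omega), mul_zero, zero_mul]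

theorem cover_half (h : NoPI M) {U V z x : Op H} (hU : U ∈ M) (hV : V ∈ M) (hz : Cen M z)
    (hx : x ∈ M) (u1 : U * star U * U = U) (v1 : V * star V * V = V)
    (v2 : V * (U * star U) = V) (v3 : star U * U * V = V)
    (x1 : star x * x = z * (star U * U - V * star V)) (x2 : (U * star U - star V * V) * x = x) :
    x * star x = z * (U * star U - star V * V) ∧ z * x = x := by
  obtain ⟨he, hf⟩ := piso_proj u1
  have heM : star U * U ∈ M := mul_mem (star_mem hU) hU
  have hfM : U * star U ∈ M := mul_mem hU (star_mem hU)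
  have zs := hz.1.isSelfAdjoint.star_eq
  have zz := hz.1.isIdempotentElem.eq
  have zc := hz.2.2
  have v3' := VN1.star_mul_eq he.isSelfAdjoint v3
  have v2' := VN1.mul_star_eq hf.isSelfAdjoint v2
  have he2 : IsStarProjection (star U * U - V * star V) :=
    (piso_proj v1).2.sub_of_mul_eq_left he (by rw [mul_assoc, v3'])
  have he2M : star U * U - V * star V ∈ M := sub_mem heM (mul_mem hV (star_mem hV))
  have x3 : x * (z * (star U * U - V * star V)) = x :=
    VN2.piso_right (hz.1.mul he2 (zc _ he2M)) x1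
  have zx : z * x = x := by
    rw [zc x hx, ← x3, mul_assoc, mul_assoc, ← zc _ he2M, ← mul_assoc z z, zz]
  have a1 : V * x = 0 := by
    rw [← x2, ← mul_assoc, mul_sub, v2, ← mul_assoc, v1, sub_self, zero_mul]
  have a2 : x * V = 0 := by
    rw [← x3, mul_assoc, mul_assoc, sub_mul, v3, v1, sub_self, mul_zero, mul_zero]
  have a1' : star x * star V = 0 := by rw [← star_mul, a1, star_zero]
  have a2' : star V * star x = 0 := by rw [← star_mul, a2, star_zero]
  have fx : U * star U * x = x := by
    rw [← x2, ← mul_assoc, mul_sub, hf.isIdempotentElem.eq, ← mul_assoc, v2']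
  have hT : z * star V + x ∈ M := add_mem (mul_mem hz.2.1 (star_mem hV)) hx
  have sT : star (z * star V + x) = z * V + star x := by
    rw [star_add, star_mul, star_star, zs, zc V hV]
  have t1 : star (z * star V + x) * (z * star V + x) = z * (star U * U) := by
    rw [sT, add_mul, mul_add, mul_add, x1, mul_assoc z V x, a1, mul_zero, add_zero,
      ← mul_assoc (star x), ← zc _ (star_mem hx), mul_assoc z (star x), a1', mul_zero, zero_add,
      mul_assoc z V, ← mul_assoc V, ← zc V hV, ← mul_assoc, ← mul_assoc, zz, mul_assoc z,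
      ← mul_add, add_sub_cancel]
  have t2 : (z * star V + x) * star (z * star V + x) = z * (star V * V) + x * star x := by
    rw [sT, add_mul, mul_add, mul_add, mul_assoc z (star V) (star x), a2', mul_zero, add_zero,
      ← mul_assoc x, ← zc x hx, mul_assoc z x, a2, mul_zero, zero_add, mul_assoc z (star V),
      ← mul_assoc (star V), ← zc _ (star_mem hV), ← mul_assoc, ← mul_assoc, zz, mul_assoc z]
  have t3 : U * star U * (z * star V + x) = z * star V + x := by
    rw [mul_add, fx, ← mul_assoc, ← zc _ hfM, mul_assoc z, v2']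
  have t4 : z * (z * star V + x) = z * star V + x := by rw [mul_add, zx, ← mul_assoc, zz]
  generalize z * star V + x = T at hT t1 t2 t3 t4
  have k := cover_finite h (v := star U * T) (hz.1.mul he (zc _ heM)) (mul_mem (star_mem hU) hT)
    (by rw [star_mul, star_star, mul_assoc, ← mul_assoc U, t3, t1])
    (by rw [mul_assoc, ← mul_assoc (star U * U), VN1.piso_star u1, ← mul_assoc,
      zc _ (star_mem hU), mul_assoc, t4])
  have t3' := VN1.star_mul_eq hf.isSelfAdjoint t3
  have k2 : T * star T = z * (U * star U) := by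
    calc T * star T = U * star U * T * (star T * (U * star U)) := by rw [t3, t3']
      _ = U * (star U * T * star (star U * T)) * star U := by
        rw [star_mul, star_star]; simp only [mul_assoc]
      _ = z * (U * star U) := by
        rw [k, ← mul_assoc, ← zc U hU, mul_assoc z, ← mul_assoc U, u1, mul_assoc]
  refine ⟨?_, zx⟩
  rw [mul_sub, ← k2, t2, add_sub_cancel_left]

theorem cover_canc (h : NoPI M) {U V : Op H} (hU : U ∈ M) (hV : V ∈ M)
    (u1 : U * star U * U = U) (v1 : V * star V * V = V) (v2 : V * (U * star U) = V)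
    (v3 : star U * U * V = V) :
    ∃ W ∈ M, star W * W = star U * U - V * star V ∧ W * star W = U * star U - star V * V := by
  obtain ⟨he, hf⟩ := piso_proj u1
  have v3' := VN1.star_mul_eq he.isSelfAdjoint v3
  have v2' := VN1.mul_star_eq hf.isSelfAdjoint v2
  have he2 : IsStarProjection (star U * U - V * star V) :=
    (piso_proj v1).2.sub_of_mul_eq_left he (by rw [mul_assoc, v3'])
  have hf2 : IsStarProjection (U * star U - star V * V) :=
    (piso_proj v1).1.sub_of_mul_eq_left hf (by rw [mul_assoc, v2])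
  have he2M : star U * U - V * star V ∈ M :=
    sub_mem (mul_mem (star_mem hU) hU) (mul_mem hV (star_mem hV))
  have hf2M : U * star U - star V * V ∈ M :=
    sub_mem (mul_mem hU (star_mem hU)) (mul_mem (star_mem hV) hV)
  obtain ⟨z, hz, l1, l2⟩ := compare he2 hf2 he2M hf2M
  have hz' := hz.one_sub
  obtain ⟨x, hx, x1, x2⟩ := l1.isom (hz.1.mul he2 (hz.2.2 _ he2M)) (mul_mem hz.2.1 he2M) hf2
  obtain ⟨y, hy, y1, y2⟩ := l2.isom (hz'.1.mul hf2 (hz'.2.2 _ hf2M)) (mul_mem hz'.2.1 hf2M) he2
  obtain ⟨x3, x4⟩ := cover_half h hU hV hz hx u1 v1 v2 v3 x1 x2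
  obtain ⟨y3, y4⟩ := cover_half h (U := star U) (V := star V) (star_mem hU) (star_mem hV) hz' hy
    (by rw [star_star]; exact VN1.piso_star u1) (by rw [star_star]; exact VN1.piso_star v1)
    (by rw [star_star]; exact v3') (by rw [star_star]; exact v2')
    (by rw [star_star, star_star]; exact y1) (by rw [star_star, star_star]; exact y2)
  rw [star_star, star_star] at y3
  have a1 : y * x = 0 := by
    rw [← y4, ← x4, hz'.2.2 y hy, mul_assoc, ← mul_assoc (1 - z), hz.1.one_sub_mul_self, zero_mul,
      mul_zero]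
  have a2 : x * y = 0 := by
    rw [← y4, ← x4, hz.2.2 x hx, mul_assoc, ← mul_assoc z, hz.1.mul_one_sub_self, zero_mul,
      mul_zero]
  have a1' : star x * star y = 0 := by rw [← star_mul, a1, star_zero]
  have a2' : star y * star x = 0 := by rw [← star_mul, a2, star_zero]
  refine ⟨x + star y, add_mem hx (star_mem hy), ?_, ?_⟩
  · rw [star_add, star_star, add_mul, mul_add, mul_add, x1, a1', a1, y3, add_zero, zero_add,
      ← add_mul, add_sub_cancel, one_mul]
  · rw [star_add, star_star, add_mul, mul_add, mul_add, x3, a2', a2, y1, add_zero, zero_add,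
      ← add_mul, add_sub_cancel, one_mul]

theorem cover (hN : NoPI M) {z p : Op H} (hz : Cen M z) (hp : IsStarProjection p) (hpM : p ∈ M)
    (hp0 : p ≠ 0) (hzp : z * p = p) : ∃ c, Cen M c ∧ c * p ≠ 0 ∧ z * c = c ∧
      ∃ (I : Type) (_ : Fintype I) (a : I → Op H),
        (∀ i, a i ∈ M ∧ a i * p = a i ∧ c * a i = a i ∧ ‖a i‖ ≤ 1) ∧
          ∑ i, a i * star (a i) = c := by
  obtain ⟨c, hc, h1, h2, n, a, h3, h4⟩ := cover_fin hN hz hp hpM hp0 hzp
  exact ⟨c, hc, h2, h1, Fin n, inferInstance, a,
    fun i => ⟨(h3 i).1, (h3 i).2.1, cover_mul hc.1 h4 i, (h3 i).2.2⟩, h4⟩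

theorem finite (hN : NoPI M) {p v : Op H} (hp : IsStarProjection p) (hv : v ∈ M)
    (h1 : star v * v = p) (h2 : p * v = v) : v * star v = p := by
  exact cover_finite hN hp hv h1 h2

set_option linter.unusedVariables false in
theorem canc (hN : NoPI M) {p q t V : Op H} (hp : IsStarProjection p) (hq : IsStarProjection q)
    (ht : t ∈ M) (h1 : star t * t = p) (h2 : t * star t = q) (hV : V ∈ M)
    (hVV : V * star V * V = V) (hVq : V * q = V) (hpV : p * V = V) :
    ∃ W ∈ M, star W * W = p - V * star V ∧ W * star W = q - star V * V := by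
  subst h1 h2
  exact cover_canc hN ht hV (piso_of_proj hp) hVV hVq hpV

end Pool.Agent.Kad.H3
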