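import Pool.Agent.Lib.MP_22c5db_an.H2.Main

/-! Definitions for the general case. -/

open scoped InnerProductSpace ComplexConjugate
open Finset

noncomputable section

namespace Pool.Agent.Kad.H3

open Pool.Agent.Kad.H2

universe u

set_option linter.unusedSectionVars false

variable {H : Type u} [NormedAddCommGroup H] [InnerProductSpace ℂ H] [CompleteSpace H]
  {M : VonNeumannAlgebra H} {τ : Op H →ₗ[ℝ] ℝ} {φ : Bil H} {C : ℝ}
  {ι : Type} [Fintype ι] [DecidableEq ι] {e : ι → ι → Op H}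

/-- real part of a tracial state -/
structure Tr0 (M : VonNeumannAlgebra H) (τ : Op H →ₗ[ℝ] ℝ) : Prop where
  one : τ 1 = 1
  comm : ∀ x ∈ M, ∀ y ∈ M, τ (x * y) = τ (y * x)
  pos : ∀ x ∈ M, 0 ≤ τ (star x * x)

/-- normalised on the central projections -/
def ZN (M : VonNeumannAlgebra H) (φ : Bil H) : Prop :=
  ∀ z, Cen M z → ∀ x ∈ M, φ z x = 0 ∧ φ x z = 0

/-- a module map over the central projections that kills them -/
def ZM (M : VonNeumannAlgebra H) (β : Op H →ₗ[ℂ] Op H) : Prop :=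
  ∀ z, Cen M z → β z = 0 ∧ ∀ x ∈ M, β (z * x) = z * β x ∧ z * β x = β x * z

/-- no properly infinite central piece -/
def NoPI (M : VonNeumannAlgebra H) : Prop := ∀ c, Cen M c → c ≠ 0 → ¬ PI M c

/-- unital matrix units of every size -/
def Uns (M : VonNeumannAlgebra H) : Prop :=
  ∀ k : ℕ, 0 < k → ∃ f : Fin k → Fin k → Op H, MU f 1 ∧ ∀ i j, f i j ∈ M

/-- a finite set separates the central projections -/
def Sep (M : VonNeumannAlgebra H) : Prop :=
  ∃ S : Finset H, ∀ z, Cen M z → (∀ ξ ∈ S, z ξ = 0) → z = 0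

/-- every vector state is dominated on the centre by a faithful trace -/
def HasT (M : VonNeumannAlgebra H) : Prop :=
  ∀ ζ : H, ∃ τ : Op H →ₗ[ℝ] ℝ, Tr M τ ∧ ∀ z, Cen M z → ‖z ζ‖ ^ 2 ≤ 2 * ‖ζ‖ ^ 2 * τ z

/-- a coboundary on every cyclic subspace, under the central projection `w` -/
def LocW (M : VonNeumannAlgebra H) (φ : Bil H) (w : Op H) (c : ℝ) : Prop :=
  ∀ ξ : H, ∃ ψ : Op H →ₗ[ℂ] Op H, Bd M ψ c ∧
    ∀ x ∈ M, ∀ y ∈ M, ∀ b ∈ M, w (φ x y (b ξ)) = cob ψ x y (b ξ)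

/-- a coboundary on every cyclic subspace -/
def Loc (M : VonNeumannAlgebra H) (φ : Bil H) (c : ℝ) : Prop :=
  ∀ ξ : H, ∃ ψ : Op H →ₗ[ℂ] Op H, Bd M ψ c ∧
    ∀ x ∈ M, ∀ y ∈ M, ∀ b ∈ M, φ x y (b ξ) = cob ψ x y (b ξ)

/-- the estimate for elements with a small left support, with central weights -/
def FlatZ (M : VonNeumannAlgebra H) (φ : Bil H) (e : ι → ι → Op H) (C : ℝ) (ζ : H)
    (G : Op H →L[ℝ] ℝ) : Prop :=
  ∀ (κ : Type) [Fintype κ] (x : κ → Op H), (∀ l, x l ∈ M) → Cl x 1 → ∀ F : Finset ι,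
    ∀ b ∈ M, pF e F * b = b → ∀ z, Cen M z → b * z = b → ∑ l, ‖φ (x l) b ζ‖ ^ 2 ≤
      C ^ 2 * (6 * G (star b * b) + 4 * ‖z ζ‖ ^ 2 * ‖b‖ ^ 2 * (F.card / Fintype.card ι))

/-- the estimate for elements with a left support of small trace -/
def Sup (M : VonNeumannAlgebra H) (τ : Op H →ₗ[ℝ] ℝ) (φ : Bil H) (k : ℕ) (C : ℝ) (ζ : H)
    (G : Op H →L[ℝ] ℝ) : Prop :=
  ∀ (κ : Type) [Fintype κ] (x : κ → Op H), (∀ l, x l ∈ M) → Cl x 1 → ∀ b ∈ M, ∀ l ∈ M,
    IsStarProjection l → l * b = b → √(∑ i, ‖φ (x i) b ζ‖ ^ 2) ≤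
      C * (6 * √(G (star b * b)) + 4 * ‖ζ‖ * ‖b‖ * (√(τ l) + (√(k : ℝ))⁻¹))

/-- every vector has a trace and a dominating functional -/
def SupAll (M : VonNeumannAlgebra H) (φ : Bil H) (e : ι → ι → Op H) (C : ℝ) : Prop :=
  ∀ ζ : H, ∃ (τ : Op H →ₗ[ℝ] ℝ) (G : Op H →L[ℝ] ℝ), Tr M τ ∧ Dom M τ φ e C ζ G ∧
    Sup M τ φ (Fintype.card ι) C ζ G

/-- an orthogonal family of central projections -/
structure Orth (M : VonNeumannAlgebra H) {A : Type} (w : A → Op H) : Prop where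
  cen : ∀ a, Cen M (w a)
  orth : ∀ a b, a ≠ b → w a * w b = 0

/-- the block diagonal sum -/
def blk {A : Type} [Fintype A] (w : A → Op H) (β : A → Op H →ₗ[ℂ] Op H) : Op H →ₗ[ℂ] Op H :=
  ∑ a, (LinearMap.mulLeft ℂ (w a)).comp ((LinearMap.mulRight ℂ (w a)).comp (β a))

theorem blk_apply {A : Type} [Fintype A] (w : A → Op H) (β : A → Op H →ₗ[ℂ] Op H) (x : Op H) :
    blk w β x = ∑ a, w a * (β a x * w a) := by
  simp only [blk, LinearMap.sum_apply, LinearMap.comp_apply, LinearMap.mulLeft_apply,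
    LinearMap.mulRight_apply]

/-- the left average over a family -/
def avg {I : Type} [Fintype I] (φ : Bil H) (a : I → Op H) : Op H →ₗ[ℂ] Op H :=
  ∑ i, (LinearMap.mulLeft ℂ (star (a i))).comp (φ (a i))

theorem avg_apply {I : Type} [Fintype I] (φ : Bil H) (a : I → Op H) (x : Op H) :
    avg φ a x = ∑ i, star (a i) * φ (a i) x := by
  simp only [avg, LinearMap.sum_apply, LinearMap.comp_apply, LinearMap.mulLeft_apply]

end Pool.Agent.Kad.H3
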