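import Pool.Agent.Lib.MP_22c5db_an.H3.Win

/-! The defect in the mean. -/

open scoped InnerProductSpace ComplexConjugate
open Finset

noncomputable section

namespace Pool.Agent.Kad.H3

open Pool.Agent.Kad.H2

universe u

set_option linter.unusedSectionVars false

variable {H : Type u} [NormedAddCommGroup H] [InnerProductSpace ℂ H] [CompleteSpace H]
  {M : VonNeumannAlgebra H} {τ : Op H →ₗ[ℝ] ℝ} {φ : Bil H} {C : ℝ}
  {ι : Type} [Fintype ι] [DecidableEq ι] {e : ι → ι → Op H}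
  {K : Type u} [NormedAddCommGroup K] [InnerProductSpace ℂ K] [CompleteSpace K]
  {A : Type} [Fintype A] [DecidableEq A] {J : A → H →L[ℂ] K} {N : VonNeumannAlgebra K}
  {m L : ℕ} {δ : ℝ} {α : ℕ → ℝ} {ζ : H} {G : Op H →L[ℝ] ℝ}

theorem est_DDZ (hA : SupAll M φ e C) (hτ : Tr M τ) (hJ : Frame M 1 J N) (h : Nrm M φ e C)
    (hS : Sc (Fintype.card A) m L α) (hP : Par (Fintype.card A) m L (Fintype.card ι) δ)
    (hW : Tail K (Fintype.card A * m) L α (m : ℝ)⁻¹) {u c : Op H} (hu : u ∈ unitary (Op H))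
    (huM : u ∈ M) (hc : c ∈ M) (hc1 : ‖c‖ ≤ 1) {T : ℝ} (hT0 : 0 ≤ T) (hT2 : T ≤ 2)
    (hT : Ad e c T) (hT' : Ad e (star u * c) T) (hG : Dom M τ φ e C ζ G)
    (hSp : Sup M τ φ (Fintype.card ι) C ζ G)
    (hcont : ∀ γ, Continuous fun v : U (A × ι) =>
      DD J φ γ c ζ (ww J e u v ^ L) (ff α L (ww J e u v))) (γ : A) :
    Ex (fun v : U (A × ι) => ‖DD J φ γ c ζ (ww J e u v ^ L) (ff α L (ww J e u v))‖ ^ 2) ≤
      10 ^ 12 * C ^ 2 * (G (star c * c) + ‖ζ‖ ^ 2 * (T + (m : ℝ)⁻¹)) := by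
  have : Nonempty ι := Fintype.card_pos_iff.1 (hτ.card_pos h.mu)
  obtain ⟨τ', G', hτ', hG', hSp'⟩ := hA (c ζ)
  have hm : (1 : ℝ) ≤ m := by exact_mod_cast hS.m0
  have hm0 : (0 : ℝ) < m := by linarith
  have ha0 : 0 < Fintype.card A := lt_of_lt_of_le hS.m0 hS.ma
  have hmi : (m : ℝ)⁻¹ ≤ 1 := inv_le_one_of_one_le₀ hm
  have hmi0 : (0 : ℝ) ≤ (m : ℝ)⁻¹ := by positivity
  obtain ⟨p, hp⟩ : ∃ p : U (A × ι) → Op H,
      p = fun v => ent J (star (ff α L (ww J e u v)) * ff α L (ww J e u v)) γ γ := ⟨_, rfl⟩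
  have h11 : ‖(1 : Op H)‖ ≤ 1 := Core.norm_unitary_le (one_mem _)
  obtain ⟨hpc, m1, m2⟩ := mom hJ h.mu hS hP hu hc1 hT0 hT hT' hG.pos γ hp
  obtain ⟨-, m3, m4⟩ := mom hJ h.mu hS hP hu h11 zero_le_one (est_ad h.mu h11)
    (est_ad h.mu (by rw [mul_one, norm_star]; exact Core.norm_unitary_le hu)) hG'.pos γ hp
  simp only [star_one, one_mul, mul_one] at m3 m4
  have hg : ‖c ζ‖ ^ 2 ≤ G (star c * c) := hG.vec c
  have hG1 : G' 1 ≤ 3 * G (star c * c) := by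
    have h1 := (le_abs_self _).trans (hG'.pos.le 1)
    have h2 : 3 * ‖c ζ‖ ^ 2 * ‖(1 : Op H)‖ ≤ 3 * ‖c ζ‖ ^ 2 :=
      mul_le_of_le_one_right (by positivity) h11
    linarith
  have hΛ : (1 : ℝ) ≤ m * T + 1 := by nlinarith
  have hΛ' : (1 : ℝ) ≤ m + 1 := by linarith
  have c1 : Continuous fun v => G (star c * p v * c) := by fun_prop
  have c2 : Continuous fun v => G (star c * p v * c * (star c * p v * c)) := by fun_prop
  have c3 : Continuous fun v => G' (p v) := by fun_prop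
  have c4 : Continuous fun v => G' (p v * p v) := by fun_prop
  obtain ⟨R, hR⟩ : ∃ R : ℝ, R = ‖ζ‖ ^ 2 * (((m * T + 1) + ((m : ℝ) + 1) +
    2 * (∑ n ∈ range L, α n) ^ 2) / Fintype.card ι + (m : ℝ)⁻¹ ^ 2) := ⟨_, rfl⟩
  have hR2 : R ≤ ‖ζ‖ ^ 2 * (2 * (m : ℝ)⁻¹) := by
    rw [hR]
    exact mul_le_mul_of_nonneg_left (est_par hS hP hT2) (by positivity)
  obtain ⟨σ, hσ, hmix⟩ := tr_mix hτ hτ' (s := ‖ζ‖ ^ 2 * (m * T + 1))
    (s' := ‖c ζ‖ ^ 2 * ((m : ℝ) + 1)) (by positivity) (by positivity)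
  have key := rot (Ψ := fun v : U (A × ι) =>
      ‖DD J φ γ c ζ (ww J e u v ^ L) (ff α L (ww J e u v))‖ ^ 2)
    (Φ := fun v => 10 ^ 6 * C ^ 2 * (G (star c * p v * c) +
      (m * T + 1)⁻¹ * G (star c * p v * c * (star c * p v * c)) + G' (p v) +
      ((m : ℝ) + 1)⁻¹ * G' (p v * p v) + R))
    (s := 10 ^ 6 * C ^ 2 * (‖ζ‖ ^ 2 * (m * T + 1) + ‖c ζ‖ ^ 2 * ((m : ℝ) + 1)))
    hσ hJ h.mu h.mem hu huM (Nat.mul_pos ha0 hS.m0) ((hcont γ).norm.pow 2)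
    (by fun_prop) (by positivity) (by
      intro v q hq hqN hqw hqa
      have hw := ww_unitary hJ h.mu hu v
      have hwN := ww_mem hJ h.mem huM v
      have hcm : Commute q (ww J e u v) := hqw
      have h1 := winZ hτ hτ' hσ hJ h (pow_mem hw L) (pow_mem hwN L) (est_ff_mem (α := α) (L := L) hwN)
        hq hqN (hcm.pow_right L).eq (est_ff_comm hqw) (est_norm_ff hw hS.pos)
        (hW _ hw q hq hqw hqa) hmi hc hc1 hG hSp hG' hSp' hΛ hΛ' hmix γ (p := p v) (by rw [hp])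
      refine h1.trans (le_of_eq ?_)
      rw [hR]
      ring)
  refine key.trans ?_
  rw [Ex_mul_real, Ex_add (by fun_prop) (by fun_prop), Ex_add (by fun_prop) (by fun_prop),
    Ex_add (by fun_prop) (by fun_prop), Ex_add (by fun_prop) (by fun_prop), Ex_mul_real,
    Ex_mul_real, Ex_const]
  have e1 : (Fintype.card A : ℝ) / ((Fintype.card A * m : ℕ) : ℝ) = (m : ℝ)⁻¹ := by
    have h1 : (Fintype.card A : ℝ) ≠ 0 := by exact_mod_cast ha0.ne'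
    push_cast
    field_simp
  rw [e1]
  have g0 : 0 ≤ G (star c * c) := hG.pos.pos c
  have b2 : (m * T + 1)⁻¹ * Ex (fun v => G (star c * p v * c * (star c * p v * c))) ≤
      130000 * G (star c * c) := by
    rw [inv_mul_le_iff₀ (by linarith)]
    linarith
  have b4 : ((m : ℝ) + 1)⁻¹ * Ex (fun v => G' (p v * p v)) ≤ 390000 * G (star c * c) := by
    rw [inv_mul_le_iff₀ (by linarith)]
    have h1 : 130000 * ((m : ℝ) + 1) * G' 1 ≤ 130000 * ((m : ℝ) + 1) * (3 * G (star c * c)) :=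
      mul_le_mul_of_nonneg_left hG1 (by positivity)
    linarith
  have b5 : (‖ζ‖ ^ 2 * (m * T + 1) + ‖c ζ‖ ^ 2 * ((m : ℝ) + 1)) * (m : ℝ)⁻¹ ≤
      ‖ζ‖ ^ 2 * (T + (m : ℝ)⁻¹) + 2 * G (star c * c) := by
    have h1 : (‖ζ‖ ^ 2 * (m * T + 1) + ‖c ζ‖ ^ 2 * ((m : ℝ) + 1)) * (m : ℝ)⁻¹ =
        ‖ζ‖ ^ 2 * (T + (m : ℝ)⁻¹) + ‖c ζ‖ ^ 2 * (1 + (m : ℝ)⁻¹) := by
      field_simp
    have h2 : ‖c ζ‖ ^ 2 * (1 + (m : ℝ)⁻¹) ≤ ‖c ζ‖ ^ 2 * 2 :=
      mul_le_mul_of_nonneg_left (by linarith) (by positivity)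
    linarith
  have z1 : 0 ≤ ‖ζ‖ ^ 2 * T := by positivity
  have z2 : 0 ≤ ‖ζ‖ ^ 2 * (m : ℝ)⁻¹ := by positivity
  have fin : Ex (fun v => G (star c * p v * c)) +
      (m * T + 1)⁻¹ * Ex (fun v => G (star c * p v * c * (star c * p v * c))) +
      Ex (fun v => G' (p v)) + ((m : ℝ) + 1)⁻¹ * Ex (fun v => G' (p v * p v)) + R +
      (‖ζ‖ ^ 2 * (m * T + 1) + ‖c ζ‖ ^ 2 * ((m : ℝ) + 1)) * (m : ℝ)⁻¹ ≤
      10 ^ 6 * (G (star c * c) + ‖ζ‖ ^ 2 * (T + (m : ℝ)⁻¹)) := by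
    linarith
  have := mul_le_mul_of_nonneg_left fin (by positivity : (0 : ℝ) ≤ 10 ^ 6 * C ^ 2)
  linarith

theorem estZ (hA : SupAll M φ e C) (hτ : Tr M τ) (hJ : Frame M 1 J N) (h : Nrm M φ e C)
    (hS : Sc (Fintype.card A) m L α) (hP : Par (Fintype.card A) m L (Fintype.card ι) δ)
    (hW : Tail K (Fintype.card A * m) L α (m : ℝ)⁻¹) {u c : Op H} (hu : u ∈ unitary (Op H))
    (huM : u ∈ M) (hc : c ∈ M) (hc1 : ‖c‖ ≤ 1) {T : ℝ} (hT0 : 0 ≤ T) (hT2 : T ≤ 2)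
    (hT : Ad e c T) (hT' : Ad e (star u * c) T) (hG : Dom M τ φ e C ζ G)
    (hSp : Sup M τ φ (Fintype.card ι) C ζ G) (η : H) :
    ‖⟪star u η, φ (star u) c ζ⟫_ℂ‖ ≤
      2 * 10 ^ 6 * C * √(G (star c * c) + ‖ζ‖ ^ 2 * (T + (m : ℝ)⁻¹)) * ‖η‖ := by
  have : Nonempty ι := Fintype.card_pos_iff.1 (hτ.card_pos h.mu)
  have : Nonempty A := Fintype.card_pos_iff.1 (lt_of_lt_of_le hS.m0 hS.ma)
  have hC := h.c0
  have hG0 := hG.pos.pos c
  set Q := √(G (star c * c) + ‖ζ‖ ^ 2 * (T + (m : ℝ)⁻¹)) with hQ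
  have hQ0 : 0 ≤ Q := Real.sqrt_nonneg _
  have hQ2 : Q ^ 2 = G (star c * c) + ‖ζ‖ ^ 2 * (T + (m : ℝ)⁻¹) := Real.sq_sqrt (by positivity)
  have q1 : √(G (star c * c) + ‖ζ‖ ^ 2 * T) ≤ Q := by
    refine Real.sqrt_le_sqrt ?_
    gcongr
    exact le_add_of_nonneg_right (by positivity)
  have q2 : ‖c ζ‖ ≤ Q := Real.le_sqrt_of_sq_le
    ((hG.vec c).trans (le_add_of_nonneg_right (by positivity)))
  have q3 : ‖ζ‖ * √(m : ℝ)⁻¹ ≤ Q := by
    refine Real.le_sqrt_of_sq_le ?_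
    rw [mul_pow, Real.sq_sqrt (by positivity), mul_add, ← add_assoc]
    exact le_add_of_nonneg_left (by positivity)
  have e1 : star (star u * c) * (star u * c) = star c * c := by
    rw [star_mul, star_star, mul_assoc, ← mul_assoc u, hu.2, one_mul]
  have s1 := sb_dom h hG hc hT0 hT
  have s2 := sb_dom h hG (mul_mem (star_mem huM) hc) hT0 hT'
  rw [e1] at s2
  have p1 : ∀ n ∈ range L, ‖Ph J φ c ζ η fun v => ww J e u v ^ n‖ ≤ 7 * C * Q * ‖η‖ := by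
    intro n hn
    refine (phi_pos hJ h hS hP hu huM hc hc1 (by positivity) s1 (mem_range.1 hn).le η).trans ?_
    gcongr
    nlinarith [mul_le_mul_of_nonneg_left q1 hC, mul_le_mul_of_nonneg_left q3 hC]
  have p2 : ∀ n ∈ range L, ‖(Ph J φ c ζ η fun v => star (ww J e u v) ^ (L - n)) -
      ⟪star u η, φ (star u) c ζ⟫_ℂ‖ ≤ 10 * C * Q * ‖η‖ := by
    intro n hn
    have hn' := mem_range.1 hn
    rw [show L - n = L - n - 1 + 1 by omega]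
    refine (phi_neg hJ h hS hP hu huM hc hc1 (by positivity) s2 (by omega) η).trans ?_
    gcongr
    nlinarith [mul_le_mul_of_nonneg_left q1 hC, mul_le_mul_of_nonneg_left q2 hC,
      mul_le_mul_of_nonneg_left q3 hC]
  have p3 := phase_le hJ h hu huM hc hS.sq (Q := 10 ^ 6 * C * Q) (by positivity) (fun γ =>
    (est_DDZ hA hτ hJ h hS hP hW hu huM hc hc1 hT0 hT2 hT hT' hG hSp
      (fun γ => DD_cont hJ h huM hc α L ζ γ) γ).trans (le_of_eq (by rw [← hQ2]; ring))) η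
  have hsq : ∑ n ∈ range L, (α n : ℂ) ^ 2 = 1 := by exact_mod_cast hS.sq
  have e2 : ⟪star u η, φ (star u) c ζ⟫_ℂ =
      ∑ n ∈ range L, (α n : ℂ) ^ 2 * ((Ph J φ c ζ η fun v => ww J e u v ^ n) -
        ((Ph J φ c ζ η fun v => star (ww J e u v) ^ (L - n)) - ⟪star u η, φ (star u) c ζ⟫_ℂ)) -
      ∑ n ∈ range L, (α n : ℂ) ^ 2 * ((Ph J φ c ζ η fun v => ww J e u v ^ n) -
        Ph J φ c ζ η fun v => star (ww J e u v) ^ (L - n)) := by
    rw [← sum_sub_distrib, ← one_mul ⟪star u η, φ (star u) c ζ⟫_ℂ, ← hsq, sum_mul]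
    refine sum_congr rfl fun n _ => ?_
    rw [← sum_mul, hsq]
    ring
  have p4 : ‖∑ n ∈ range L, (α n : ℂ) ^ 2 * ((Ph J φ c ζ η fun v => ww J e u v ^ n) -
      ((Ph J φ c ζ η fun v => star (ww J e u v) ^ (L - n)) - ⟪star u η, φ (star u) c ζ⟫_ℂ))‖ ≤
      17 * C * Q * ‖η‖ := by
    refine (norm_sum_le_of_le _ (n := fun n => α n ^ 2 * (17 * C * Q * ‖η‖)) fun n hn => ?_).trans ?_
    · rw [norm_mul, norm_pow, Complex.norm_real, Real.norm_eq_abs, sq_abs]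
      refine mul_le_mul_of_nonneg_left ((norm_sub_le _ _).trans ?_) (sq_nonneg _)
      linarith [p1 n hn, p2 n hn]
    · rw [← sum_mul, hS.sq, one_mul]
  rw [e2]
  refine (norm_sub_le _ _).trans ((add_le_add p4 p3).trans ?_)
  have : 0 ≤ C * Q * ‖η‖ := by positivity
  nlinarith

end Pool.Agent.Kad.H3
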