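import Pool.Agent.Lib.MP_22c5db_an.H3.Exh

/-! Exhaustion by isometries. -/

open scoped InnerProductSpace ComplexConjugate
open Finset

noncomputable section

namespace Pool.Agent.Kad.H3

open Pool.Agent.Kad.H2

universe u

set_option linter.unusedSectionVars false

variable {H : Type u} [NormedAddCommGroup H] [InnerProductSpace ℂ H] [CompleteSpace H]
  {M : VonNeumannAlgebra H} {τ : Op H →ₗ[ℝ] ℝ} {φ : Bil H} {C : ℝ}
  {ι : Type} [Fintype ι] [DecidableEq ι] {e : ι → ι → Op H}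

section

open VN1

/-- extension of isometries -/
def exhP_Ext (V W : Op H) : Prop := W * (star V * V) = V ∧ star W * V = star V * V

/-- the functional that does not decrease -/
def exhP_F (ξ ξ' : H) (V : Op H) : ℝ := ‖V ξ‖ ^ 2 - ‖star V ξ'‖ ^ 2

theorem exhP_refl {V : Op H} (h : V * star V * V = V) : exhP_Ext V V :=
  ⟨by rw [← mul_assoc, h], rfl⟩

theorem exhP_trans {V W X : Op H} (h : exhP_Ext V W) (h' : exhP_Ext W X) : exhP_Ext V X := by
  obtain ⟨a1, a2⟩ := h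
  obtain ⟨b1, b2⟩ := h'
  constructor
  · calc X * (star V * V) = X * (star W * (W * (star V * V))) := by rw [a1, a2]
      _ = X * (star W * W) * (star V * V) := by simp only [mul_assoc]
      _ = V := by rw [b1, a1]
  · calc star X * V = star X * W * (star V * V) := by rw [mul_assoc, a1]
      _ = star W * (W * (star V * V)) := by rw [b2, mul_assoc]
      _ = star V * V := by rw [a1, a2]

theorem exhP_src {W X : Op H} (hW : W * star W * W = W) (h : exhP_Ext W X) (ξ : H) :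
    ‖W ξ‖ ≤ ‖X ξ‖ := by
  have e : star W * X = star W * W := by
    have := congrArg star h.2
    rwa [star_mul, star_star, star_mul, star_star] at this
  have e2 : W = W * star W * X := by rw [mul_assoc, e, ← mul_assoc, hW]
  calc ‖W ξ‖ = ‖(W * star W) (X ξ)‖ := by rw [← mul_apply_eq_comp, ← e2]
    _ ≤ ‖X ξ‖ := VN0.norm_proj_le (piso_proj hW).2 _

theorem exhP_rng {V W : Op H} (_hW : W * star W * W = W) (h : exhP_Ext V W) (ζ : H) :
    W (star W (V ζ)) = V ζ := by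
  have e : W * star W * V = V := by rw [mul_assoc, h.2, h.1]
  exact congrArg (fun t : Op H => t ζ) e

theorem exhP_norm_star {V : Op H} (h : V * star V * V = V) (η : H) : ‖star V η‖ ≤ ‖η‖ := by
  have h1 := piso_norm h
  calc ‖star V η‖ ≤ ‖star V‖ * ‖η‖ := (star V).le_opNorm η
    _ ≤ 1 * ‖η‖ := by rw [norm_star]; gcongr
    _ = ‖η‖ := one_mul _

theorem exhP_chain {p q : Op H} (hp : IsStarProjection p) (hq : IsStarProjection q) (ξ ξ' : H)
    (c : Set (Op H)) (hc : ∀ V ∈ c, V ∈ M ∧ V * star V * V = V ∧ V * p = V ∧ q * V = V)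
    (ht : ∀ V ∈ c, ∀ W ∈ c, (exhP_Ext V W ∧ exhP_F ξ ξ' V ≤ exhP_F ξ ξ' W) ∨
      (exhP_Ext W V ∧ exhP_F ξ ξ' W ≤ exhP_F ξ ξ' V)) :
    ∃ X ∈ M, X * star X * X = X ∧ X * p = X ∧ q * X = X ∧
      ∀ V ∈ c, exhP_Ext V X ∧ exhP_F ξ ξ' V ≤ exhP_F ξ ξ' X := by
  have hin : ∀ V W : Op H, exhP_Ext V W → ∀ ζ ζ',
      ⟪star V (V ζ), star W (W ζ')⟫_ℂ = ⟪V ζ, W ζ'⟫_ℂ := fun V W h ζ ζ' => by
    rw [inner_star_right]
    exact congrArg (fun t : Op H => ⟪t ζ, W ζ'⟫_ℂ) h.1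
  obtain ⟨X, hX, x1, x2, x3, x4⟩ := pgraph (R := M)
    {g : H × H | ∃ V ∈ c, ∃ ζ, g = (star V (V ζ), V ζ)}
    (by
      rintro _ ⟨V, hV, ζ, rfl⟩ _ ⟨W, hW, ζ', rfl⟩
      rcases ht V hV W hW with h | h
      · exact hin V W h.1 ζ ζ'
      · rw [← inner_conj_symm, hin W V h.1 ζ' ζ, inner_conj_symm])
    (by
      rintro s hs _ ⟨V, hV, ζ, rfl⟩
      have hVM := (hc V hV).1
      exact ⟨V, hV, s ζ, Prod.ext
        (congrArg (fun t : Op H => t ζ) (comm_of_mem (mul_mem (star_mem hVM) hVM) hs))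
        (congrArg (fun t : Op H => t ζ) (comm_of_mem hVM hs))⟩)
  have hext : ∀ V ∈ c, exhP_Ext V X := fun V hV =>
    ⟨ContinuousLinearMap.ext fun ζ => (x2 _ ⟨V, hV, ζ, rfl⟩).1,
      ContinuousLinearMap.ext fun ζ => (x2 _ ⟨V, hV, ζ, rfl⟩).2⟩
  have hXp : X * p = X := by
    ext η
    have k := x3 (η - p η) (by
      rintro _ ⟨V, hV, ζ, rfl⟩
      have e : p (star V (V ζ)) = star V (V ζ) :=
        congrArg (fun t : Op H => t (V ζ)) (mul_star_eq hp.isSelfAdjoint (hc V hV).2.2.1)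
      rw [inner_sub_right, ← inner_sa hp.isSelfAdjoint, e, sub_self])
    rw [map_sub, sub_eq_zero] at k
    exact k.symm
  have hXq : star X * q = star X := by
    ext η
    have k := x4 (η - q η) (by
      rintro _ ⟨V, hV, ζ, rfl⟩
      have e : q (V ζ) = V ζ := congrArg (fun t : Op H => t ζ) (hc V hV).2.2.2
      rw [inner_sub_right, ← inner_sa hq.isSelfAdjoint, e, sub_self])
    rw [map_sub, sub_eq_zero] at k
    exact k.symm
  refine ⟨X, hX, x1, hXp, mul_eq_of_star hq.isSelfAdjoint hXq, fun V hV => ⟨hext V hV, ?_⟩⟩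
  obtain ⟨Q, hQ, Q1, -, Q3, -, -⟩ := exists_proj {η : H | ∃ W ∈ c, ∃ ζ, η = W ζ}
  have hperp : ∀ W ∈ c, ∀ ζ, ⟪W ζ, ξ' - Q ξ'⟫_ℂ = 0 := fun W hW ζ => by
    rw [inner_sub_right, ← inner_sa hQ.isSelfAdjoint, Q1 _ ⟨W, hW, ζ, rfl⟩, sub_self]
  have hXQ : star X ξ' = star X (Q ξ') := by
    have k := x4 (ξ' - Q ξ') (by
      rintro _ ⟨W, hW, ζ, rfl⟩
      exact hperp W hW ζ)
    rwa [map_sub, sub_eq_zero] at k
  have hWQ : ∀ W ∈ c, star W ξ' = star W (Q ξ') := fun W hW => by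
    have k : star W (ξ' - Q ξ') = 0 := by
      refine ext_inner_left ℂ fun ζ => ?_
      rw [inner_star_right, hperp W hW ζ, inner_zero_right]
    rwa [map_sub, sub_eq_zero] at k
  have hspan : ∀ y ∈ Submodule.span ℂ {η : H | ∃ W ∈ c, ∃ ζ, η = W ζ},
      ∃ W ∈ c, exhP_F ξ ξ' V ≤ exhP_F ξ ξ' W ∧ exhP_Ext V W ∧ W (star W y) = y := by
    intro y hy
    have up : ∀ W W' : Op H, W' ∈ c → exhP_Ext W W' → ∀ y, W (star W y) = y →
        W' (star W' y) = y := fun W W' hW' h y hy => by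
      rw [← hy]
      exact exhP_rng (hc W' hW').2.1 h _
    induction hy using Submodule.span_induction with
    | mem x hx =>
      obtain ⟨W, hW, ζ, rfl⟩ := hx
      rcases ht V hV W hW with h | h
      · exact ⟨W, hW, h.2, h.1, exhP_rng (hc W hW).2.1 (exhP_refl (hc W hW).2.1) ζ⟩
      · exact ⟨V, hV, le_rfl, exhP_refl (hc V hV).2.1, exhP_rng (hc V hV).2.1 h.1 ζ⟩
    | zero => exact ⟨V, hV, le_rfl, exhP_refl (hc V hV).2.1, by rw [map_zero, map_zero]⟩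
    | add x y _ _ hx hy =>
      obtain ⟨W, hW, w1, w2, w3⟩ := hx
      obtain ⟨W', hW', w1', w2', w3'⟩ := hy
      rcases ht W hW W' hW' with h | h
      · exact ⟨W', hW', w1', w2', by rw [map_add, map_add, up W W' hW' h.1 x w3, w3']⟩
      · exact ⟨W, hW, w1, w2, by rw [map_add, map_add, up W' W hW h.1 y w3', w3]⟩
    | smul a x _ hx =>
      obtain ⟨W, hW, w1, w2, w3⟩ := hx
      exact ⟨W, hW, w1, w2, by rw [map_smul, map_smul, w3]⟩
  refine le_of_forall_pos_le_add fun δ hδ => ?_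
  have hn : 0 < 4 * ‖ξ'‖ + 1 := by positivity
  have hcl : Q ξ' ∈ closure
      (Submodule.span ℂ {η : H | ∃ W ∈ c, ∃ ζ, η = W ζ} : Set H) := Q3 ξ'
  obtain ⟨y, hy, hd⟩ := Metric.mem_closure_iff.1 hcl (δ / (4 * ‖ξ'‖ + 1)) (by positivity)
  obtain ⟨W, hW, w1, -, w3⟩ := hspan y hy
  have hWp := (hc W hW).2.1
  have e1 : star X y = star W y := by
    have e : star X * W * star W = star W := by rw [(hext W hW).2, piso_star hWp]
    rw [← w3]
    conv_rhs => rw [w3]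
    exact congrArg (fun t : Op H => t y) e
  rw [dist_eq_norm] at hd
  have e2 : star X ξ' = star W ξ' + (star X (Q ξ' - y) - star W (Q ξ' - y)) := by
    rw [map_sub, map_sub, e1, ← hXQ, ← hWQ W hW]
    abel
  have e3 : ‖star X ξ'‖ ≤ ‖star W ξ'‖ + 2 * (δ / (4 * ‖ξ'‖ + 1)) := by
    rw [e2]
    refine (norm_add_le _ _).trans ?_
    have a1 := norm_sub_le (star X (Q ξ' - y)) (star W (Q ξ' - y))
    have a2 := exhP_norm_star x1 (Q ξ' - y)
    have a3 := exhP_norm_star hWp (Q ξ' - y)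
    linarith
  have e4 := exhP_src hWp (hext W hW) ξ
  have e5 := exhP_norm_star x1 ξ'
  have e6 := exhP_norm_star hWp ξ'
  have e7 : δ / (4 * ‖ξ'‖ + 1) * (4 * ‖ξ'‖ + 1) = δ := div_mul_cancel₀ _ hn.ne'
  have e8 : 0 < δ / (4 * ‖ξ'‖ + 1) := by positivity
  generalize δ / (4 * ‖ξ'‖ + 1) = t at e3 e7 e8
  unfold exhP_F at w1 ⊢
  have n1 := norm_nonneg (star X ξ')
  have n2 := norm_nonneg (star W ξ')
  have n3 := norm_nonneg (W ξ)
  have b1 : ‖W ξ‖ ^ 2 ≤ ‖X ξ‖ ^ 2 := by gcongr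
  have b2 : (‖star X ξ'‖ - ‖star W ξ'‖) * (‖star X ξ'‖ + ‖star W ξ'‖) ≤
      2 * t * (‖star X ξ'‖ + ‖star W ξ'‖) :=
    mul_le_mul_of_nonneg_right (by linarith) (by linarith)
  have b3 : 2 * t * (‖star X ξ'‖ + ‖star W ξ'‖) ≤ 2 * t * (2 * ‖ξ'‖) :=
    mul_le_mul_of_nonneg_left (by linarith) (by linarith)
  nlinarith

theorem exhP_add {V w : Op H} (h : star V * w = 0) (ξ : H) :
    ‖(V + w) ξ‖ ^ 2 = ‖V ξ‖ ^ 2 + ‖w ξ‖ ^ 2 := by
  have e : ⟪V ξ, w ξ⟫_ℂ = 0 := by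
    rw [← inner_star_right, ← mul_apply_eq_comp, h, zero_apply, inner_zero_right]
  rw [add_apply, sq, sq, sq]
  exact norm_add_sq_eq_norm_sq_add_norm_sq_of_inner_eq_zero _ _ e

/-- exhaustion by isometries -/
theorem exhP_main {p q : Op H} (hp : IsStarProjection p) (hq : IsStarProjection q) (ξ ξ' : H) :
    ∃ V ∈ M, V * star V * V = V ∧ V * p = V ∧ q * V = V ∧ ‖star V ξ'‖ ≤ ‖V ξ‖ ∧
      ∀ w ∈ M, w ≠ 0 → w * star w * w = w → w * (p - star V * V) = w →
        (q - V * star V) * w = w → ‖w ξ‖ < ‖star w ξ'‖ := by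
  let S : Set (Op H) := {V | (V ∈ M ∧ V * star V * V = V ∧ V * p = V ∧ q * V = V) ∧
    0 ≤ exhP_F ξ ξ' V}
  have h0 : (0 : Op H) ∈ S := ⟨⟨zero_mem M, by simp, by simp, by simp⟩, by simp [exhP_F]⟩
  obtain ⟨⟨V, ⟨hV, v1, v2, v3⟩, v4⟩, hmax⟩ := exists_maximal_of_chains_bounded
    (r := fun V W : S => exhP_Ext V.1 W.1 ∧ exhP_F ξ ξ' V.1 ≤ exhP_F ξ ξ' W.1)
    (fun c hc => by
      rcases c.eq_empty_or_nonempty with rfl | ⟨V₀, hV₀⟩
      · exact ⟨⟨0, h0⟩, fun a ha => ha.elim⟩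
      obtain ⟨X, hX, x1, x2, x3, x4⟩ := exhP_chain (M := M) hp hq ξ ξ' (Subtype.val '' c)
        (by
          rintro _ ⟨V, -, rfl⟩
          exact V.2.1)
        (by
          rintro _ ⟨V, hV, rfl⟩ _ ⟨W, hW, rfl⟩
          by_cases e : V = W
          · subst e
            exact Or.inl ⟨exhP_refl V.2.1.2.1, le_rfl⟩
          · exact hc hV hW e)
      exact ⟨⟨X, ⟨hX, x1, x2, x3⟩, V₀.2.2.trans (x4 _ ⟨V₀, hV₀, rfl⟩).2⟩,
        fun a ha => x4 _ ⟨a, ha, rfl⟩⟩)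
    (fun h h' => ⟨exhP_trans h.1 h'.1, h.2.trans h'.2⟩)
  refine ⟨V, hV, v1, v2, v3, ?_, fun w hw w0 w1 w2 w3 => ?_⟩
  · unfold exhP_F at v4
    exact abs_le_of_sq_le_sq' (by linarith) (norm_nonneg _) |>.2
  by_contra hlt
  rw [not_lt] at hlt
  have pV := mul_star_eq hp.isSelfAdjoint v2
  have Vq := star_mul_eq hq.isSelfAdjoint v3
  have a1 : w * star V = 0 := by
    rw [← w2, mul_assoc, sub_mul, pV, piso_star v1, sub_self, mul_zero]
  have a2 : star V * w = 0 := by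
    rw [← w3, ← mul_assoc, mul_sub, Vq, ← mul_assoc, piso_star v1, sub_self, zero_mul]
  have a3 : V * star w = 0 := by
    have := congrArg star a1
    rwa [star_mul, star_star, star_zero] at this
  have a4 : star w * V = 0 := by
    have := congrArg star a2
    rwa [star_mul, star_star, star_zero] at this
  have a5 : w * p = w := by
    rw [← w2, mul_assoc, sub_mul, hp.isIdempotentElem.eq, mul_assoc (star V), v2]
  have a6 : q * w = w := by
    rw [← w3, ← mul_assoc, mul_sub, hq.isIdempotentElem.eq, ← mul_assoc, v3]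
  have b1 : (V + w) * star (V + w) * (V + w) = V + w := by
    rw [star_add, add_mul V, mul_add V, mul_add w, a1, a3, add_zero, zero_add, add_mul, mul_add,
      mul_add, v1, w1, mul_assoc V, a2, mul_assoc w, a4, mul_zero, mul_zero, add_zero, zero_add]
  have b2 : exhP_F ξ ξ' V ≤ exhP_F ξ ξ' (V + w) := by
    unfold exhP_F
    rw [exhP_add a2, star_add, exhP_add (V := star V) (w := star w) (by rw [star_star, a3])]
    have : ‖star w ξ'‖ ^ 2 ≤ ‖w ξ‖ ^ 2 := by gcongr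
    linarith
  have b3 : exhP_Ext V (V + w) :=
    ⟨by rw [add_mul, ← mul_assoc, v1, ← mul_assoc, a1, zero_mul, add_zero],
      by rw [star_add, add_mul, a4, add_zero]⟩
  have b4 := (hmax ⟨V + w, ⟨add_mem hV hw, b1, by rw [add_mul, v2, a5], by rw [mul_add, v3, a6]⟩,
    v4.trans b2⟩ ⟨b3, b2⟩).1.1
  change V * (star (V + w) * (V + w)) = V + w at b4
  rw [star_add, ← mul_assoc, mul_add V, a3, add_zero, mul_add, v1, mul_assoc, a2, mul_zero] at b4
  exact w0 (add_left_cancel b4).symm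

end

set_option linter.unusedVariables false in
theorem exhP (ξ ξ' : H) {p q : Op H} (hp : IsStarProjection p) (hpM : p ∈ M)
    (hq : IsStarProjection q) (hqM : q ∈ M) :
    ∃ V ∈ M, V * star V * V = V ∧ V * p = V ∧ q * V = V ∧ ‖star V ξ'‖ ≤ ‖V ξ‖ ∧
      ∀ w ∈ M, w * star w * w = w → w ≠ 0 → w * (p - star V * V) = w →
        (q - V * star V) * w = w → ‖w ξ‖ < ‖star w ξ'‖ := by
  obtain ⟨V, hV, v1, v2, v3, v4, v5⟩ := exhP_main (M := M) hp hq ξ ξ'
  exact ⟨V, hV, v1, v2, v3, v4, fun w hw h1 h0 => v5 w hw h0 h1⟩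

end Pool.Agent.Kad.H3
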