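import Pool.Agent.Lib.MP_22c5db_an.H3.Basic

/-! Folding with central weights. -/

open scoped InnerProductSpace ComplexConjugate
open Finset

noncomputable section

namespace Pool.Agent.Kad.H3

open Pool.Agent.Kad.H2

universe u

set_option linter.unusedSectionVars false

variable {H : Type u} [NormedAddCommGroup H] [InnerProductSpace ℂ H] [CompleteSpace H]
  {M : VonNeumannAlgebra H} {τ : Op H →ₗ[ℝ] ℝ} {φ : Bil H} {C : ℝ}
  {ι : Type} [Fintype ι] [DecidableEq ι] {e : ι → ι → Op H}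

theorem fold_add {y a : Op H} (hy : IsStarProjection y) (h : y * a = a * y) (ζ : H) :
    ‖a ζ‖ ^ 2 = ‖a (y ζ)‖ ^ 2 + ‖a ((1 - y) ζ)‖ ^ 2 := by
  have h' : (1 - y) * a = a * (1 - y) := by rw [sub_mul, mul_sub, h, one_mul, mul_one]
  rw [Conc.proj_sq hy (a ζ), ← Conc.ap, ← Conc.ap, h, h', Conc.ap, Conc.ap]

theorem fold' [Nonempty ι] (h : Nrm M φ e C) (hz : ZN M φ) {I T : Type} [Fintype I]
    [DecidableEq I] [Fintype T] (π : T → I) {x : T → Op H} (hx : ∀ r, x r ∈ M)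
    (hx1 : ∀ i ξ, ∑ r with π r = i, ‖x r ξ‖ ^ 2 ≤ ‖ξ‖ ^ 2) {b : I → Op H} (hb : ∀ i, b i ∈ M)
    {F : I → Finset ι} (hF : ∀ i, pF e (F i) * b i = b i) {z : I → Op H} (hc : ∀ i, Cen M (z i))
    (hbz : ∀ i, b i * z i = b i) {t : ℝ} (ht : 0 ≤ t) (hb1 : Cl b t) (ζ : H) :
    ∑ r, ‖φ (x r) (b (π r)) ζ‖ ^ 2 ≤ (C * t) ^ 2 *
      (‖ζ‖ ^ 2 + 2 * ∑ i, ‖z i ζ‖ ^ 2 * ((F i).card / Fintype.card ι)) := by
  by_contra hcon
  obtain ⟨c, hcc, h1, h2⟩ := Conc.refine_cen (N := M)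
    (fun η => (C * t) ^ 2 * (‖η‖ ^ 2 + 2 * ∑ i, ‖z i η‖ ^ 2 * ((F i).card / Fintype.card ι)) -
      ∑ r, ‖φ (x r) (b (π r)) η‖ ^ 2)
    (fun y hy η => by
      have a1 : ∑ r, ‖φ (x r) (b (π r)) η‖ ^ 2 = ∑ r, ‖φ (x r) (b (π r)) (y η)‖ ^ 2 +
          ∑ r, ‖φ (x r) (b (π r)) ((1 - y) η)‖ ^ 2 := by
        rw [← sum_add_distrib]
        exact sum_congr rfl fun r _ => fold_add hy.1 (hz.comm h.cc hy (hx r) (hb _)) η
      have a2 : ∑ i, ‖z i η‖ ^ 2 * (((F i).card : ℝ) / Fintype.card ι) =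
          ∑ i, ‖z i (y η)‖ ^ 2 * (((F i).card : ℝ) / Fintype.card ι) +
            ∑ i, ‖z i ((1 - y) η)‖ ^ 2 * (((F i).card : ℝ) / Fintype.card ι) := by
        rw [← sum_add_distrib]
        exact sum_congr rfl fun i _ => by
          rw [fold_add hy.1 (hy.2.2 _ (hc i).2.1) η, add_mul]
      rw [a1, a2, Conc.proj_sq hy.1 η]
      ring)
    (ζ := ζ) (sub_neg.2 (not_le.1 hcon)) z hc univ
  classical
  have h3 := fold h π hx hx1 (b := fun i => if z i * c = 0 then 0 else b i)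
    (F := fun i => if z i * c = 0 then ∅ else F i) (t := t)
    (fun i => by
      split_ifs
      · exact zero_mem _
      · exact hb i)
    (fun i => by
      split_ifs
      · exact mul_zero _
      · exact hF i) ht
    (fun ξ => by
      refine le_trans (sum_le_sum fun i _ => ?_) (hb1 ξ)
      beta_reduce
      split_ifs
      · simp
      · exact le_rfl) (c ζ)
  have h4 : ∀ r, ‖φ (x r) (if z (π r) * c = 0 then 0 else b (π r)) (c ζ)‖ ^ 2 =
      ‖φ (x r) (b (π r)) (c ζ)‖ ^ 2 := fun r => by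
    split_ifs with h0
    · rw [← hbz (π r), hz.right h.cc (hc _) (hx r) (hb _), Conc.ap, ← Conc.ap (z (π r)), h0]
      simp
    · rfl
  have h5 : ∀ i, ‖z i (c ζ)‖ ^ 2 * (((F i).card : ℝ) / Fintype.card ι) =
      ‖c ζ‖ ^ 2 * (((if z i * c = 0 then ∅ else F i).card : ℝ) / Fintype.card ι) := fun i => by
    rw [← Conc.ap]
    split_ifs with h0
    · rw [h0]
      simp
    · rw [(h2 i (mem_univ i)).resolve_right h0]
  simp only [h4] at h3
  simp only [h5] at h1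
  rw [← mul_sum, ← sum_div] at h1
  rw [Nat.cast_sum] at h3
  nlinarith

end Pool.Agent.Kad.H3
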