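import Pool.Agent.Lib.MP_22c5db_an.H3.Layer

/-! Normalisation over matrix units, and the case of finite type one. -/

open scoped InnerProductSpace ComplexConjugate
open Finset

noncomputable section

namespace Pool.Agent.Kad.H3

open Pool.Agent.Kad.H2

universe u

set_option linter.unusedSectionVars false

variable {H : Type u} [NormedAddCommGroup H] [InnerProductSpace ℂ H] [CompleteSpace H]
  {M : VonNeumannAlgebra H} {τ : Op H →ₗ[ℝ] ℝ} {φ : Bil H} {C : ℝ}
  {ι : Type} [Fintype ι] [DecidableEq ι] {e : ι → ι → Op H}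

theorem norm_zm_right (hz : ZN M φ) (h : CC M φ) {T : Type} [Fintype T] {u : T → Op H}
    (hu : ∀ r, u r ∈ M) : ZM M (right_avg φ u 1) := by
  intro z hc
  refine ⟨?_, fun x hx => ⟨?_, ?_⟩⟩
  · rw [right_avg_apply, sum_eq_zero fun r _ => by
      rw [one_mul, (hz z hc _ (hu r)).1, zero_mul], smul_zero]
  · rw [right_avg_apply, right_avg_apply, mul_smul_comm, mul_sum]
    refine congrArg _ (sum_congr rfl fun r _ => ?_)
    rw [one_mul, hz.left h hc hx (hu r), mul_assoc]
  · rw [right_avg_apply, mul_smul_comm, smul_mul_assoc, mul_sum, sum_mul]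
    refine congrArg _ (sum_congr rfl fun r _ => ?_)
    rw [one_mul, ← mul_assoc, hz.comm h hc hx (hu r), mul_assoc, mul_assoc,
      hc.2.2 _ (star_mem (hu r))]

theorem normalise' [Nonempty ι] (h : CC M φ) (hc : Col M φ C) (hC : 0 ≤ C) (hz : ZN M φ)
    (he : MU e 1) (heM : ∀ i j, e i j ∈ M) :
    ∃ β : Op H →ₗ[ℂ] Op H, Bd M β (3 * C) ∧ Nrm M (φ - cob β) e (4 * C) ∧
      ZN M (φ - cob β) := by
  obtain ⟨hb, hc'⟩ := bl_col h hc hC he heM
  have h' : CC M (φ - cob (bl φ e)) := h.sub_cob _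
  have hl : ∀ i j, ∀ y ∈ M, (φ - cob (bl φ e)) (e i j) y = 0 := fun i j y hy =>
    bl_left h he heM i j hy
  obtain ⟨T, _, _, g, hg⟩ := design he
  have hu : ∀ r, rho e (g r) ∈ M ∧ rho e (g r) ∈ unitary (Op H) := fun r =>
    ⟨rho_mem heM _, he.rho_unitary _⟩
  have hC2 : 0 ≤ 2 * C := by positivity
  obtain ⟨ψ, hψ⟩ : ∃ ψ, ψ = φ - cob (bl φ e) := ⟨_, rfl⟩
  rw [← hψ] at hc' h' hl
  obtain ⟨u, hud⟩ : ∃ u : T → Op H, u = fun r => rho e (g r) := ⟨_, rfl⟩
  have hu' : ∀ r, u r ∈ M ∧ u r ∈ unitary (Op H) := hud ▸ hu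
  have e0 : φ - cob (bl φ e + right_avg ψ u 1) = ψ - cob (right_avg ψ u 1) := by
    refine LinearMap.ext₂ fun x y => ?_
    have e1 : ψ x y = φ x y - cob (bl φ e) x y := by rw [hψ]; rfl
    rw [cob_add, LinearMap.sub_apply, LinearMap.sub_apply, LinearMap.add_apply,
      LinearMap.add_apply, LinearMap.sub_apply, LinearMap.sub_apply, e1, sub_sub]
  have hd : ∀ x y, right_avg ψ u y x =
      (Fintype.card ι : ℂ)⁻¹ • ∑ s, ∑ t, ψ x (y * e s t) * e t s := by
    intro x y
    rw [right_avg_apply, hud]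
    exact hg ((ψ x).comp (LinearMap.mulLeft ℂ y))
  have hzψ : ZN M ψ := hψ ▸ hz.sub_cob (zm_bl hz h heM)
  refine ⟨bl φ e + right_avg ψ u 1, fun a ha => ?_, ?_,
    hz.sub_cob ((zm_bl hz h heM).add (norm_zm_right hzψ h' fun r => (hu' r).1))⟩
  · have h1 : ‖right_avg ψ u 1 a‖ ≤ 2 * C * ‖a‖ := by
      refine ContinuousLinearMap.opNorm_le_bound _ (by positivity) fun ζ => ?_
      have h2 := right_col_one hc' hC2 hu' (x := fun _ : Unit => a) (fun _ => ha) (norm_nonneg a)
        (cl_one a) ζ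
      rw [Fintype.sum_unique] at h2
      exact (pow_le_pow_iff_left₀ (norm_nonneg _) (by positivity) two_ne_zero).1 h2
    have h2 := hb a ha
    rw [LinearMap.add_apply]
    refine (norm_add_le _ _).trans ?_
    linarith
  · rw [e0]
    refine ⟨h'.sub_cob _, fun κ _ x hx t ht h1 y hy ζ => ?_, by positivity, he, heM,
      fun i j y hy => ?_, fun x hx i j => ?_⟩
    · have h2 := right_col hc' hu' hx ht h1 hy ζ
      have h3 := right_col_one hc' hC2 hu' hx ht h1 (y ζ)
      have h4 : (2 * C * t * ‖y ζ‖) ^ 2 ≤ (2 * C * t * ‖y‖ * ‖ζ‖) ^ 2 := by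
        refine pow_le_pow_left₀ (by positivity) ?_ 2
        rw [mul_assoc (2 * C * t)]
        exact mul_le_mul_of_nonneg_left (y.le_opNorm ζ) (by positivity)
      have h5 : ∀ i, ‖(ψ - cob (right_avg ψ u 1)) (x i) y ζ‖ ^ 2 ≤
          2 * ‖right_avg ψ u y (x i) ζ‖ ^ 2 + 2 * ‖right_avg ψ u 1 (x i) (y ζ)‖ ^ 2 := by
        intro i
        rw [right_sub h' hu' (hx i) hy, ContinuousLinearMap.sub_apply,
          ContinuousLinearMap.mul_apply]
        have h6 := pow_le_pow_left₀ (norm_nonneg _)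
          (norm_sub_le (right_avg ψ u y (x i) ζ) (right_avg ψ u 1 (x i) (y ζ))) 2
        nlinarith [sq_nonneg (‖right_avg ψ u y (x i) ζ‖ - ‖right_avg ψ u 1 (x i) (y ζ)‖)]
      refine (sum_le_sum fun i _ => h5 i).trans ?_
      rw [sum_add_distrib, ← mul_sum, ← mul_sum]
      have h7 : (4 * C * t * ‖y‖ * ‖ζ‖) ^ 2 = 4 * (2 * C * t * ‖y‖ * ‖ζ‖) ^ 2 := by ring
      linarith
    · have h2 : ∀ z ∈ M, right_avg ψ u z (e i j) = 0 := fun z hz => by
        rw [right_avg_apply, sum_eq_zero fun r _ => by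
          rw [hl i j _ (mul_mem hz (hu' r).1), zero_mul], smul_zero]
      rw [right_sub h' hu' (heM i j) hy, h2 y hy, h2 1 (one_mem M), zero_mul, sub_zero]
    · rw [right_sub h' hu' hx (heM i j), hd, hd, smul_mul_assoc, ← smul_sub]
      have h2 : ∑ s, ∑ t, ψ x (e i j * e s t) * e t s = ∑ t, ψ x (e i t) * e t j := by
        rw [sum_eq_single j]
        · simp only [he.mul, if_true]
        · intro s _ hs
          simp only [he.mul, if_neg (Ne.symm hs), map_zero, zero_mul, sum_const_zero]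
        · simp
      have h3 : (∑ s, ∑ t, ψ x (1 * e s t) * e t s) * e i j = ∑ t, ψ x (e i t) * e t j := by
        simp only [sum_mul, one_mul, mul_assoc, he.mul]
        rw [sum_eq_single i]
        · simp only [if_true]
        · intro s _ hs
          simp only [if_neg hs, mul_zero, sum_const_zero]
        · simp
      rw [h2, h3, sub_self, smul_zero]

/-- a bounded map that kills the central projections kills the positive central elements -/
theorem norm_pos_cen (hb : Bd2 M φ C) (hC : 0 ≤ C) (hz : ZN M φ) {c y : Op H} (hc : c ∈ M)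
    (h0 : 0 ≤ c) (hs : ∀ s ∈ M, s * c = c * s) (hy : y ∈ M) : φ c y = 0 := by
  refine ContinuousLinearMap.ext fun ζ => ?_
  obtain ⟨η, hη⟩ : ∃ η, η = φ c y ζ := ⟨_, rfl⟩
  let f : Op H →ₗ[ℝ] ℝ :=
    Complex.reLm ∘ₗ (((innerSL ℂ η).toLinearMap ∘ₗ lfEv φ y ζ).restrictScalars ℝ)
  have hf : ∀ x, f x = (⟪η, φ x y ζ⟫_ℂ).re := fun x => rfl
  have h1 : 0 ≤ (-f) c := by
    refine layer (M := M) (M : Set (Op H)) (-f) (c := ‖η‖ * (C * ‖y‖ * ‖ζ‖)) (by positivity)
      (fun x hx => ?_) (fun q hq hp hqs => ?_) hc h0 hs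
    · rw [LinearMap.neg_apply, abs_neg, hf, mul_assoc]
      exact (Complex.abs_re_le_norm _).trans ((norm_inner_le_norm _ _).trans
        (mul_le_mul_of_nonneg_left (lfEv_le hb hy ζ x hx) (norm_nonneg _)))
    · rw [LinearMap.neg_apply, hf, (hz q ⟨hp, hq, fun x hx => (hqs x hx).symm⟩ y hy).1]
      simp
  rw [LinearMap.neg_apply, hf, ← hη] at h1
  have h2 : (⟪η, η⟫_ℂ).re = ‖η‖ ^ 2 := inner_self_eq_norm_sq (𝕜 := ℂ) η
  have h3 : ‖η‖ ^ 2 = 0 := le_antisymm (by linarith) (sq_nonneg _)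
  rw [← hη]
  exact norm_eq_zero.1 (pow_eq_zero_iff two_ne_zero |>.1 h3)

theorem norm_cen (hb : Bd2 M φ C) (hC : 0 ≤ C) (hz : ZN M φ) {c y : Op H} (hc : c ∈ M)
    (hs : ∀ s ∈ M, s * c = c * s) (hy : y ∈ M) : φ c y = 0 := by
  have key : ∀ ω : ℂ, φ (star (c + ω • 1) * (c + ω • 1)) y = 0 := by
    intro ω
    have h1 : c + ω • (1 : Op H) ∈ M := add_mem hc (smul_mem' ω (one_mem M))
    have h2 : ∀ s ∈ M, s * (c + ω • (1 : Op H)) = (c + ω • (1 : Op H)) * s := fun s hsM => by
      rw [mul_add, add_mul, hs s hsM, mul_smul_comm, smul_mul_assoc, mul_one, one_mul]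
    refine norm_pos_cen hb hC hz (mul_mem (star_mem h1) h1) (star_mul_self_nonneg _)
      (fun s hsM => ?_) hy
    have h3 : s * star (c + ω • (1 : Op H)) = star (c + ω • (1 : Op H)) * s := by
      have h4 := congrArg star (h2 _ (star_mem hsM))
      rw [star_mul, star_mul, star_star] at h4
      exact h4.symm
    rw [← mul_assoc, h3, mul_assoc, h2 s hsM, mul_assoc]
  have ex : ∀ ω : ℂ, star (c + ω • (1 : Op H)) * (c + ω • 1) =
      star c * c + ω • star c + star ω • c + (star ω * ω) • (1 : Op H) := fun ω => by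
    rw [star_add, star_smul, star_one, add_mul, mul_add, mul_add, mul_smul_comm, smul_mul_assoc,
      smul_mul_smul_comm, mul_one, one_mul, one_mul]
    abel
  have k : ∀ ω : ℂ, φ (star c * c) y + ω • φ (star c) y + star ω • φ c y +
      (star ω * ω) • φ 1 y = 0 := fun ω => by
    have h1 := key ω
    rw [ex] at h1
    simpa only [map_add, map_smul, LinearMap.add_apply, LinearMap.smul_apply] using h1
  have k1 := k 1
  have k2 := k (-1)
  have k3 := k Complex.I
  have k4 := k (-Complex.I)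
  simp only [star_one, star_neg, Complex.star_def, Complex.conj_I, map_one, map_neg, neg_neg,
    neg_mul, mul_neg, Complex.I_mul_I, mul_one] at k1 k2 k3 k4
  have h4 : (4 : ℂ) • φ c y = 0 := by
    have e1 : (4 : ℂ) • φ c y = (φ (star c * c) y + (1 : ℂ) • φ (star c) y + (1 : ℂ) • φ c y +
        (1 : ℂ) • φ 1 y) - (φ (star c * c) y + (-1 : ℂ) • φ (star c) y + (-1 : ℂ) • φ c y +
        (1 : ℂ) • φ 1 y) + Complex.I • (φ (star c * c) y + Complex.I • φ (star c) y +
        (-Complex.I) • φ c y + (1 : ℂ) • φ 1 y) - Complex.I • (φ (star c * c) y +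
        (-Complex.I) • φ (star c) y + Complex.I • φ c y + (1 : ℂ) • φ 1 y) := by
      simp only [smul_add, smul_smul, mul_neg, Complex.I_mul_I, neg_neg]
      module
    rw [e1, k1, k2, k3, k4]
    simp
  exact (smul_eq_zero.1 h4).resolve_left (by norm_num)

/-- the entries over matrix units with an abelian corner are central -/
theorem norm_ent_cen (he : MU e 1) (heM : ∀ i j, e i j ∈ M) {i₀ : ι} (hab : Ab M (e i₀ i₀))
    {x : Op H} (hx : x ∈ M) (i j : ι) {y : Op H} (hy : y ∈ M) :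
    y * ∑ s, e s i * x * e j s = (∑ s, e s i * x * e j s) * y := by
  have m : ∀ a b c, e a b * e b c = e a c := fun a b c => by rw [he.mul, if_pos rfl]
  have m' : ∀ a b c (w : Op H), e a b * (e b c * w) = e a c * w := fun a b c w => by
    rw [← mul_assoc, m]
  have h1 : ∀ s t, e s s * (y * (e t i * x * e j t)) = e s i * x * e j s * y * e t t := by
    intro s t
    have h2 := hab (e i₀ s * y * e t i₀) (mul_mem (mul_mem (heM _ _) hy) (heM _ _))
      (e i₀ i * x * e j i₀) (mul_mem (mul_mem (heM _ _) hx) (heM _ _))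
    have h3 := congrArg (fun w => e s i₀ * w * e i₀ t) h2
    simp only [mul_assoc, m, m'] at h3 ⊢
    exact h3
  calc y * ∑ t, e t i * x * e j t = (∑ s, e s s) * (y * ∑ t, e t i * x * e j t) := by
        rw [he.sum, one_mul]
    _ = ∑ s, ∑ t, e s i * x * e j s * y * e t t := by
        rw [sum_mul]
        refine sum_congr rfl fun s _ => ?_
        rw [mul_sum, mul_sum]
        exact sum_congr rfl fun t _ => h1 s t
    _ = (∑ s, e s i * x * e j s) * y := by
        rw [sum_mul]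
        refine sum_congr rfl fun s _ => ?_
        rw [← mul_sum, he.sum, mul_one]

theorem norm_expand (he : MU e 1) (x : Op H) :
    x = ∑ i, ∑ j, (∑ s, e s i * x * e j s) * e i j := by
  have h1 : ∀ i j, (∑ s, e s i * x * e j s) * e i j = e i i * x * e j j := by
    intro i j
    rw [sum_mul, sum_eq_single i]
    · rw [mul_assoc, he.mul, if_pos rfl]
    · intro s _ hs
      rw [mul_assoc, he.mul, if_neg hs, mul_zero]
    · simp
  simp only [h1, ← mul_sum, ← sum_mul, he.sum, one_mul, mul_one]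

theorem loc_one (h : CC M φ) (hb : Bd2 M φ C) (hC : 0 ≤ C) (hz : ZN M φ) (he : MU e 1)
    (heM : ∀ i j, e i j ∈ M) {i₀ : ι} (hab : Ab M (e i₀ i₀)) : Loc M φ (3 * C) := by
  have : Nonempty ι := ⟨i₀⟩
  have hβ := bl_bd hb hC he heM
  have h' : CC M (φ - cob (bl φ e)) := h.sub_cob _
  have hz' : ZN M (φ - cob (bl φ e)) := hz.sub_cob (zm_bl hz h heM)
  have hb' := bd2_sub_cob hb (by positivity) hβ
  have hl : ∀ i j, ∀ y ∈ M, (φ - cob (bl φ e)) (e i j) y = 0 := fun i j y hy =>
    bl_left h he heM i j hy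
  have key : ∀ x ∈ M, ∀ y ∈ M, (φ - cob (bl φ e)) x y = 0 := by
    intro x hx y hy
    obtain ⟨ψ, hψ⟩ : ∃ ψ, ψ = φ - cob (bl φ e) := ⟨_, rfl⟩
    rw [← hψ] at h' hz' hb' hl ⊢
    rw [norm_expand he x, map_sum, LinearMap.sum_apply]
    refine sum_eq_zero fun i _ => ?_
    rw [map_sum, LinearMap.sum_apply]
    refine sum_eq_zero fun j _ => ?_
    have hc : ∑ s, e s i * x * e j s ∈ M :=
      sum_mem fun s _ => mul_mem (mul_mem (heM _ _) hx) (heM _ _)
    have h0 : ∀ w ∈ M, ψ (∑ s, e s i * x * e j s) w = 0 := fun w hw =>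
      norm_cen hb' (by positivity) hz' hc (fun s hs => norm_ent_cen he heM hab hx i j hs) hw
    rw [h' _ hc _ (heM i j) y hy, hl i j y hy, h0 _ (mul_mem (heM i j) hy), h0 _ (heM i j)]
    simp
  intro ξ
  refine ⟨bl φ e, hβ, fun x hx y hy b _ => ?_⟩
  have h1 := key x hx y hy
  rw [LinearMap.sub_apply, LinearMap.sub_apply, sub_eq_zero] at h1
  rw [h1]

end Pool.Agent.Kad.H3
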