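import Pool.Agent.Lib.MP_22c5db_an.H3.Extr

/-! Elements with a left support of small trace. -/

open scoped InnerProductSpace ComplexConjugate
open Finset

noncomputable section

namespace Pool.Agent.Kad.H3

open Pool.Agent.Kad.H2

universe u

set_option linter.unusedSectionVars false

variable {H : Type u} [NormedAddCommGroup H] [InnerProductSpace ℂ H] [CompleteSpace H]
  {M : VonNeumannAlgebra H} {τ : Op H →ₗ[ℝ] ℝ} {φ : Bil H} {C : ℝ}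
  {ι : Type} [Fintype ι] [DecidableEq ι] {e : ι → ι → Op H}

variable {ζ : H} {G : Op H →L[ℝ] ℝ}

theorem sup_three (a b c : H) : ‖a + b + c‖ ^ 2 ≤ 3 * (‖a‖ ^ 2 + ‖b‖ ^ 2 + ‖c‖ ^ 2) := by
  have h1 : ‖a + b + c‖ ≤ ‖a‖ + ‖b‖ + ‖c‖ := norm_add₃_le
  have h2 := pow_le_pow_left₀ (norm_nonneg _) h1 2
  nlinarith [sq_nonneg (‖a‖ - ‖b‖), sq_nonneg (‖a‖ - ‖c‖), sq_nonneg (‖b‖ - ‖c‖)]

theorem sup_sq {b w : Op H} (hb : b ∈ M) (hw : Cen M w) :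
    star (b * w) * (b * w) = w * (star b * b) := by
  rw [star_mul, hw.1.isSelfAdjoint.star_eq, ← hw.2.2 b hb, mul_assoc, ← mul_assoc (star b),
    ← hw.2.2 _ (star_mem hb), mul_assoc, ← mul_assoc, hw.1.isIdempotentElem.eq]

theorem sup_piece (h : Nrm M φ e C) (hG : Dom M τ φ e C ζ G) (hZ : FlatZ M φ e C ζ G) {κ : Type}
    [Fintype κ] {x : κ → Op H} (hx : ∀ l, x l ∈ M) (hx1 : Cl x 1) {b l w t : Op H} (hb : b ∈ M)
    (hl : IsStarProjection l) (hlM : l ∈ M) (hlb : l * b = b) (hw : Cen M w) (ht : t ∈ M)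
    (htt : star t * t = w * l) {F : Finset ι} (hFt : pF e F * t = t) :
    ∑ i, ‖φ (x i) (b * w) ζ‖ ^ 2 ≤ C ^ 2 * (39 * G (star (b * w) * (b * w)) +
      24 * ‖w ζ‖ ^ 2 * ‖b‖ ^ 2 * (F.card / Fintype.card ι)) := by
  have hww : w * w = w := hw.1.isIdempotentElem.eq
  have hmM : star t ∈ M := star_mem ht
  have hbw : b * w ∈ M := mul_mem hb hw.2.1
  have hcM : t * (b * w) ∈ M := mul_mem ht hbw
  have hmb : star t * (t * (b * w)) = b * w := by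
    rw [← mul_assoc, htt, mul_assoc, ← mul_assoc l, hlb, ← mul_assoc, hw.2.2 b hb, mul_assoc, hww]
  have hbb : star (t * (b * w)) * (t * (b * w)) = star (b * w) * (b * w) := by
    rw [star_mul t, mul_assoc, hmb]
  have hnb : ‖t * (b * w)‖ ^ 2 ≤ ‖b‖ ^ 2 := by
    have h1 : ‖t * (b * w)‖ ^ 2 = ‖b * w‖ ^ 2 := by
      rw [sq, sq, ← CStarRing.norm_star_mul_self, hbb, CStarRing.norm_star_mul_self]
    rw [h1]
    refine pow_le_pow_left₀ (norm_nonneg _) ((norm_mul_le _ _).trans ?_) 2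
    exact mul_le_of_le_one_right (norm_nonneg _) hw.1.norm_le
  have hm1 : ‖star t‖ ≤ 1 := by
    rw [norm_star]
    have h1 : ‖t‖ * ‖t‖ ≤ 1 := by
      rw [← CStarRing.norm_star_mul_self, htt]
      exact (Conc.cen_proj hw hl hlM).norm_le
    nlinarith [norm_nonneg t]
  have hFb : pF e F * (t * (b * w)) = t * (b * w) := by rw [← mul_assoc, hFt]
  have hcw : t * (b * w) * w = t * (b * w) := by rw [mul_assoc, mul_assoc, hww]
  have cl_mono : ∀ {κ' : Type} [Fintype κ'] {y : κ' → Op H} {s : ℝ}, 0 ≤ s → s ≤ 1 → Cl y s →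
      Cl y 1 := by
    intro κ' _ y s hs0 hs1 hy ξ
    refine (hy ξ).trans (mul_le_mul_of_nonneg_right ?_ (sq_nonneg _))
    exact pow_le_pow_left₀ hs0 hs1 2
  have t1 := hZ κ (fun i => x i * star t) (fun i => mul_mem (hx i) hmM)
    (cl_mono (by positivity) (by rw [one_mul]; exact hm1) (hx1.mul (star t))) F _ hcM hFb w hw hcw
  have t2 := hZ Unit (fun _ => star t) (fun _ => hmM)
    (cl_mono (norm_nonneg _) hm1 (cl_one (star t))) F _ hcM hFb w hw hcw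
  rw [hbb] at t1 t2
  have t0 : C ^ 2 * (6 * G (star (b * w) * (b * w)) +
      4 * ‖w ζ‖ ^ 2 * ‖t * (b * w)‖ ^ 2 * (F.card / Fintype.card ι)) ≤
      C ^ 2 * (6 * G (star (b * w) * (b * w)) +
      4 * ‖w ζ‖ ^ 2 * ‖b‖ ^ 2 * (F.card / Fintype.card ι)) := by gcongr
  have t2' : ∑ i, ‖-(x i (φ (star t) (t * (b * w)) ζ))‖ ^ 2 ≤
      ∑ _i : Unit, ‖φ (star t) (t * (b * w)) ζ‖ ^ 2 := by
    have h1 := hx1 (φ (star t) (t * (b * w)) ζ)
    simpa using h1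
  have t3 : ∑ i, ‖φ (x i) (star t) ((t * (b * w)) ζ)‖ ^ 2 ≤
      C ^ 2 * G (star (b * w) * (b * w)) := by
    have h1 := h.col κ x hx 1 zero_le_one hx1 (star t) hmM ((t * (b * w)) ζ)
    have h2 := hG.vec (t * (b * w))
    rw [hbb] at h2
    have hC := h.c0
    refine h1.trans ?_
    calc (C * 1 * ‖star t‖ * ‖(t * (b * w)) ζ‖) ^ 2 ≤ (C * 1 * 1 * ‖(t * (b * w)) ζ‖) ^ 2 := by
          gcongr
      _ = C ^ 2 * ‖(t * (b * w)) ζ‖ ^ 2 := by ring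
      _ ≤ _ := mul_le_mul_of_nonneg_left h2 (sq_nonneg C)
  have e1 : ∀ i, φ (x i) (b * w) ζ = (φ (x i * star t) (t * (b * w)) ζ +
      -(x i (φ (star t) (t * (b * w)) ζ))) + φ (x i) (star t) ((t * (b * w)) ζ) := by
    intro i
    rw [h.cc (x i) (hx i) (star t) hmM (t * (b * w)) hcM, hmb]
    simp only [sub_apply, add_apply, mul_apply_eq_comp]
    abel
  have t4 : ∑ i, ‖φ (x i) (b * w) ζ‖ ^ 2 ≤ 3 * (∑ i, ‖φ (x i * star t) (t * (b * w)) ζ‖ ^ 2 +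
      ∑ i, ‖-(x i (φ (star t) (t * (b * w)) ζ))‖ ^ 2 +
      ∑ i, ‖φ (x i) (star t) ((t * (b * w)) ζ)‖ ^ 2) := by
    rw [← sum_add_distrib, ← sum_add_distrib, mul_sum]
    refine sum_le_sum fun i _ => ?_
    rw [e1 i]
    exact sup_three _ _ _
  linarith

/-- the left side is additive under central splitting -/
theorem sup_add (h : Nrm M φ e C) (hz : ZN M φ) {κ : Type} [Fintype κ] {x : κ → Op H}
    (hx : ∀ l, x l ∈ M) {b w y : Op H} (hb : b ∈ M) (hw : Cen M w) (hy : Cen M y) :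
    ∑ i, ‖φ (x i) (b * w) ζ‖ ^ 2 = ∑ i, ‖φ (x i) (b * (w * y)) ζ‖ ^ 2 +
      ∑ i, ‖φ (x i) (b * (w * (1 - y))) ζ‖ ^ 2 := by
  have hbw : b * w ∈ M := mul_mem hb hw.2.1
  have k : ∀ z, Cen M z → ∀ i, φ (x i) (b * (w * z)) ζ = z (φ (x i) (b * w) ζ) := fun z hc i => by
    rw [← mul_assoc, hz.right h.cc hc (hx i) hbw, ← hz.comm h.cc hc (hx i) hbw, mul_apply_eq_comp]
  rw [← sum_add_distrib]
  refine sum_congr rfl fun i _ => ?_
  rw [k y hy, k _ hy.one_sub]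
  exact Conc.proj_sq hy.1 _

theorem sup_one (hτ : Tr M τ) (hτz : ∀ z, Cen M z → ‖z ζ‖ ^ 2 ≤ 2 * ‖ζ‖ ^ 2 * τ z)
    (h : Nrm M φ e C) (hG : Dom M τ φ e C ζ G) (hZ : FlatZ M φ e C ζ G) {κ : Type}
    [Fintype κ] {x : κ → Op H} (hx : ∀ l, x l ∈ M) (hx1 : Cl x 1) {b l w t : Op H} (hb : b ∈ M)
    (hl : IsStarProjection l) (hlM : l ∈ M) (hlb : l * b = b) (hw : Cen M w) (ht : t ∈ M)
    (htt : star t * t = w * l) {F : Finset ι} (hFt : pF e F * t = t) {n : ℕ} (hF : F.card = n + 1)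
    (hn : n * τ w ≤ Fintype.card ι * τ (w * l)) :
    ∑ i, ‖φ (x i) (b * w) ζ‖ ^ 2 ≤ C ^ 2 * (39 * G (w * (star b * b)) +
      48 * ‖ζ‖ ^ 2 * ‖b‖ ^ 2 * (τ (w * l) + τ w / Fintype.card ι)) := by
  have hk : (0 : ℝ) < Fintype.card ι := Nat.cast_pos.2 (hτ.card_pos h.mu)
  refine (sup_piece h hG hZ hx hx1 hb hl hlM hlb hw ht htt hFt).trans ?_
  rw [sup_sq hb hw, hF]
  refine mul_le_mul_of_nonneg_left (add_le_add le_rfl ?_) (sq_nonneg C)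
  have h1 : τ w * (((n + 1 : ℕ) : ℝ) / Fintype.card ι) ≤ τ (w * l) + τ w / Fintype.card ι := by
    rw [← mul_div_assoc, div_le_iff₀ hk, add_mul, div_mul_cancel₀ _ hk.ne']
    push_cast
    linarith
  calc 24 * ‖w ζ‖ ^ 2 * ‖b‖ ^ 2 * (((n + 1 : ℕ) : ℝ) / Fintype.card ι)
      ≤ 24 * (2 * ‖ζ‖ ^ 2 * τ w) * ‖b‖ ^ 2 * (((n + 1 : ℕ) : ℝ) / Fintype.card ι) := by
        have h2 := hτz w hw
        gcongr
    _ = 48 * ‖ζ‖ ^ 2 * ‖b‖ ^ 2 * (τ w * (((n + 1 : ℕ) : ℝ) / Fintype.card ι)) := by ring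
    _ ≤ _ := mul_le_mul_of_nonneg_left h1 (by positivity)

theorem sup_ind (hτ : Tr M τ) (hτz : ∀ z, Cen M z → ‖z ζ‖ ^ 2 ≤ 2 * ‖ζ‖ ^ 2 * τ z)
    (h : Nrm M φ e C) (hz : ZN M φ) (hG : Dom M τ φ e C ζ G) (hZ : FlatZ M φ e C ζ G) {κ : Type}
    [Fintype κ] {x : κ → Op H} (hx : ∀ l, x l ∈ M) (hx1 : Cl x 1) {b l : Op H} (hb : b ∈ M)
    (hl : IsStarProjection l) (hlM : l ∈ M) (hlb : l * b = b) (j : ℕ) :
    ∀ n : ℕ, n + 1 + j = Fintype.card ι → ∀ w, Cen M w →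
      (∀ y, Cen M y → y * w = y → n * τ y ≤ Fintype.card ι * τ (y * l)) →
      ∑ i, ‖φ (x i) (b * w) ζ‖ ^ 2 ≤ C ^ 2 * (39 * G (w * (star b * b)) +
        48 * ‖ζ‖ ^ 2 * ‖b‖ ^ 2 * (τ (w * l) + τ w / Fintype.card ι)) := by
  induction j with
  | zero =>
    intro n hn w hw hy
    have hp := Conc.cen_proj hw hl hlM
    refine sup_one hτ hτz h hG hZ hx hx1 hb hl hlM hlb hw (mul_mem hw.2.1 hlM)
      (by rw [hp.isSelfAdjoint.star_eq, hp.isIdempotentElem.eq]) (F := univ) ?_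
      (by rw [card_univ, ← hn]) (hy w hw hw.1.isIdempotentElem.eq)
    rw [pF, h.mu.sum, one_mul]
  | succ j ih =>
    intro n hn w hw hy
    have hk : (0 : ℝ) ≤ Fintype.card ι := Nat.cast_nonneg _
    obtain ⟨F, -, hF⟩ := exists_subset_card_eq (s := (univ : Finset ι)) (n := n + 1)
      (by rw [card_univ]; omega)
    have hpM : pF e F ∈ M := sum_mem fun i _ => h.mem i i
    have hp := h.mu.proj F
    obtain ⟨z, hc, h1, h2⟩ := compare hl hp hlM hpM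
    obtain ⟨v, hv, hvv, hpv⟩ := h1.isom (Conc.cen_proj hc hl hlM) (mul_mem hc.2.1 hlM) hp
    obtain ⟨s, hs, hss, hls⟩ := h2.isom (Conc.cen_proj hc.one_sub hp hpM)
      (mul_mem hc.one_sub.2.1 hpM) hl
    have hww : w * w = w := hw.1.isIdempotentElem.eq
    have k1 := sup_one hτ hτz h hG hZ hx hx1 hb hl hlM hlb (hw.mul hc) (mul_mem hv hw.2.1)
      (by rw [sup_sq hv hw, hvv, mul_assoc]) (F := F) (by rw [← mul_assoc, hpv]) hF
      (hy _ (hw.mul hc) (by rw [mul_assoc, ← hw.2.2 z hc.2.1, ← mul_assoc, hww]))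
    have k2 := ih (n + 1) (by omega) _ (hw.mul hc.one_sub) fun y hy' hyw => by
      have e1 : y * (1 - z) = y := by
        rw [← hyw, mul_assoc, mul_assoc, hc.one_sub.1.isIdempotentElem.eq]
      have e2 := (Tr0.of hτ).le_cen hs (Conc.cen_proj hc.one_sub hp hpM) hl hlM hss hls hy'
      rw [← mul_assoc, e1] at e2
      have e3 := (Tr0.of hτ).pf_cen h.mu h.mem F hy'
      rw [hF] at e3
      rw [← e3]
      exact mul_le_mul_of_nonneg_left e2 hk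
    rw [sup_add h hz hx hb hw hc]
    refine (add_le_add k1 k2).trans (le_of_eq ?_)
    simp only [mul_sub, sub_mul, mul_one, map_sub]
    ring

theorem sup_of (hτ : Tr M τ) (hτz : ∀ z, Cen M z → ‖z ζ‖ ^ 2 ≤ 2 * ‖ζ‖ ^ 2 * τ z)
    (h : Nrm M φ e C) (hz : ZN M φ) (hG : Dom M τ φ e C ζ G) (hZ : FlatZ M φ e C ζ G) :
    Sup M τ φ (Fintype.card ι) (2 * C) ζ G := by
  intro κ _ x hx hx1 b hb l hlM hl hlb
  have hk := hτ.card_pos h.mu
  have hkR : (0 : ℝ) < Fintype.card ι := Nat.cast_pos.2 hk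
  have k := sup_ind hτ hτz h hz hG hZ hx hx1 hb hl hlM hlb (Fintype.card ι - 1) 0 (by omega) 1
    Cen.one fun y hy _ => by
      rw [Nat.cast_zero, zero_mul]
      exact mul_nonneg hkR.le (hτ.proj (Conc.cen_proj hy hl hlM) (mul_mem hy.2.1 hlM)).1
  rw [mul_one, one_mul, one_mul, hτ.one, one_div] at k
  have hτ0 : 0 ≤ τ l := (hτ.proj hl hlM).1
  have hC := h.c0
  have h2 := hG.pos.pos b
  have h3 := Real.sq_sqrt h2
  have h4 := Real.sqrt_nonneg (G (star b * b))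
  obtain ⟨r, hr⟩ : ∃ r : ℝ, r = √(τ l) + (√(Fintype.card ι : ℝ))⁻¹ := ⟨_, rfl⟩
  have hr0 : 0 ≤ r := by rw [hr]; positivity
  have hr2 : τ l + (Fintype.card ι : ℝ)⁻¹ ≤ r ^ 2 := by
    have e1 := Real.sq_sqrt hτ0
    have e2 : ((√(Fintype.card ι : ℝ))⁻¹) ^ 2 = (Fintype.card ι : ℝ)⁻¹ := by
      rw [inv_pow, Real.sq_sqrt hkR.le]
    have e3 : 0 ≤ √(τ l) * (√(Fintype.card ι : ℝ))⁻¹ := by positivity
    rw [hr]
    nlinarith
  rw [← hr]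
  have h5 : 0 ≤ ‖ζ‖ * ‖b‖ * r := by positivity
  refine Real.sqrt_le_iff.2 ⟨by positivity, k.trans ?_⟩
  have h6 : 48 * ‖ζ‖ ^ 2 * ‖b‖ ^ 2 * (τ l + (Fintype.card ι : ℝ)⁻¹) ≤
      48 * (‖ζ‖ * ‖b‖ * r) ^ 2 := by
    calc _ ≤ 48 * ‖ζ‖ ^ 2 * ‖b‖ ^ 2 * r ^ 2 := mul_le_mul_of_nonneg_left hr2 (by positivity)
      _ = _ := by ring
  calc _ ≤ C ^ 2 * (12 * √(G (star b * b)) + 8 * (‖ζ‖ * ‖b‖ * r)) ^ 2 := by
        refine mul_le_mul_of_nonneg_left ?_ (sq_nonneg C)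
        nlinarith [mul_nonneg h4 h5, sq_nonneg (‖ζ‖ * ‖b‖ * r)]
    _ = _ := by ring

theorem supAll (hT : HasT M) (h : Nrm M φ e C) (hz : ZN M φ) : SupAll M φ e (2 * C) := by
  intro ζ
  obtain ⟨τ, hτ, hτz⟩ := hT ζ
  obtain ⟨G, hG, hZ⟩ := exists_dom' hτ h hz ζ
  exact ⟨τ, G, hτ, dom_two hG, sup_of hτ hτz h hz hG hZ⟩

end Pool.Agent.Kad.H3
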