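import Pool.Agent.Lib.MP_22c5db_an.H3.Est
import Pool.Agent.Lib.MP_22c5db_an.H3.Sup
import Pool.Agent.Lib.MP_22c5db_an.H3.Norm
import Pool.Agent.Lib.MP_22c5db_an.H3.ColTwo
import Pool.Agent.Lib.MP_22c5db_an.H3.Exh
import Pool.Agent.Lib.MP_22c5db_an.H3.Blk

/-! The column estimate in the second variable for finite continuous algebras. -/

open scoped InnerProductSpace ComplexConjugate
open Finset

noncomputable section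

namespace Pool.Agent.Kad.H3

open Pool.Agent.Kad.H2

universe u

set_option linter.unusedSectionVars false

variable {H : Type u} [NormedAddCommGroup H] [InnerProductSpace ℂ H] [CompleteSpace H]
  {M : VonNeumannAlgebra H} {τ : Op H →ₗ[ℝ] ℝ} {φ : Bil H} {C : ℝ}
  {ι : Type} [Fintype ι] [DecidableEq ι] {e : ι → ι → Op H}

theorem kp_loc (hU : Uns M) (hT : HasT M) (h : CC M φ) (hc : Col M φ C) (hC : 0 ≤ C)
    (hz : ZN M φ) {κ : Type} [Fintype κ] {u v : κ → Op H}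
    (hu : ∀ j, u j ∈ M ∧ u j ∈ unitary (Op H)) (hv : ∀ j, v j ∈ M) (hv1 : Cl v 1) {z : Op H}
    (hzc : Cen M z) (hz0 : z ≠ 0) : ∃ w, Cen M w ∧ w ≠ 0 ∧ z * w = w ∧
      ∃ β : Op H →ₗ[ℂ] Op H, Bd M β (3 * C) ∧ ∀ (ζ : H) (χ : κ → H), w ζ = ζ →
        ‖∑ j, ⟪χ j, (φ - cob β) (u j) (v j) ζ⟫_ℂ‖ ≤ 10 ^ 8 * C * ‖ζ‖ * √(∑ j, ‖χ j‖ ^ 2) := by
  classical
  set m := Fintype.card κ + 1 with hm
  have hm0 : 0 < m := Nat.succ_pos _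
  have hm1 : (1 : ℝ) ≤ m := Nat.one_le_cast.2 hm0
  have hmi : (0 : ℝ) < (m : ℝ)⁻¹ := by positivity
  obtain ⟨a, L, α, hS, hW⟩ := scal.{u} hm0 hmi
  obtain ⟨δ, k₀, hP⟩ := exists_par hS
  obtain ⟨τ₀, hτ₀, -⟩ := hT 0
  obtain ⟨w, hw, hw0, hzw, σ, hσ, ι, _, _, e, he, heM, hk, hA⟩ := adL_ad hU hτ₀ (κ := κ ⊕ κ)
    (x := Sum.elim v fun j => u j * v j)
    (by rintro (j | j); exacts [hv j, mul_mem (hu j).1 (hv j)]) hmi k₀ hzc hz0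
  have : Nonempty ι := Fintype.card_pos_iff.1 (hτ₀.card_pos he)
  obtain ⟨β, hβ, hN, hZ⟩ := normalise' h hc hC hz he heM
  have hAll := supAll hT hN hZ
  obtain ⟨K, _, _, _, J, N, hJ⟩ := exists_frame (R := M) (.one _) (one_mem M) (Fin a)
  refine ⟨w, hw, hw0, hzw, β, hβ, fun ζ χ hζ => ?_⟩
  obtain ⟨τ, G, hτ, hG, hSp⟩ := hAll ζ
  have hv2 : ∀ j, ‖v j‖ ≤ 1 := fun j => hv1.norm_le zero_le_one j
  have hvw : ∀ j, v j * w ∈ M := fun j => mul_mem (hv j) hw.2.1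
  have hv3 : ∀ j, ‖v j * w‖ ≤ 1 := fun j =>
    (norm_mul_le _ _).trans (mul_le_one₀ (hv2 j) (norm_nonneg _) hw.1.norm_le)
  have hsum : ‖∑ j, star (v j) * v j‖ ≤ 1 := by simpa using cl_iff.1 hv1
  have hsum' : ‖∑ j, star (v j * w) * (v j * w)‖ ≤ 1 := by
    refine (cl_iff.1 (hv1.mul w)).trans ?_
    rw [one_mul]
    exact pow_le_one₀ (norm_nonneg _) hw.1.norm_le
  have ht : ∀ j, σ (star (v j) * v j) ≤ 1 := fun j => by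
    refine (hσ.le_norm (mul_mem (star_mem (hv j)) (hv j)) (star_mul_self_nonneg _)).trans ?_
    rw [CStarRing.norm_star_mul_self]
    exact mul_le_one₀ (hv2 j) (norm_nonneg _) (hv2 j)
  set t : κ → ℝ := fun j => G (star (v j * w) * (v j * w)) +
    ‖ζ‖ ^ 2 * (σ (star (v j) * v j) + (m : ℝ)⁻¹ + (m : ℝ)⁻¹) with htd
  have ht0 : ∀ j, 0 ≤ t j := fun j => by
    have h1 := hG.pos.pos (v j * w)
    have h2 := hσ.pos _ (hv j)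
    positivity
  have h1 : ∀ j, ‖⟪χ j, (φ - cob β) (u j) (v j) ζ⟫_ℂ‖ ≤
      2 * 10 ^ 6 * (2 * (4 * C)) * (√(t j) * ‖χ j‖) := by
    intro j
    have e1 : star (u j * v j) * (u j * v j) = star (v j) * v j := by
      rw [star_mul, mul_assoc, ← mul_assoc (star (u j)), (hu j).2.1, one_mul]
    have a1 := hA (Sum.inl j)
    have a2 := hA (Sum.inr j)
    simp only [Sum.elim_inl, Sum.elim_inr, e1] at a1 a2
    have h2 := hσ.pos _ (hv j)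
    have k := estZ (A := Fin a) hAll hτ hJ (nrm_two hN) (by rwa [Fintype.card_fin])
      (by rw [Fintype.card_fin]; exact hP _ hk) (by rw [Fintype.card_fin]; exact hW K)
      (Unitary.star_mem (hu j).2) (star_mem (hu j).1) (hvw j) (hv3 j) (by positivity)
      (by linarith [ht j, inv_le_one_of_one_le₀ hm1]) a1 (by rwa [star_star, ← mul_assoc]) hG hSp
      (star (u j) (χ j))
    rw [star_star, ← RM.mapp, (hu j).2.2, one_apply_eq_self,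
      hZ.right hN.cc hw (hu j).1 (hv j), mul_apply_eq_comp, hζ] at k
    refine k.trans ?_
    rw [mul_assoc _ (√_)]
    gcongr
    exact RM.app_le (RM.unit_le (Unitary.star_mem (hu j).2)) _
  have h2 : ∑ j, t j ≤ (3 * ‖ζ‖) ^ 2 := by
    have g1 : ∑ j, G (star (v j * w) * (v j * w)) ≤ 3 * ‖ζ‖ ^ 2 := by
      rw [← map_sum]
      exact (le_abs_self _).trans ((hG.pos.le _).trans (mul_le_of_le_one_right (by positivity) hsum'))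
    have g2 : ∑ j, σ (star (v j) * v j) ≤ 1 := by
      rw [← map_sum]
      exact (hσ.le_norm (sum_mem fun j _ => mul_mem (star_mem (hv j)) (hv j))
        (sum_nonneg fun j _ => star_mul_self_nonneg _)).trans hsum
    have g3 : (Fintype.card κ : ℝ) * (m : ℝ)⁻¹ ≤ 1 := by
      rw [← div_eq_mul_inv, div_le_one (by positivity)]
      exact_mod_cast Nat.le_succ _
    simp only [htd, sum_add_distrib, ← mul_sum, sum_const, card_univ, nsmul_eq_mul]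
    nlinarith [mul_le_mul_of_nonneg_left g2 (sq_nonneg ‖ζ‖),
      mul_le_mul_of_nonneg_left g3 (sq_nonneg ‖ζ‖), sq_nonneg ‖ζ‖]
  refine (norm_sum_le_of_le _ fun j _ => h1 j).trans ?_
  rw [← mul_sum]
  have h3 := CaseC.cs_sum (fun j => √(t j)) fun j => ‖χ j‖
  simp only [Real.sq_sqrt (ht0 _)] at h3
  have h4 : √(∑ j, t j) ≤ 3 * ‖ζ‖ := Real.sqrt_le_iff.2 ⟨by positivity, h2⟩
  calc _ ≤ 2 * 10 ^ 6 * (2 * (4 * C)) * (3 * ‖ζ‖ * √(∑ j, ‖χ j‖ ^ 2)) := by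
        gcongr
        exact h3.trans (by gcongr)
    _ ≤ _ := by
        have : 0 ≤ C * ‖ζ‖ * √(∑ j, ‖χ j‖ ^ 2) := by positivity
        nlinarith

theorem kptwo_move {p : Op H} (hp : IsStarProjection p) (η ξ : H) :
    ⟪η, p ξ⟫_ℂ = ⟪p η, ξ⟫_ℂ := by
  conv_lhs => rw [← hp.isSelfAdjoint.star_eq]
  rw [ContinuousLinearMap.star_eq_adjoint, ContinuousLinearMap.adjoint_inner_right]

theorem kptwo_bessel {A : Type} [Fintype A] {w : A → Op H} (hw : Orth M w) (ζ : H) :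
    ∑ a, ‖w a ζ‖ ^ 2 ≤ ‖ζ‖ ^ 2 := by
  rw [hw.split ζ]
  exact le_add_of_nonneg_right (sq_nonneg _)

theorem kptwo_main {A κ : Type} [Fintype A] [Fintype κ] {w : A → Op H} (hw : Orth M w)
    (T : A → κ → Op H) {D : ℝ} (hD : 0 ≤ D)
    (hT : ∀ a (ζ : H) (χ : κ → H), w a ζ = ζ →
      ‖∑ j, ⟪χ j, T a j ζ⟫_ℂ‖ ≤ D * ‖ζ‖ * √(∑ j, ‖χ j‖ ^ 2)) (ζ : H) (χ : κ → H) :
    ‖∑ j, ⟪χ j, ∑ a, w a (T a j (w a ζ))⟫_ℂ‖ ≤ D * ‖ζ‖ * √(∑ j, ‖χ j‖ ^ 2) := by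
  have h1 : ∑ j, ⟪χ j, ∑ a, w a (T a j (w a ζ))⟫_ℂ
      = ∑ a, ∑ j, ⟪w a (χ j), T a j (w a ζ)⟫_ℂ := by
    rw [sum_comm]
    refine sum_congr rfl fun j _ => ?_
    rw [inner_sum]
    exact sum_congr rfl fun a _ => kptwo_move (hw.cen a).1 _ _
  have h2 : ∀ a, w a (w a ζ) = w a ζ := fun a => by
    rw [← mul_apply_eq_comp, (hw.cen a).1.isIdempotentElem.eq]
  have h3 : √(∑ a, ‖w a ζ‖ ^ 2) ≤ ‖ζ‖ :=
    (Real.sqrt_le_sqrt (kptwo_bessel hw ζ)).trans_eq (Real.sqrt_sq (norm_nonneg _))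
  have h4 : ∑ a, √(∑ j, ‖w a (χ j)‖ ^ 2) ^ 2 ≤ ∑ j, ‖χ j‖ ^ 2 := by
    calc ∑ a, √(∑ j, ‖w a (χ j)‖ ^ 2) ^ 2 = ∑ a, ∑ j, ‖w a (χ j)‖ ^ 2 :=
          sum_congr rfl fun a _ => Real.sq_sqrt (sum_nonneg fun j _ => sq_nonneg _)
      _ = ∑ j, ∑ a, ‖w a (χ j)‖ ^ 2 := sum_comm
      _ ≤ ∑ j, ‖χ j‖ ^ 2 := sum_le_sum fun j _ => kptwo_bessel hw (χ j)
  rw [h1]
  calc ‖∑ a, ∑ j, ⟪w a (χ j), T a j (w a ζ)⟫_ℂ‖
      ≤ ∑ a, ‖∑ j, ⟪w a (χ j), T a j (w a ζ)⟫_ℂ‖ := norm_sum_le _ _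
    _ ≤ ∑ a, D * ‖w a ζ‖ * √(∑ j, ‖w a (χ j)‖ ^ 2) :=
        sum_le_sum fun a _ => hT a (w a ζ) (fun j => w a (χ j)) (h2 a)
    _ = D * ∑ a, ‖w a ζ‖ * √(∑ j, ‖w a (χ j)‖ ^ 2) := by
        rw [mul_sum]
        exact sum_congr rfl fun a _ => mul_assoc _ _ _
    _ ≤ D * (√(∑ a, ‖w a ζ‖ ^ 2) * √(∑ a, √(∑ j, ‖w a (χ j)‖ ^ 2) ^ 2)) :=
        mul_le_mul_of_nonneg_left (CaseC.cs_sum _ _) hD
    _ ≤ D * (‖ζ‖ * √(∑ j, ‖χ j‖ ^ 2)) :=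
        mul_le_mul_of_nonneg_left
          (mul_le_mul h3 (Real.sqrt_le_sqrt h4) (Real.sqrt_nonneg _) (norm_nonneg _)) hD
    _ = D * ‖ζ‖ * √(∑ j, ‖χ j‖ ^ 2) := (mul_assoc _ _ _).symm

theorem kptwo_rest {κ : Type} [Fintype κ] (T : κ → Op H) (hT : ∀ j, ‖T j‖ ≤ C)
    (ζ : H) (χ : κ → H) :
    ‖∑ j, ⟪χ j, T j ζ⟫_ℂ‖ ≤ Fintype.card κ * (C * ‖ζ‖ * √(∑ j, ‖χ j‖ ^ 2)) := by
  have h1 : ∀ j, ‖χ j‖ ≤ √(∑ j, ‖χ j‖ ^ 2) := fun j =>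
    Real.le_sqrt_of_sq_le
      (single_le_sum (f := fun j => ‖χ j‖ ^ 2) (fun i _ => sq_nonneg _) (mem_univ j))
  have h2 : ∀ j, ‖⟪χ j, T j ζ⟫_ℂ‖ ≤ C * ‖ζ‖ * √(∑ j, ‖χ j‖ ^ 2) := fun j => by
    have h3 : ‖T j ζ‖ ≤ C * ‖ζ‖ :=
      ((T j).le_opNorm ζ).trans (mul_le_mul_of_nonneg_right (hT j) (norm_nonneg _))
    calc ‖⟪χ j, T j ζ⟫_ℂ‖ ≤ ‖χ j‖ * ‖T j ζ‖ := norm_inner_le_norm _ _
      _ ≤ √(∑ j, ‖χ j‖ ^ 2) * (C * ‖ζ‖) :=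
          mul_le_mul (h1 j) h3 (norm_nonneg _) (Real.sqrt_nonneg _)
      _ = C * ‖ζ‖ * √(∑ j, ‖χ j‖ ^ 2) := mul_comm _ _
  calc ‖∑ j, ⟪χ j, T j ζ⟫_ℂ‖ ≤ ∑ j, ‖⟪χ j, T j ζ⟫_ℂ‖ := norm_sum_le _ _
    _ ≤ ∑ _j : κ, C * ‖ζ‖ * √(∑ j, ‖χ j‖ ^ 2) := sum_le_sum fun j _ => h2 j
    _ = Fintype.card κ * (C * ‖ζ‖ * √(∑ j, ‖χ j‖ ^ 2)) := by
        rw [sum_const, card_univ, nsmul_eq_mul]

theorem kp_two (hU : Uns M) (hT : HasT M) (h : CC M φ) (hc : Col M φ C) (hC : 0 ≤ C)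
    (hz : ZN M φ) : KP M φ (10 ^ 9 * C) := by
  intro κ _ u v hu hv hv1 ζ χ
  by_cases hζ : ζ = 0
  · refine ⟨0, fun a _ => ?_, ?_⟩
    · rw [LinearMap.zero_apply, norm_zero]
      positivity
    · subst hζ
      simp only [map_zero, inner_zero_right, sum_const_zero, norm_zero, mul_zero, zero_mul, le_refl]
  have hζ0 : 0 < ‖ζ‖ := norm_pos_iff.2 hζ
  have hn : (0 : ℝ) < Fintype.card κ + 1 := by positivity
  obtain ⟨A, _, w, hw, hP, hV⟩ := exhZ (M := M)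
    (fun w => ∃ β : Op H →ₗ[ℂ] Op H, Bd M β (3 * C) ∧ ∀ (ζ : H) (χ : κ → H), w ζ = ζ →
      ‖∑ j, ⟪χ j, (φ - cob β) (u j) (v j) ζ⟫_ℂ‖ ≤ 10 ^ 8 * C * ‖ζ‖ * √(∑ j, ‖χ j‖ ^ 2))
    (fun z hzc hz0 => kp_loc hU hT h hc hC hz hu hv hv1 hzc hz0) {ζ} (div_pos hζ0 hn)
  choose β hβ hest using hP
  have hV0 : ‖ζ - (∑ a, w a) ζ‖ ≤ ‖ζ‖ / (Fintype.card κ + 1) := hV ζ (mem_singleton_self ζ)
  refine ⟨blk w β, fun a ha => (blk_bd hw (by positivity) hβ a ha).trans ?_, ?_⟩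
  · exact mul_le_mul_of_nonneg_right (by linarith) (norm_nonneg _)
  have h1 : ∑ j, ⟪χ j, (φ - cob (blk w β)) (u j) (v j) ζ⟫_ℂ
      = ∑ j, ⟪χ j, ∑ a, w a ((φ - cob (β a)) (u j) (v j) (w a ζ))⟫_ℂ
        + ∑ j, ⟪χ j, φ (u j) (v j) (ζ - (∑ a, w a) ζ)⟫_ℂ := by
    rw [← sum_add_distrib]
    refine sum_congr rfl fun j _ => ?_
    rw [(sub_cob_blk hw h hz (hu j).1 (hv j) ζ).1, inner_add_right]
  have h2 := kptwo_main hw (fun a j => (φ - cob (β a)) (u j) (v j)) (D := 10 ^ 8 * C)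
    (by positivity) hest ζ χ
  have hun : ∀ j, ‖u j‖ ≤ 1 := fun j => by
    refine ContinuousLinearMap.opNorm_le_bound _ zero_le_one fun ξ => ?_
    have h5 := basic_re (u j) ξ
    rw [(Unitary.mem_iff.1 (hu j).2).1, one_apply_eq_self, inner_self_eq_norm_sq_to_K] at h5
    have h6 : ‖ξ‖ ^ 2 = ‖u j ξ‖ ^ 2 := by exact_mod_cast h5
    rw [one_mul]
    exact (sq_le_sq₀ (norm_nonneg _) (norm_nonneg _)).1 h6.ge
  have hφ : ∀ j, ‖φ (u j) (v j)‖ ≤ C := fun j => by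
    have h5 := hc.bd hC (u j) (hu j).1 (v j) (hv j)
    have h6 := hv1.norm_le zero_le_one j
    calc ‖φ (u j) (v j)‖ ≤ C * ‖u j‖ * ‖v j‖ := h5
      _ ≤ C * 1 * 1 :=
          mul_le_mul (mul_le_mul_of_nonneg_left (hun j) hC) h6 (norm_nonneg _) (by positivity)
      _ = C := by ring
  have h3 := kptwo_rest (fun j => φ (u j) (v j)) hφ (ζ - (∑ a, w a) ζ) χ
  have h4 : (Fintype.card κ : ℝ) * ‖ζ - (∑ a, w a) ζ‖ ≤ ‖ζ‖ := by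
    rw [le_div_iff₀ hn] at hV0
    nlinarith [norm_nonneg (ζ - (∑ a, w a) ζ)]
  have h5 : 0 ≤ C * √(∑ j, ‖χ j‖ ^ 2) := by positivity
  have h6 : 0 ≤ C * ‖ζ‖ * √(∑ j, ‖χ j‖ ^ 2) := by positivity
  have h7 := mul_le_mul_of_nonneg_left h4 h5
  rw [h1]
  refine (norm_add_le _ _).trans ((add_le_add h2 h3).trans ?_)
  nlinarith

theorem loc_two (hU : Uns M) (hT : HasT M) (h : CC M φ) (hb : Bd2 M φ C) (hC : 0 ≤ C)
    (hz : ZN M φ) : Loc M φ (10 ^ 11 * C) := by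
  obtain ⟨τ, hτ, -⟩ := hT 0
  obtain ⟨β, hβ, hcol, hz'⟩ := col_two hU hτ h hb hC hz
  have h1 := h.sub_cob β
  have h2 := loc_of_kp h1 (kp_two hU hT h1 hcol (by positivity) hz') (by positivity)
  exact (h2.add hβ).mono (by linarith)

end Pool.Agent.Kad.H3
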