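import Pool.Agent.Lib.MP_22c5db_an.H3.Basic

/-! From projections to positive elements. -/

open scoped InnerProductSpace ComplexConjugate
open Finset

noncomputable section

namespace Pool.Agent.Kad.H3

open Pool.Agent.Kad.H2

universe u

set_option linter.unusedSectionVars false

variable {H : Type u} [NormedAddCommGroup H] [InnerProductSpace ℂ H] [CompleteSpace H]
  {M : VonNeumannAlgebra H} {τ : Op H →ₗ[ℝ] ℝ} {φ : Bil H} {C : ℝ}
  {ι : Type} [Fintype ι] [DecidableEq ι] {e : ι → ι → Op H}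

theorem layer_step {y : Op H} (h0 : 0 ≤ y) {d r : ℝ} (hd : 0 < d) (hr : d ≤ r)
    (hn : ‖y‖ ≤ r + d) : ∃ q : Op H, IsStarProjection q ∧ (∀ t, t * y = y * t → t * q = q * t) ∧
      0 ≤ y - d • q ∧ ‖y - d • q‖ ≤ r := by
  have hy : IsSelfAdjoint y := IsSelfAdjoint.of_nonneg h0
  have hb : IsSelfAdjoint (y - d • (1 : Op H)) := hy.sub (sa_smul d (IsSelfAdjoint.one _))
  obtain ⟨q, hq, hcomm, hle, hlt⟩ := exists_spec hb
  have hc : ∀ t, t * y = y * t → t * q = q * t := fun t ht => hcomm t (by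
    rw [mul_sub, sub_mul, ht, mul_smul_comm, smul_mul_assoc, mul_one, one_mul])
  have qq : q * q = q := hq.isIdempotentElem.eq
  have yq : y * q = q * y := hc y rfl
  have hq' := hq.one_sub
  have a1 : 0 ≤ q * (y - d • (1 : Op H)) * q := part_conj hq hb fun ζ => by
    by_cases hz : q ζ = 0
    · simp [hz]
    · exact (hlt _ (by rw [← mul_apply_eq_comp, qq]) hz).le
  have a2 : 0 ≤ (1 - q) * (-(y - d • (1 : Op H))) * (1 - q) := part_conj hq' hb.neg fun ζ => by
    rw [neg_apply, inner_neg_right, Complex.neg_re, neg_nonneg]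
    exact hle _ (by rw [← mul_apply_eq_comp, mul_sub, mul_one, qq, sub_self, zero_apply])
  have a3 : 0 ≤ (1 - q) * y * (1 - q) := by
    simpa [hq'.isSelfAdjoint.star_eq] using star_left_conjugate_nonneg h0 (1 - q)
  have a4 : y ≤ (r + d) • (1 : Op H) := by
    have := (CStarAlgebra.norm_le_iff_le_algebraMap y (by linarith) h0).1 hn
    rwa [Algebra.algebraMap_eq_smul_one] at this
  have a5 : 0 ≤ q * ((r + d) • (1 : Op H) - y) * q := by
    simpa [hq.isSelfAdjoint.star_eq] using star_left_conjugate_nonneg (sub_nonneg.2 a4) q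
  have a6 : 0 ≤ (r - d) • (1 - q) := smul_nonneg (sub_nonneg.2 hr) hq'.nonneg
  have qyq : q * y * q = q * y := by rw [mul_assoc, yq, ← mul_assoc, qq]
  have e1 : q * (y - d • (1 : Op H)) * q = q * y - d • q := by
    rw [mul_sub, sub_mul, qyq, mul_smul_comm, smul_mul_assoc, mul_one, qq]
  have e3 : (1 - q) * y * (1 - q) = y - q * y := by
    rw [mul_sub, mul_one, sub_mul, sub_mul, one_mul, qyq, yq, sub_self, sub_zero]
  have e2 : (1 - q) * (-(y - d • (1 : Op H))) * (1 - q) = d • (1 - q) - (y - q * y) := by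
    rw [neg_sub, mul_sub (1 - q), sub_mul ((1 - q) * _), e3, mul_smul_comm, smul_mul_assoc,
      mul_one, hq'.isIdempotentElem.eq]
  have e5 : q * ((r + d) • (1 : Op H) - y) * q = (r + d) • q - q * y := by
    rw [mul_sub, sub_mul, qyq, mul_smul_comm, smul_mul_assoc, mul_one, qq]
  rw [e1] at a1
  rw [e2] at a2
  rw [e3] at a3
  rw [e5] at a5
  have b1 : 0 ≤ y - d • q := by
    have e : y - d • q = (q * y - d • q) + (y - q * y) := by abel
    rw [e]
    exact add_nonneg a1 a3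
  refine ⟨q, hq, hc, b1, ?_⟩
  rw [CStarAlgebra.norm_le_iff_le_algebraMap _ (by linarith) b1, Algebra.algebraMap_eq_smul_one,
    ← sub_nonneg]
  have e : r • (1 : Op H) - (y - d • q) =
      ((r + d) • q - q * y) + (d • (1 - q) - (y - q * y)) + (r - d) • (1 - q) := by
    module
  rw [e]
  exact add_nonneg (add_nonneg a5 a2) a6

/-- positivity from positivity on projections -/
theorem layer_aux (S : Set (Op H)) (f : Op H →ₗ[ℝ] ℝ) {c : ℝ} (hb : ∀ y ∈ M, |f y| ≤ c * ‖y‖)
    (hq : ∀ q ∈ M, IsStarProjection q → (∀ s ∈ S, s * q = q * s) → 0 ≤ f q) {y : Op H}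
    (hy : y ∈ M) (h0 : 0 ≤ y) (hS : ∀ s ∈ S, s * y = y * s) : 0 ≤ f y := by
  have key : ∀ d : ℝ, 0 < d → ∀ n : ℕ, ∀ y ∈ M, 0 ≤ y → (∀ s ∈ S, s * y = y * s) →
      ‖y‖ ≤ (n + 1) * d → -(|c| * d) ≤ f y := by
    intro d hd n
    induction n with
    | zero =>
      intro y hy _ _ hn
      have h1 := (abs_le.1 (hb y hy)).1
      have h2 : c * ‖y‖ ≤ |c| * d := by
        push_cast at hn
        exact (mul_le_mul_of_nonneg_right (le_abs_self c) (norm_nonneg y)).trans
          (mul_le_mul_of_nonneg_left (by linarith) (abs_nonneg c))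
      linarith
    | succ n ih =>
      intro y hy h0 hS hn
      have hn0 : (0 : ℝ) ≤ n := n.cast_nonneg
      obtain ⟨q, q1, q2, q3, q4⟩ := layer_step h0 hd (r := (n + 1) * d) (by nlinarith)
        (by push_cast at hn; linarith)
      have hqM : q ∈ M := mem_of_comm fun s hs => q2 s (comm_of_mem hy hs)
      have hqS : ∀ s ∈ S, s * q = q * s := fun s hs => q2 s (hS s hs)
      have h1 := ih (y - d • q) (sub_mem hy (part_smul_mem hqM d)) q3
        (fun s hs => by rw [mul_sub, sub_mul, hS s hs, mul_smul_comm, smul_mul_assoc, hqS s hs]) q4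
      rw [map_sub, map_smul, smul_eq_mul] at h1
      have h2 := mul_nonneg hd.le (hq q hqM q1 hqS)
      linarith
  refine le_of_forall_pos_le_add fun ε hε => ?_
  have hC : 0 < |c| + 1 := by positivity
  have hd : 0 < ε / (|c| + 1) := by positivity
  obtain ⟨n, hn⟩ := exists_nat_ge (‖y‖ / (ε / (|c| + 1)))
  have h1 := key _ hd n y hy h0 hS (by
    rw [div_le_iff₀ hd] at hn
    nlinarith)
  have h2 : ε / (|c| + 1) * (|c| + 1) = ε := div_mul_cancel₀ _ hC.ne'
  nlinarith

set_option linter.unusedVariables false in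
theorem layer (S : Set (Op H)) (f : Op H →ₗ[ℝ] ℝ) {c : ℝ} (hc : 0 ≤ c)
    (hf : ∀ x ∈ M, |f x| ≤ c * ‖x‖)
    (hq : ∀ q ∈ M, IsStarProjection q → (∀ s ∈ S, s * q = q * s) → 0 ≤ f q)
    {y : Op H} (hy : y ∈ M) (h0 : 0 ≤ y) (hs : ∀ s ∈ S, s * y = y * s) : 0 ≤ f y := by
  exact layer_aux S f hf hq hy h0 hs

end Pool.Agent.Kad.H3
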