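import Pool.Agent.Lib.MP_22c5db_an.H3.Basic

/-! The fourth moment estimate for one element. -/

open scoped InnerProductSpace ComplexConjugate
open Finset

noncomputable section

namespace Pool.Agent.Kad.H3

open Pool.Agent.Kad.H2

universe u

set_option linter.unusedSectionVars false

variable {H : Type u} [NormedAddCommGroup H] [InnerProductSpace ℂ H] [CompleteSpace H]
  {M : VonNeumannAlgebra H} {τ : Op H →ₗ[ℝ] ℝ} {φ : Bil H} {C : ℝ}
  {ι : Type} [Fintype ι] [DecidableEq ι] {e : ι → ι → Op H}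
  {K : Type u} [NormedAddCommGroup K] [InnerProductSpace ℂ K] [CompleteSpace K]
  {A : Type} [Fintype A] [DecidableEq A] {J : A → H →L[ℂ] K} {N : VonNeumannAlgebra K}
  {m L : ℕ} {δ : ℝ} {α : ℕ → ℝ} {ζ : H} {G : Op H →L[ℝ] ℝ}

theorem lfour_belowZ (hS : Sup M τ φ (Fintype.card ι) C ζ G)
    (h : Nrm M φ e C) (hG : Dom M τ φ e C ζ G)
    {κ : Type} [Fintype κ] {x : κ → Op H} (hx : ∀ l, x l ∈ M) (hx1 : Cl x 1) {b r p : Op H}
    (hb : b ∈ M) (hr : IsStarProjection r) (hrM : r ∈ M) (hrb : r * b = b)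
    (hp : IsStarProjection p) (hpM : p ∈ M) (hc : r * p = p * r) {s : ℝ}
    (hs : ‖(1 - p) * b‖ ≤ s) :
    √(∑ i, ‖φ (x i) ((1 - p) * b) ζ‖ ^ 2) ≤ C * (6 * √(G (star b * b)) +
      4 * ‖ζ‖ * s * (√(τ r) + (√(Fintype.card ι))⁻¹)) := by
  have h1 : r * ((1 - p) * b) = (1 - p) * b := by
    rw [← mul_assoc, mul_sub, mul_one, hc, sub_mul, sub_mul, mul_assoc, hrb, one_mul]
  refine (hS κ x hx hx1 _ (mul_mem (sub_mem (one_mem M) hpM) hb) r hrM hr h1).trans ?_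
  have h2 := lfour_two hG.pos hp.one_sub b
  have h3 := h.c0
  gcongr

theorem upperZ (hS : Sup M τ φ (Fintype.card ι) C ζ G)
    (hτ : Tr M τ) (h : Nrm M φ e C) (hG : Dom M τ φ e C ζ G) {κ : Type}
    [Fintype κ] {x : κ → Op H} (hx : ∀ l, x l ∈ M) (hx1 : Cl x 1) (n : ℕ) :
    ∀ (s : ℝ) (b p : Op H), 0 < s → b ∈ M → p ∈ M → IsStarProjection p → p * b = b →
      (∀ ξ, s * ‖p ξ‖ ≤ ‖star b (p ξ)‖) → ‖b‖ ≤ 2 ^ n * s →
      √(∑ i, ‖φ (x i) b ζ‖ ^ 2) ≤ C * (28 * √(G (star b * b * (star b * b))) / s +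
        8 * ‖ζ‖ * s * (2 ^ (n + 1) - 1) * (√(Fintype.card ι))⁻¹) := by
  have hC := h.c0
  have hk : (0 : ℝ) ≤ (√(Fintype.card ι))⁻¹ := by positivity
  induction n with
  | zero =>
    intro s b p hs hb hpM hp hpb hl hn
    obtain ⟨h1, h2⟩ := lfour_low hτ hG hs hb hpM hp hpb hl
    rw [pow_zero, one_mul] at hn
    refine (hS κ x hx hx1 b hb p hpM hp hpb).trans (mul_le_mul_of_nonneg_left ?_ hC)
    have h3 : 4 * ‖ζ‖ * ‖b‖ * (√(τ p) + (√(Fintype.card ι))⁻¹) ≤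
        4 * ‖ζ‖ * s * (√(τ p) + (√(Fintype.card ι))⁻¹) := by gcongr
    have h4 : 0 ≤ √(G (star b * b * (star b * b))) / s := by positivity
    have h5 : 0 ≤ ‖ζ‖ * s * (√(Fintype.card ι))⁻¹ := by positivity
    rw [mul_div_assoc]
    linarith
  | succ n ih =>
    intro s b p hs hb hpM hp hpb hl hn
    obtain ⟨h1, h2⟩ := lfour_low hτ hG hs hb hpM hp hpb hl
    obtain ⟨q, hqM, hq, hc, hs1, hs2⟩ := level hb (show 0 < 2 * s by positivity)
    have h3 := lfour_belowZ hS h hG hx hx1 hb hp hpM hpb hq hqM (hc p (lfour_comm hp hpb)) hs1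
    have h4 := ih (2 * s) (q * b) q (by positivity) (mul_mem hqM hb) hqM hq
      (by rw [← mul_assoc, hq.isIdempotentElem.eq])
      (fun ξ => by
        rw [star_mul, hq.isSelfAdjoint.star_eq, mul_apply_eq_comp,
          ← mul_apply_eq_comp q q, hq.isIdempotentElem.eq]
        exact hs2 ξ)
      (((norm_mul_le _ _).trans (mul_le_of_le_one_left (norm_nonneg _) hq.norm_le)).trans
        (hn.trans_eq (by ring)))
    have h5 : 28 * √(G (star (q * b) * (q * b) * (star (q * b) * (q * b)))) / (2 * s) ≤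
        14 * (√(G (star b * b * (star b * b))) / s) := by
      have := lfour_four hG.pos hq (hc _ rfl)
      refine le_trans (by gcongr) (le_of_eq (b := 14 * (√(G (star b * b * (star b * b))) / s))
        (a := 28 * √(G (star b * b * (star b * b))) / (2 * s)) (by ring))
    refine (lfour_split x b q).trans ((add_le_add h3 h4).trans ?_)
    rw [← mul_add, mul_div_assoc 28 _ s]
    refine mul_le_mul_of_nonneg_left ?_ hC
    have h6 : (2 : ℝ) ^ (n + 1 + 1) = 2 * 2 ^ (n + 1) := by ring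
    rw [h6]
    linarith

theorem lfourZ (hS : Sup M τ φ (Fintype.card ι) C ζ G)
    (hτ : Tr M τ) (h : Nrm M φ e C) (hG : Dom M τ φ e C ζ G) {κ : Type}
    [Fintype κ] {x : κ → Op H} (hx : ∀ l, x l ∈ M) (hx1 : Cl x 1) {b r : Op H} (hb : b ∈ M)
    (hr : IsStarProjection r) (hrM : r ∈ M) (hrb : r * b = b) {Λ : ℝ} (hΛ : 0 < Λ) :
    ∑ i, ‖φ (x i) b ζ‖ ^ 2 ≤ 4000 * C ^ 2 * (G (star b * b) + G (star b * b * (star b * b)) / Λ +
      ‖ζ‖ ^ 2 * (Λ * τ r + (Λ + ‖b‖ ^ 2) / Fintype.card ι)) := by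
  have hC := h.c0
  set s := √Λ with hsd
  have hs : 0 < s := Real.sqrt_pos.2 hΛ
  have hs2 : s ^ 2 = Λ := Real.sq_sqrt hΛ.le
  obtain ⟨n, hn, hn'⟩ : ∃ n : ℕ, ‖b‖ ≤ 2 ^ n * s ∧ 2 ^ n * s ≤ s + 2 * ‖b‖ := by
    rcases le_total ‖b‖ s with h1 | h1
    · exact ⟨0, by simpa using h1, by simp⟩
    · obtain ⟨n, h2, h3⟩ := exists_nat_pow_near ((one_le_div hs).2 h1) one_lt_two
      rw [le_div_iff₀ hs] at h2
      rw [div_lt_iff₀ hs] at h3
      exact ⟨n + 1, h3.le, by rw [pow_succ]; linarith⟩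
  obtain ⟨q, hqM, hq, hc, hs1, hs3⟩ := level hb hs
  have h3 := lfour_belowZ hS h hG hx hx1 hb hr hrM hrb hq hqM (hc r (lfour_comm hr hrb)) hs1
  have h4 := upperZ hS hτ h hG hx hx1 n s (q * b) q hs (mul_mem hqM hb) hqM hq
    (by rw [← mul_assoc, hq.isIdempotentElem.eq])
    (fun ξ => by
      rw [star_mul, hq.isSelfAdjoint.star_eq, mul_apply_eq_comp,
        ← mul_apply_eq_comp q q, hq.isIdempotentElem.eq]
      exact hs3 ξ)
    (((norm_mul_le _ _).trans (mul_le_of_le_one_left (norm_nonneg _) hq.norm_le)).trans hn)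
  have h5 := lfour_four hG.pos hq (hc _ rfl)
  have hP2 : 0 ≤ G (star b * b * (star b * b)) := by
    have := hG.pos.pos (star b * b)
    rwa [lfour_sa] at this
  set t : ℝ := (√(Fintype.card ι))⁻¹ with ht
  have ht0 : 0 ≤ t := by positivity
  have ht2 : t ^ 2 = (Fintype.card ι : ℝ)⁻¹ := by
    rw [ht, inv_pow, Real.sq_sqrt (Nat.cast_nonneg _)]
  have h6 : √(∑ i, ‖φ (x i) b ζ‖ ^ 2) ≤ C * (6 * √(G (star b * b)) + 4 * (‖ζ‖ * s * √(τ r)) +
      28 * (√(G (star b * b * (star b * b))) / s) + 12 * (‖ζ‖ * s * t) + 32 * (‖ζ‖ * ‖b‖ * t)) := by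
    refine (lfour_split x b q).trans ((add_le_add h3 h4).trans ?_)
    rw [← mul_add]
    refine mul_le_mul_of_nonneg_left ?_ hC
    have h7 : 28 * √(G (star (q * b) * (q * b) * (star (q * b) * (q * b)))) / s ≤
        28 * √(G (star b * b * (star b * b))) / s := by gcongr
    have h8 := mul_le_mul_of_nonneg_left hn' (mul_nonneg (norm_nonneg ζ) ht0)
    rw [mul_div_assoc 28 (√(G (star b * b * (star b * b))))] at h7
    rw [pow_succ]
    linarith
  have h7 : G (star b * b) + G (star b * b * (star b * b)) / Λ +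
      ‖ζ‖ ^ 2 * (Λ * τ r + (Λ + ‖b‖ ^ 2) / Fintype.card ι) =
      √(G (star b * b)) ^ 2 + (‖ζ‖ * s * √(τ r)) ^ 2 +
        (√(G (star b * b * (star b * b))) / s) ^ 2 + (‖ζ‖ * s * t) ^ 2 + (‖ζ‖ * ‖b‖ * t) ^ 2 := by
    simp only [mul_pow, div_pow]
    rw [Real.sq_sqrt (hG.pos.pos b), Real.sq_sqrt hP2, Real.sq_sqrt (hτ.proj hr hrM).1, hs2, ht2]
    ring
  rw [h7]
  refine ((Real.sqrt_le_iff.1 h6).2).trans ?_
  generalize √(G (star b * b)) = a₁
  generalize ‖ζ‖ * s * √(τ r) = a₂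
  generalize √(G (star b * b * (star b * b))) / s = a₃
  generalize ‖ζ‖ * s * t = a₄
  generalize ‖ζ‖ * ‖b‖ * t = a₅
  rw [mul_pow, mul_comm 4000, mul_assoc]
  refine mul_le_mul_of_nonneg_left ?_ (sq_nonneg C)
  have h8 := sum_mul_sq_le_sq_mul_sq (univ : Finset (Fin 5)) ![(6 : ℝ), 4, 28, 12, 32]
    ![a₁, a₂, a₃, a₄, a₅]
  simp only [Fin.sum_univ_five, Matrix.cons_val] at h8
  have h9 : 0 ≤ a₁ ^ 2 + a₂ ^ 2 + a₃ ^ 2 + a₄ ^ 2 + a₅ ^ 2 := by positivity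
  linarith

end Pool.Agent.Kad.H3
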