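import Pool.Agent.Lib.MP_22c5db_an.H3.Small
import Pool.Agent.Lib.MP_22c5db_an.H3.Layer

/-! Local approximate traces. -/

open scoped InnerProductSpace ComplexConjugate
open Finset

noncomputable section

namespace Pool.Agent.Kad.H3

open Pool.Agent.Kad.H2

universe u

set_option linter.unusedSectionVars false

variable {H : Type u} [NormedAddCommGroup H] [InnerProductSpace ℂ H] [CompleteSpace H]
  {M : VonNeumannAlgebra H} {τ : Op H →ₗ[ℝ] ℝ} {φ : Bil H} {C : ℝ}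
  {ι : Type} [Fintype ι] [DecidableEq ι] {e : ι → ι → Op H}

open VN1

theorem loctr_norm {x y : Op H} (h : star x * x = star y * y) (ζ : H) : ‖x ζ‖ = ‖y ζ‖ := by
  have h1 := VN0.re_inner_star_mul x ζ
  rw [h, VN0.re_inner_star_mul] at h1
  exact (pow_left_inj₀ (norm_nonneg _) (norm_nonneg _) two_ne_zero).1 h1.symm

theorem loctr_sum {κ : Type} [Fintype κ] {a : κ → Op H} {c : Op H} (hc : IsStarProjection c)
    (h : ∑ i, a i * star (a i) = c) (ζ : H) : ∑ i, ‖star (a i) ζ‖ ^ 2 = ‖c ζ‖ ^ 2 := by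
  rw [← VN0.re_inner_star_mul c, hc.isSelfAdjoint.star_eq, hc.isIdempotentElem.eq, ← h,
    _root_.sum_apply, inner_sum, Complex.re_sum]
  exact sum_congr rfl fun i _ => by rw [← VN0.re_inner_star_mul, star_star]

/-- step C -/
theorem loctr_C {ξ : H} {e : Op H} (he : IsStarProjection e) {K : ℝ}
    (h : ∀ v ∈ M, v * star v * v = v → v * e = v → e * v = v → ‖v ξ‖ ^ 2 ≤ K * ‖star v ξ‖ ^ 2)
    {x : Op H} (hx : x ∈ M) (h1 : x * e = x) (h2 : e * x = x) :
    ‖x ξ‖ ^ 2 ≤ K * ‖star x ξ‖ ^ 2 := by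
  obtain ⟨v, hv, k, -, hk, k1, k2, v1, v2, v3, v4⟩ := polar' hx
  have ve : v * e = v := mul_eq_of_ker v2 h1
  have ev : e * v = v := mul_eq_of_star he.isSelfAdjoint
    (mul_eq_of_ker v3 (star_mul_eq he.isSelfAdjoint h2))
  have hs := (piso_proj v1).1
  set s := star v * v with hs'
  have ss := hs.isSelfAdjoint.star_eq
  have sk : s * k = k := by rw [hs', mul_assoc, ← k2, v4]
  have ks : k * s = k := by
    have := congrArg star sk
    rwa [star_mul, ss, hk.star_eq] at this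
  have vs : v * s = v := by rw [hs', ← mul_assoc, v1]
  have se : s * e = s := by rw [hs', mul_assoc, ve]
  let f : Op H →ₗ[ℝ] ℝ := K • (H2.vf (star v ξ)).toLinearMap - (H2.vf (s ξ)).toLinearMap
  have hf : ∀ y, f y = K * (⟪star v ξ, y (star v ξ)⟫_ℂ).re - (⟪s ξ, y (s ξ)⟫_ℂ).re := fun y => rfl
  have hb : ∀ (η : H) (y : Op H), |(⟪η, y η⟫_ℂ).re| ≤ ‖η‖ ^ 2 * ‖y‖ := fun η y => by
    calc _ ≤ ‖⟪η, y η⟫_ℂ‖ := Complex.abs_re_le_norm _
      _ ≤ ‖η‖ * ‖y η‖ := norm_inner_le_norm _ _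
      _ ≤ ‖η‖ * (‖y‖ * ‖η‖) := by gcongr; exact y.le_opNorm η
      _ = _ := by ring
  have key := layer_aux (M := M) {s} f (c := |K| * ‖star v ξ‖ ^ 2 + ‖s ξ‖ ^ 2) (fun y _ => by
      rw [hf, add_mul, mul_assoc]
      refine (abs_sub _ _).trans (add_le_add ?_ (hb _ _))
      rw [abs_mul]
      exact mul_le_mul_of_nonneg_left (hb _ _) (abs_nonneg K))
    (fun q hqM hq hc => by
      have sq : s * q = q * s := hc s rfl
      have qs := hq.isSelfAdjoint.star_eq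
      have qq := hq.isIdempotentElem.eq
      have c1 : star (v * q) * (v * q) = star (q * s) * (q * s) := by
        rw [star_mul, star_mul, qs, ss, mul_assoc, ← mul_assoc (star v), ← hs', sq, ← mul_assoc, qq,
          mul_assoc q s, ← mul_assoc s, sq, mul_assoc q s, hs.isIdempotentElem.eq, ← mul_assoc q q, qq]
      have c2 : v * q * star (v * q) * (v * q) = v * q := by
        rw [mul_assoc, star_mul, qs, mul_assoc q, ← mul_assoc (star v), ← hs', sq, ← mul_assoc q, qq,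
          mul_assoc, ← mul_assoc q, qq, ← sq, ← mul_assoc, vs]
      have c3 : v * q * e = v * q := by
        rw [← vs, mul_assoc v, sq, mul_assoc, mul_assoc, se]
      have c4 := h (v * q) (mul_mem hv hqM) c2 c3 (by rw [← mul_assoc, ev])
      rw [loctr_norm c1 ξ, star_mul, qs] at c4
      have c5 : ∀ η : H, (⟪η, q η⟫_ℂ).re = ‖q η‖ ^ 2 := fun η => by
        rw [← VN0.re_inner_star_mul, qs, qq]
      rw [hf, c5, c5, sub_nonneg]
      exact c4)
    (y := k * k) (k1 ▸ mul_mem (star_mem hx) hx) (k1 ▸ star_mul_self_nonneg x)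
    (by
      rintro _ rfl
      rw [← mul_assoc, sk, mul_assoc, ks])
  have c5 : ∀ η : H, (⟪η, (k * k) η⟫_ℂ).re = ‖k η‖ ^ 2 := fun η => by
    rw [← VN0.re_inner_star_mul, hk.star_eq]
  rw [hf, c5, c5, sub_nonneg, ← mul_apply_eq_comp, ← mul_apply_eq_comp, ks] at key
  have d1 : ‖x ξ‖ = ‖k ξ‖ := loctr_norm (by rw [hk.star_eq, k1]) ξ
  have d2 : star x = k * star v := by rw [k2, star_mul, hk.star_eq]
  rw [d1, d2]
  exact key

set_option linter.unusedVariables false in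
theorem small_all {ξ : H} {p : Op H} (hp : IsStarProjection p) {l : ℝ} (hl : 0 ≤ l)
    (h : ∀ v ∈ M, v * star v * v = v → p * v = v → v * p = v → ‖v ξ‖ ^ 2 ≤ l * ‖star v ξ‖ ^ 2)
    {x : Op H} (hx : x ∈ M) (h1 : p * x = x) (h2 : x * p = x) :
    ‖x ξ‖ ^ 2 ≤ l * ‖star x ξ‖ ^ 2 := by
  exact loctr_C hp (fun v hv a b c => h v hv a c b) hx h2 h1

theorem loc_tr (hN : NoPI M) {z : Op H} (hz : Cen M z) (hz0 : z ≠ 0) {ε : ℝ} (hε : 0 < ε) :
    ∃ c, Cen M c ∧ c ≠ 0 ∧ z * c = c ∧ ∃ (I : Type) (_ : Fintype I) (η : I → H),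
      (∀ x ∈ M, ∑ i, ‖x (η i)‖ ^ 2 ≤ (1 + ε) * ∑ i, ‖star x (η i)‖ ^ 2) ∧
      ∀ w, Cen M w → c * w = w → (∀ i, w (η i) = 0) → w = 0 := by
  obtain ⟨ξ, p, he, heM, e0, ze, e1, e2⟩ := small hN hz hz0 hε
  obtain ⟨c, hcc, ce, zc, I, _, a, a1, a2⟩ := cover hN hz he heM e0 ze
  have key : ∀ x ∈ M, ∀ i, ‖x (a i ξ)‖ ^ 2 = ∑ j, ‖(star (a j) * x * a i) ξ‖ ^ 2 := by
    intro x hx i
    have h1 : c (x (a i ξ)) = x (a i ξ) := by
      have e : c * (x * a i) = x * a i := by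
        rw [← mul_assoc, hcc.2.2 x hx, mul_assoc, (a1 i).2.2.1]
      exact congrArg (fun t : Op H => t ξ) e
    rw [← h1, ← loctr_sum hcc.1 a2]
    rfl
  refine ⟨c, hcc, fun h => ce (by rw [h, zero_mul]), zc, I, inferInstance, fun i => a i ξ,
    fun x hx => ?_, fun w hw h1 h2 => ?_⟩
  · rw [sum_congr rfl fun i _ => key x hx i, sum_congr rfl fun i _ => key _ (star_mem hx) i,
      sum_comm, mul_sum]
    refine sum_le_sum fun j _ => ?_
    rw [mul_sum]
    refine sum_le_sum fun i _ => ?_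
    have h1 := small_all he (by linarith) e2
      (mul_mem (mul_mem (star_mem (a1 j).1) hx) (a1 i).1)
      (by rw [← mul_assoc, ← mul_assoc, mul_star_eq he.isSelfAdjoint (a1 j).2.1])
      (by rw [mul_assoc, (a1 i).2.1])
    rwa [star_mul, star_mul, star_star, ← mul_assoc] at h1
  · rw [← h1, hcc.2.2 w hw.2.1, ← a2, mul_sum]
    refine sum_eq_zero fun i _ => ?_
    rw [← mul_assoc, e1 (w * a i) (mul_mem hw.2.1 (a1 i).1) (by rw [mul_assoc, (a1 i).2.1]) (h2 i),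
      zero_mul]

end Pool.Agent.Kad.H3
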