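import Pool.Agent.Lib.MP_22c5db_an.H3.LocTr
import Pool.Agent.Lib.MP_22c5db_an.H3.Blk

/-! Matching a vector state on the centre. -/

open scoped InnerProductSpace ComplexConjugate
open Finset

noncomputable section

namespace Pool.Agent.Kad.H3

open Pool.Agent.Kad.H2

universe u

set_option linter.unusedSectionVars false

variable {H : Type u} [NormedAddCommGroup H] [InnerProductSpace ℂ H] [CompleteSpace H]
  {M : VonNeumannAlgebra H} {τ : Op H →ₗ[ℝ] ℝ} {φ : Bil H} {C : ℝ}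
  {ι : Type} [Fintype ι] [DecidableEq ι] {e : ι → ι → Op H}

theorem dom_piece {I I' : Type} [Fintype I] [Fintype I'] (a : I → H) (b : I' → H) {y₀ : Op H}
    (hy₀ : Cen M y₀) (h : ∑ j, ‖y₀ (b j)‖ ^ 2 < ∑ i, ‖y₀ (a i)‖ ^ 2) :
    ∃ w, Cen M w ∧ w ≠ 0 ∧ y₀ * w = w ∧
      ∀ y, Cen M y → w * y = y → ∑ j, ‖y (b j)‖ ^ 2 ≤ ∑ i, ‖y (a i)‖ ^ 2 := by
  classical
  by_contra hne
  set g := ∑ i, ‖y₀ (a i)‖ ^ 2 - ∑ j, ‖y₀ (b j)‖ ^ 2 with hg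
  have hg0 : 0 < g := sub_pos.2 h
  have hn : (0 : ℝ) < Fintype.card I + 1 := by positivity
  obtain ⟨A, _, w, hw, h1, h2⟩ := exhZ_rel
    (fun w => ∑ i, ‖w (a i)‖ ^ 2 ≤ ∑ j, ‖w (b j)‖ ^ 2) hy₀ (fun z hz hz0 hyz => by
      by_contra h3
      refine hne ⟨z, hz, hz0, hyz, fun y hy hzy => ?_⟩
      by_contra h4
      refine h3 ⟨y, hy, ?_, hzy, (not_le.1 h4).le⟩
      rintro rfl
      simp at h4) (univ.image a) (Real.sqrt_pos.2 (div_pos hg0 hn))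
  have e1 : ∀ α ξ, w α (y₀ ξ) = w α ξ := fun α ξ => by
    rw [← Conc.ap, ← hy₀.2.2 _ (hw.cen α).2.1, (h1 α).1]
  have e2 : ∀ ξ, (∑ α, w α) (y₀ ξ) = (∑ α, w α) ξ := fun ξ => by
    simp only [_root_.sum_apply, e1]
  have a1 : ∀ i, ‖y₀ (a i)‖ ^ 2 ≤ ∑ α, ‖w α (a i)‖ ^ 2 + g / (Fintype.card I + 1) := fun i => by
    have k := hw.split (y₀ (a i))
    have k2 := pow_le_pow_left₀ (norm_nonneg _) (h2 (a i) (mem_image_of_mem a (mem_univ i))) 2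
    rw [Real.sq_sqrt (div_pos hg0 hn).le] at k2
    simp only [e1, e2] at k
    linarith
  have a2 : ∀ j, ∑ α, ‖w α (b j)‖ ^ 2 ≤ ‖y₀ (b j)‖ ^ 2 := fun j => by
    have k := hw.split (y₀ (b j))
    simp only [e1] at k
    rw [k]
    exact le_add_of_nonneg_right (sq_nonneg _)
  have a3 := sum_le_sum fun i (_ : i ∈ (univ : Finset I)) => a1 i
  have a4 := sum_le_sum fun j (_ : j ∈ (univ : Finset I')) => a2 j
  have a5 := sum_le_sum fun α (_ : α ∈ (univ : Finset A)) => (h1 α).2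
  rw [sum_add_distrib, sum_comm, sum_const, card_univ, nsmul_eq_mul] at a3
  rw [sum_comm] at a4
  have a6 : Fintype.card I * (g / (Fintype.card I + 1)) < g := by
    rw [← mul_div_assoc, div_lt_iff₀ hn]
    nlinarith
  linarith

theorem match_scale {I : Type} [Fintype I] (η : I → H) {l : ℝ} (hl : 0 ≤ l) (y : Op H) :
    ∑ i, ‖y (((√l : ℝ) : ℂ) • η i)‖ ^ 2 = l * ∑ i, ‖y (η i)‖ ^ 2 := by
  rw [mul_sum]
  refine sum_congr rfl fun i _ => ?_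
  rw [map_smul, norm_smul, mul_pow, Complex.norm_real, Real.norm_eq_abs, sq_abs, Real.sq_sqrt hl]

theorem matching (hN : NoPI M) (ζ : H) {z : Op H} (hz : Cen M z) (hz0 : z ≠ 0) {ε : ℝ}
    (hε : 0 < ε) : ∃ w, Cen M w ∧ w ≠ 0 ∧ z * w = w ∧
      ∃ (I : Type) (_ : Fintype I) (η : I → H), (∀ i, w (η i) = η i) ∧
        (∀ x ∈ M, ∑ i, ‖x (η i)‖ ^ 2 ≤ (1 + ε) * ∑ i, ‖star x (η i)‖ ^ 2) ∧
        ∀ y, Cen M y → w * y = y → ∑ i, ‖y (η i)‖ ^ 2 ≤ ‖y ζ‖ ^ 2 ∧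
          ‖y ζ‖ ^ 2 ≤ (1 + ε) * ∑ i, ‖y (η i)‖ ^ 2 := by
  obtain ⟨c, hc, hc0, hzc, I, _, η, hη, hf⟩ := loc_tr hN hz hz0 hε
  have tr : ∀ {p q r : Op H}, p * q = q → q * r = r → p * r = r := fun h1 h2 => by
    rw [← h2, ← mul_assoc, h1]
  have u1 : ∀ r : ℝ, ∑ _i : Unit, r = r := fun r => Fintype.sum_unique _
  by_cases hζ : c ζ = 0
  · refine ⟨c, hc, hc0, hzc, Empty, inferInstance, fun i => i.elim, fun i => i.elim,
      fun x _ => by simp, fun y hy hcy => ?_⟩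
    have h1 : y ζ = 0 := by rw [← hcy, hc.2.2 y hy.2.1, Conc.ap, hζ, map_zero]
    simp [h1]
  have hpos : ∀ y, Cen M y → y ≠ 0 → c * y = y → 0 < ∑ i, ‖y (η i)‖ ^ 2 := by
    intro y hy hy0 hcy
    refine lt_of_le_of_ne (sum_nonneg fun i _ => sq_nonneg _) fun h0 => hy0 (hf y hy hcy fun i => ?_)
    have := (sum_eq_zero_iff_of_nonneg fun i _ => sq_nonneg _).1 h0.symm i (mem_univ i)
    simpa using this
  have hω : 0 < ‖c ζ‖ ^ 2 := by positivity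
  have hψ := hpos c hc hc0 hc.1.isIdempotentElem
  have hl : 0 < ‖c ζ‖ ^ 2 / (2 * ∑ i, ‖c (η i)‖ ^ 2) := by positivity
  obtain ⟨z', hz', hz'0, hcz', h1⟩ := dom_piece (fun _ : Unit => ζ)
    (fun i => ((√(‖c ζ‖ ^ 2 / (2 * ∑ i, ‖c (η i)‖ ^ 2)) : ℝ) : ℂ) • η i) hc (by
      rw [match_scale η hl.le, u1, div_mul_eq_mul_div, div_lt_iff₀ (by positivity)]
      nlinarith [mul_pos hω hψ])
  set L : Set ℝ := {l | ∀ y, Cen M y → z' * y = y → l * ∑ i, ‖y (η i)‖ ^ 2 ≤ ‖y ζ‖ ^ 2} with hL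
  have m1 : ‖c ζ‖ ^ 2 / (2 * ∑ i, ‖c (η i)‖ ^ 2) ∈ L := fun y hy hzy => by
    have := h1 y hy hzy
    rwa [match_scale η hl.le, u1] at this
  have hbd : BddAbove L := ⟨‖z' ζ‖ ^ 2 / ∑ i, ‖z' (η i)‖ ^ 2, fun l hl' =>
    (le_div_iff₀ (hpos z' hz' hz'0 hcz')).2 (hl' z' hz' hz'.1.isIdempotentElem)⟩
  have hs : 0 < sSup L := hl.trans_le (le_csSup hbd m1)
  have h1ε : 0 < 1 + ε := by positivity
  obtain ⟨l, hlL, hl2⟩ := exists_lt_of_lt_csSup ⟨_, m1⟩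
    (show sSup L / (1 + ε) < sSup L from div_lt_self hs (by linarith))
  have hl0 : 0 < l := (div_pos hs h1ε).trans hl2
  have hl3 : (1 + ε) * l ∉ L := fun hm => by
    have := le_csSup hbd hm
    rw [div_lt_iff₀ h1ε] at hl2
    linarith
  obtain ⟨y₁, hy₁, hzy₁, h2⟩ : ∃ y, Cen M y ∧ z' * y = y ∧
      ‖y ζ‖ ^ 2 < (1 + ε) * l * ∑ i, ‖y (η i)‖ ^ 2 := by
    by_contra hne
    exact hl3 fun y hy hzy => not_lt.1 fun h => hne ⟨y, hy, hzy, h⟩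
  have hl4 : 0 ≤ (1 + ε) * l := by positivity
  obtain ⟨w, hw, hw0, hyw, h3⟩ := dom_piece (fun i => ((√((1 + ε) * l) : ℝ) : ℂ) • η i)
    (fun _ : Unit => ζ) hy₁ (by rwa [match_scale η hl4, u1])
  have hzw := tr hzy₁ hyw
  refine ⟨w, hw, hw0, tr hzc (tr hcz' hzw), I, inferInstance, fun i => ((√l : ℝ) : ℂ) • w (η i),
    fun i => by rw [map_smul, ← Conc.ap, hw.1.isIdempotentElem.eq], fun x hx => ?_,
    fun y hy hwy => ?_⟩
  · have k := hη (x * w) (mul_mem hx hw.2.1)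
    rw [star_mul, hw.1.isSelfAdjoint.star_eq, hw.2.2 _ (star_mem hx)] at k
    simp only [Conc.ap] at k
    rw [match_scale _ hl0.le, match_scale _ hl0.le, mul_left_comm]
    exact mul_le_mul_of_nonneg_left k hl0.le
  · have e1 : ∀ ξ, y (w ξ) = y ξ := fun ξ => by rw [← Conc.ap, ← hw.2.2 y hy.2.1, hwy]
    have k := h3 y hy hwy
    rw [match_scale η hl4, u1] at k
    rw [match_scale _ hl0.le]
    simp only [e1]
    exact ⟨hlL y hy (tr hzw hwy), by rwa [← mul_assoc]⟩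

end Pool.Agent.Kad.H3
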