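import Pool.Agent.Lib.MP_22c5db_an.H3.Avg

/-! The properly infinite case. -/

open scoped InnerProductSpace ComplexConjugate
open Finset

noncomputable section

namespace Pool.Agent.Kad.H3

open Pool.Agent.Kad.H2

universe u

set_option linter.unusedSectionVars false

variable {H : Type u} [NormedAddCommGroup H] [InnerProductSpace ℂ H] [CompleteSpace H]
  {M : VonNeumannAlgebra H} {τ : Op H →ₗ[ℝ] ℝ} {φ : Bil H} {C : ℝ}
  {ι : Type} [Fintype ι] [DecidableEq ι] {e : ι → ι → Op H}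

/-- the complement of a wandering projection is equivalent to the unit -/
theorem pinf_wander {s E : Op H} (hs : s ∈ M) (hE : E ∈ M) (h1 : star s * s = 1)
    (hp : IsStarProjection E) (h0 : star s * E = 0) :
    ∃ W ∈ M, star W * W = 1 ∧ W * star W = 1 - E := by
  obtain ⟨Q, hQ, q1, q2, -, q4, q5⟩ := exists_proj {ζ : H | ∃ (k : ℕ) (ξ : H), ζ = (s ^ k * E) ξ}
  have hEE : E * E = E := hp.isIdempotentElem.eq
  have hQQ : Q * Q = Q := hQ.isIdempotentElem.eq
  have hEs : E * s = 0 := by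
    have := congrArg star h0
    rwa [star_mul, star_star, hp.isSelfAdjoint.star_eq, star_zero] at this
  have hM : ∀ k : ℕ, s ^ k * E ∈ M := fun k => mul_mem (pow_mem hs k) hE
  have hinv : ∀ a ∈ M.commutant, ∀ ζ ∈ {ζ : H | ∃ (k : ℕ) (ξ : H), ζ = (s ^ k * E) ξ},
      Q (a ζ) = a ζ := by
    rintro a ha _ ⟨k, ξ, rfl⟩
    refine q1 _ ⟨k, a ξ, ?_⟩
    rw [← mul_apply_eq_comp, comm_of_mem (hM k) ha, mul_apply_eq_comp]
  have hQM : Q ∈ M := mem_of_comm fun a ha => q5 a (hinv a ha) (hinv _ (star_mem ha))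
  have hsV : ∀ (k : ℕ) (ξ : H), s ((s ^ k * E) ξ) = (s ^ (k + 1) * E) ξ := fun k ξ => by
    rw [← mul_apply_eq_comp, ← mul_assoc, ← pow_succ']
  have hQs : Q * s * Q = s * Q := by
    have := q4 (Q * s - s) (by
      rintro _ ⟨k, ξ, rfl⟩
      rw [_root_.sub_apply, mul_apply_eq_comp, hsV, q1 _ ⟨k + 1, ξ, rfl⟩, sub_self])
    rwa [sub_mul, sub_eq_zero] at this
  have hQE : Q * E = E := by
    refine ContinuousLinearMap.ext fun ξ => ?_
    rw [mul_apply_eq_comp]
    exact q1 _ ⟨0, ξ, by rw [pow_zero, one_mul]⟩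
  have hEQ : E * Q = E := by
    have := congrArg star hQE
    rwa [star_mul, hp.isSelfAdjoint.star_eq, hQ.isSelfAdjoint.star_eq] at this
  have key : s * Q * star s - (Q - E) = 0 := by
    refine VN1.eq_zero_of_set {ζ : H | ∃ (k : ℕ) (ξ : H), ζ = (s ^ k * E) ξ} ?_ ?_
    · rintro _ ⟨k, ξ, rfl⟩
      rw [_root_.sub_apply, _root_.sub_apply, q1 _ ⟨k, ξ, rfl⟩, mul_apply_eq_comp,
        mul_apply_eq_comp]
      cases k with
      | zero =>
        have e1 : star s ((s ^ 0 * E) ξ) = 0 := by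
          rw [pow_zero, one_mul, ← mul_apply_eq_comp, h0]; rfl
        have e2 : E ((s ^ 0 * E) ξ) = (s ^ 0 * E) ξ := by
          rw [pow_zero, one_mul, ← mul_apply_eq_comp, hEE]
        rw [e1, e2, map_zero, map_zero, sub_self, sub_self]
      | succ j =>
        have e1 : star s ((s ^ (j + 1) * E) ξ) = (s ^ j * E) ξ := by
          rw [← hsV, ← mul_apply_eq_comp (star s) s, h1]; rfl
        have e2 : E ((s ^ (j + 1) * E) ξ) = 0 := by
          rw [← hsV, ← mul_apply_eq_comp E s, hEs]; rfl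
        rw [e1, e2, q1 _ ⟨j, ξ, rfl⟩, hsV, sub_zero, sub_self]
    · intro η hη
      have e1 : Q η = 0 := q2 η hη
      have e2 : E η = 0 := by rw [← hEQ, mul_apply_eq_comp, e1, map_zero]
      have e3 : Q (star s η) = 0 := by
        refine q2 _ ?_
        rintro _ ⟨k, ξ, rfl⟩
        rw [VN1.inner_star_right, hsV]
        exact hη _ ⟨k + 1, ξ, rfl⟩
      rw [_root_.sub_apply, _root_.sub_apply, mul_apply_eq_comp, mul_apply_eq_comp, e1, e2, e3,
        map_zero, sub_self, sub_self]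
  rw [sub_eq_zero] at key
  have hQs' : Q * star s * Q = Q * star s := by
    have := congrArg star hQs
    rwa [star_mul, star_mul, star_mul, hQ.isSelfAdjoint.star_eq, ← mul_assoc] at this
  have hst : star (s * Q + (1 - Q)) = Q * star s + (1 - Q) := by
    rw [star_add, star_mul, star_sub, star_one, hQ.isSelfAdjoint.star_eq]
  refine ⟨s * Q + (1 - Q), add_mem (mul_mem hs hQM) (sub_mem (one_mem M) hQM), ?_, ?_⟩
  · rw [hst]
    have e : (Q * star s + (1 - Q)) * (s * Q + (1 - Q)) = Q * (star s * s) * Q +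
        (Q * star s - Q * star s * Q) + (s * Q - Q * s * Q) + (1 - Q - Q + Q * Q) := by
      noncomm_ring
    rw [e, h1, mul_one, hQQ, hQs, hQs']
    abel
  · rw [hst]
    have e : (s * Q + (1 - Q)) * (Q * star s + (1 - Q)) = s * (Q * Q) * star s +
        s * (Q - Q * Q) + (Q - Q * Q) * star s + (1 - Q - Q + Q * Q) := by
      noncomm_ring
    rw [e, hQQ, key, sub_self, mul_zero, zero_mul]
    abel

/-- the diagonal map of a family of orthogonal isometries -/
def pinfHom {I : Type} [Fintype I] [DecidableEq I] (t : I → Op H)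
    (ht : ∀ i j, star (t i) * t j = if i = j then 1 else 0) : Op H →⋆ₙₐ[ℂ] Op H where
  toFun X := ∑ i, t i * X * star (t i)
  map_smul' c X := by
    simp only [mul_smul_comm, smul_mul_assoc, smul_sum, MonoidHom.id_apply]
  map_zero' := by simp only [mul_zero, zero_mul, sum_const_zero]
  map_add' X Y := by simp only [mul_add, add_mul, sum_add_distrib]
  map_mul' X Y := by
    have e : ∀ i j, t i * X * star (t i) * (t j * Y * star (t j)) =
        t i * X * (star (t i) * t j) * Y * star (t j) := fun i j => by noncomm_ring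
    simp only [sum_mul, mul_sum, e, ht, mul_ite, ite_mul, mul_one, mul_zero, zero_mul,
      sum_ite_eq', mem_univ, if_true]
    simp only [mul_assoc]
  map_star' X := by
    simp only [star_sum, star_mul, star_star, mul_assoc]

theorem pinf_norm {I : Type} [Fintype I] [DecidableEq I] {t : I → Op H}
    (ht : ∀ i j, star (t i) * t j = if i = j then 1 else 0) (X : Op H) :
    ‖∑ i, t i * X * star (t i)‖ ≤ ‖X‖ :=
  NonUnitalStarAlgHom.norm_apply_le (pinfHom t ht) X

theorem pinf_cen_one : Cen M 1 :=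
  ⟨IsStarProjection.one _, one_mem M, fun x _ => by rw [one_mul, mul_one]⟩

theorem cuntz (h : PI M 1) (n : ℕ) : ∃ t : Fin (n + 1) → Op H, (∀ i, t i ∈ M) ∧
    (∀ i j, star (t i) * t j = if i = j then 1 else 0) ∧ ∑ i, t i * star (t i) = 1 := by
  obtain ⟨t, htM, ht⟩ := Cases.exists_isoms pinf_cen_one h
  set E : Op H := ∑ i : Fin n, t (i + 1) * star (t (i + 1)) with hE
  have hEM : E ∈ M := sum_mem fun i _ => mul_mem (htM _) (star_mem (htM _))
  have hEt : ∀ j : Fin n, E * t (j + 1) = t (j + 1) := fun j => by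
    simp only [hE, sum_mul, mul_assoc, ht, Nat.add_right_cancel_iff, Fin.val_inj, mul_ite, mul_one,
      mul_zero, sum_ite_eq', mem_univ, if_true]
  have hp : IsStarProjection E := by
    refine ⟨?_, ?_⟩
    · show E * E = E
      nth_rewrite 2 [hE]
      rw [mul_sum]
      simp only [← mul_assoc, hEt]
      rfl
    · show star E = E
      simp only [hE, star_sum, star_mul, star_star]
  have h0 : star (t 0) * E = 0 := by
    rw [hE, mul_sum]
    refine sum_eq_zero fun i _ => ?_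
    rw [← mul_assoc, ht, if_neg (by omega), zero_mul]
  obtain ⟨W, hW, w1, w2⟩ := pinf_wander (htM 0) hEM (by rw [ht, if_pos rfl]) hp h0
  have w3 : ∀ j : Fin n, star W * t (j + 1) = 0 := fun j => by
    have e : star W * t (j + 1) = star W * W * (star W * t (j + 1)) := by rw [w1, one_mul]
    rw [e, mul_assoc, ← mul_assoc W, w2, sub_mul, one_mul, hEt, sub_self, mul_zero]
  have w4 : ∀ j : Fin n, star (t (j + 1)) * W = 0 := fun j => by
    have := congrArg star (w3 j)
    rwa [star_mul, star_star, star_zero] at this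
  refine ⟨Fin.cons W fun i : Fin n => t (i + 1), fun i => ?_, fun i j => ?_, ?_⟩
  · refine Fin.cases ?_ (fun i => ?_) i
    · exact hW
    · exact htM _
  · refine Fin.cases ?_ (fun i => ?_) i <;> refine Fin.cases ?_ (fun j => ?_) j
    · rw [if_pos rfl]; exact w1
    · rw [if_neg (Fin.succ_ne_zero j).symm]; exact w3 j
    · rw [if_neg (Fin.succ_ne_zero i)]; exact w4 i
    · simp only [Fin.cons_succ, ht, Nat.add_right_cancel_iff, Fin.val_inj, Fin.succ_inj]
  · rw [Fin.sum_univ_succ]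
    simp only [Fin.cons_zero, Fin.cons_succ]
    rw [w2, ← hE, sub_add_cancel]

theorem col_pi (hP : PI M 1) (h : CC M φ) (hb : Bd2 M φ C) (hC : 0 ≤ C) :
    ∃ β : Op H →ₗ[ℂ] Op H, Bd M β (3 * C) ∧ Col M (φ - cob β) (5 * C) := by
  obtain ⟨t, htM, ht⟩ := Cases.exists_isoms pinf_cen_one hP
  let r : ℕ → ℝ := fun n => √(1 / ((n : ℝ) + 1))
  have hr : ∀ n, r n * r n = 1 / ((n : ℝ) + 1) := fun n => Real.mul_self_sqrt (by positivity)
  let a : (n : ℕ) → Fin (n + 1) → Op H := fun n i => (r n : ℂ) • t i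
  have ht' : ∀ (n : ℕ) (i j : Fin (n + 1)), star (t i) * t j = if i = j then 1 else 0 :=
    fun n i j => by simp only [ht, Fin.val_inj]
  have haM : ∀ n i, a n i ∈ M := fun n i => smul_mem' _ (htM _)
  have hst : ∀ n i, star (a n i) = (r n : ℂ) • star (t i) := fun n i => by
    simp only [a, star_smul, RCLike.star_def, Complex.conj_ofReal]
  have h1 : ∀ n, ∑ i, star (a n i) * a n i = 1 := fun n => by
    have e : ∀ i, star (a n i) * a n i = ((r n * r n : ℝ) : ℂ) • (1 : Op H) := fun i => by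
      rw [hst]
      simp only [a, smul_mul_smul_comm, ht, if_true, Complex.ofReal_mul]
    simp only [e, sum_const, card_univ, Fintype.card_fin, hr]
    rw [← Nat.cast_smul_eq_nsmul ℂ, smul_smul]
    have : (((n + 1 : ℕ) : ℂ) * ((1 / ((n : ℝ) + 1) : ℝ) : ℂ)) = 1 := by
      have : ((n : ℂ) + 1) ≠ 0 := by exact_mod_cast Nat.succ_ne_zero n
      push_cast
      field_simp
    rw [this, one_smul]
  have h2 : ∀ n (X : Op H), ‖∑ i, a n i * X * star (a n i)‖ ≤ 1 / ((n : ℝ) + 1) * ‖X‖ :=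
    fun n X => by
    have e : ∀ i, a n i * X * star (a n i) = ((r n * r n : ℝ) : ℂ) • (t i * X * star (t i)) :=
      fun i => by
      rw [hst]
      simp only [a, smul_mul_assoc, mul_smul_comm, smul_smul, Complex.ofReal_mul]
    simp only [e, hr]
    rw [← smul_sum, norm_smul, Complex.norm_real, Real.norm_of_nonneg (by positivity)]
    exact mul_le_mul_of_nonneg_left (pinf_norm (ht' n) X) (by positivity)
  have h3 : ∀ n, ‖∑ i, a n i * star (a n i)‖ ≤ 1 := fun n => by
    have k := h2 n 1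
    simp only [mul_one] at k
    have k1 : ‖(1 : Op H)‖ ≤ 1 := ContinuousLinearMap.norm_id_le
    have k2 : 1 / ((n : ℝ) + 1) ≤ 1 := by
      rw [div_le_one (by positivity)]
      linarith [Nat.cast_nonneg (α := ℝ) n]
    exact k.trans (mul_le_one₀ k2 (norm_nonneg _) k1)
  obtain ⟨β, hβ, hcol, -⟩ := col_lim (φ := φ) (D := 5 * C) (Filter.hyperfilter ℕ)
    (fun n => avg φ (a n)) (by positivity : 0 ≤ 3 * C)
    (fun n => avg_bd hb hC (haM n) (h1 n) (h3 n)) (by
      intro κ _ x hx s hs hx1 y hy ζ ε hε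
      set X := ∑ l, x l * star (x l) with hX
      have hlim : Filter.Tendsto (fun n : ℕ => (C * (5 * s + 2 * √(1 / ((n : ℝ) + 1) * ‖X‖)) *
          ‖y‖ * ‖ζ‖) ^ 2) Filter.atTop (nhds ((C * (5 * s + 2 * √(0 * ‖X‖)) * ‖y‖ * ‖ζ‖) ^ 2)) :=
        (((((tendsto_one_div_add_atTop_nhds_zero_nat.mul_const _).sqrt.const_mul _).const_add
          _).const_mul _).mul_const _ |>.mul_const _).pow 2
      have e : (C * (5 * s + 2 * √(0 * ‖X‖)) * ‖y‖ * ‖ζ‖) ^ 2 = (5 * C * s * ‖y‖ * ‖ζ‖) ^ 2 := by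
        rw [zero_mul, Real.sqrt_zero]; ring
      rw [e] at hlim
      refine ((hlim.eventually (gt_mem_nhds (lt_add_of_pos_right _ hε))).filter_mono
        Nat.hyperfilter_le_atTop).mono fun n hn => le_trans ?_ hn.le
      exact avg_gt h hb hC (haM n) (h1 n) (h3 n) hx hs (Real.sqrt_nonneg _) hx1
        (by rw [Real.sq_sqrt (by positivity)]; exact h2 n X) hy ζ)
  exact ⟨β, hβ, hcol⟩

theorem pinf_cs {κ : Type} [Fintype κ] (χ a : κ → H) {K : ℝ} (hK : 0 ≤ K)
    (h : ∑ j, ‖a j‖ ^ 2 ≤ K ^ 2) : ‖∑ j, ⟪χ j, a j⟫_ℂ‖ ≤ K * √(∑ j, ‖χ j‖ ^ 2) := by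
  refine (norm_sum_le_of_le _ (n := fun j => ‖a j‖ * ‖χ j‖) fun j _ =>
    (norm_inner_le_norm _ _).trans (mul_comm _ _).le).trans ?_
  refine (CaseC.cs_sum (fun j => ‖a j‖) fun j => ‖χ j‖).trans ?_
  exact mul_le_mul_of_nonneg_right (Real.sqrt_le_iff.2 ⟨hK, h⟩) (Real.sqrt_nonneg _)

theorem pinf_one {x : Op H} (h : ‖star x * x‖ ≤ 1) : ‖x‖ ≤ 1 := by
  rw [CStarRing.norm_star_mul_self] at h
  nlinarith [norm_nonneg x]

theorem pinf_norm_one : ‖(1 : Op H)‖ ≤ 1 := ContinuousLinearMap.norm_id_le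

theorem kp_pi (hP : PI M 1) (h : CC M φ) (hc : Col M φ C) (hC : 0 ≤ C) : KP M φ (12 * C) := by
  classical
  intro κ _ u v hu hv hv1 ζ χ
  obtain ⟨t, htM, ht, ht1⟩ := cuntz hP (Fintype.card κ)
  obtain ⟨f, hf⟩ : ∃ f : κ → Fin (Fintype.card κ + 1), Function.Injective f :=
    ⟨fun j => (Fintype.equivFin κ j).castSucc,
      (Fin.castSucc_injective _).comp (Fintype.equivFin κ).injective⟩
  have he : MU (fun i j => t i * star (t j)) 1 := by
    refine ⟨fun i j k l => ?_, fun i j => by rw [star_mul, star_star], ht1⟩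
    rw [mul_assoc, ← mul_assoc (star (t j)), ht]
    split_ifs
    · rw [one_mul]
    · rw [zero_mul, mul_zero]
  obtain ⟨β, hβ, hN⟩ := normalise h hc hC he fun i j => mul_mem (htM i) (star_mem (htM j))
  refine ⟨β, fun x hx => (hβ x hx).trans (by gcongr; norm_num), ?_⟩
  generalize φ - cob β = ψ at hN ⊢
  obtain ⟨V, hV⟩ : ∃ V, V = ∑ j, t (f j) * v j := ⟨_, rfl⟩
  have hVM : V ∈ M := hV ▸ sum_mem fun j _ => mul_mem (htM _) (hv j)
  have hsV : ∀ j, star (t (f j)) * V = v j := fun j => by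
    rw [hV, mul_sum, sum_eq_single j]
    · rw [← mul_assoc, ht, if_pos rfl, one_mul]
    · intro i _ hi
      rw [← mul_assoc, ht, if_neg fun h => hi (hf h).symm, zero_mul]
    · exact fun h => absurd (mem_univ j) h
  have hV1 : ‖V‖ ≤ 1 := by
    refine pinf_one ?_
    have e1 : star V * V = ∑ j, star (v j) * v j := by
      conv_lhs => rw [hV, star_sum, sum_mul, ← hV]
      exact sum_congr rfl fun j _ => by rw [star_mul, mul_assoc, hsV]
    rw [e1]
    simpa using cl_iff.1 hv1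
  have c0 : Cl (fun i => star (t i)) 1 := cl_iff.2 (by
    simp only [star_star, ht1, _root_.one_pow]
    exact pinf_norm_one)
  have c1 : Cl (fun j => star (t (f j))) 1 := fun η => by
    refine le_trans ?_ (c0 η)
    rw [← sum_image (s := univ) (g := f) (f := fun i => ‖star (t i) η‖ ^ 2) fun a _ b _ h => hf h]
    exact sum_le_sum_of_subset_of_nonneg (subset_univ _) fun i _ _ => sq_nonneg _
  have c2 : Cl (fun j => u j * star (t (f j))) 1 := fun η => by
    refine le_trans (sum_le_sum fun j _ => ?_) (c1 η)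
    exact pow_le_pow_left₀ (norm_nonneg _) (RM.app_le (RM.unit_le (hu j).2) _) 2
  have t0 : ‖t 0‖ ≤ 1 := pinf_one (by rw [ht, if_pos rfl]; exact pinf_norm_one)
  have key : ∀ j, ψ (u j) (v j) ζ = ψ (u j * star (t (f j))) V ζ -
      u j (ψ (star (t (f j))) V ζ) + ψ (u j) (star (t 0)) (t 0 (v j ζ)) := fun j => by
    have a1 := hN.cc _ (hu j).1 _ (star_mem (htM (f j))) _ hVM
    have a2 := hN.cc _ (hu j).1 _ (star_mem (htM 0)) _ (hN.mem 0 (f j))
    rw [hN.right _ (mul_mem (hu j).1 (star_mem (htM 0))), hN.right _ (star_mem (htM 0)),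
      ← mul_assoc (star (t 0)), ht, if_pos rfl, one_mul, mul_zero, zero_add, eq_comm,
      sub_eq_zero] at a2
    rw [hsV, a2, mul_assoc, mul_assoc, hsV] at a1
    rw [a1]
    simp only [sub_apply, add_apply, RM.mapp]
    abel
  have hK : 0 ≤ 4 * C * ‖ζ‖ := by positivity
  have hcol : ∀ x : κ → Op H, (∀ j, x j ∈ M) → Cl x 1 →
      ∑ j, ‖ψ (x j) V ζ‖ ^ 2 ≤ (4 * C * ‖ζ‖) ^ 2 := fun x hx hx1 => by
    refine (hN.col κ x hx 1 zero_le_one hx1 V hVM ζ).trans ?_
    rw [mul_one]
    exact pow_le_pow_left₀ (by positivity) (mul_le_mul_of_nonneg_right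
      (mul_le_of_le_one_right hN.c0 hV1) (norm_nonneg _)) 2
  have b1 := pinf_cs χ _ hK (hcol _ (fun j => mul_mem (hu j).1 (star_mem (htM _))) c2)
  have b2 := pinf_cs χ (fun j => u j (ψ (star (t (f j))) V ζ)) hK
    (le_trans (sum_le_sum fun j _ =>
      pow_le_pow_left₀ (norm_nonneg _) (RM.app_le (RM.unit_le (hu j).2) _) 2)
      (hcol _ (fun j => star_mem (htM _)) c1))
  have b3 := pinf_cs χ (fun j => ψ (u j) (star (t 0)) (t 0 (v j ζ))) hK (by
    have q : ∀ j, ‖ψ (u j) (star (t 0)) (t 0 (v j ζ))‖ ≤ 4 * C * ‖v j ζ‖ := fun j => by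
      have q1 := hN.col.bd hN.c0 _ (hu j).1 _ (star_mem (htM 0))
      have q2 : ‖ψ (u j) (star (t 0))‖ ≤ 4 * C := by
        refine q1.trans ?_
        rw [norm_star, mul_assoc]
        exact mul_le_of_le_one_right hN.c0
          (mul_le_one₀ (RM.unit_le (hu j).2) (norm_nonneg _) t0)
      exact (ContinuousLinearMap.le_of_opNorm_le _ q2 _).trans
        (mul_le_mul_of_nonneg_left (RM.app_le t0 _) hN.c0)
    refine (sum_le_sum fun j _ => pow_le_pow_left₀ (norm_nonneg _) (q j) 2).trans ?_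
    simp only [mul_pow (4 * C), ← mul_sum]
    exact mul_le_mul_of_nonneg_left (by simpa using hv1 ζ) (sq_nonneg _))
  simp only [key, inner_add_right, inner_sub_right, sum_add_distrib, sum_sub_distrib]
  refine (norm_add_le_of_le ((norm_sub_le _ _).trans (add_le_add b1 b2)) b3).trans (le_of_eq ?_)
  ring

theorem loc_pi (hP : PI M 1) (h : CC M φ) (hb : Bd2 M φ C) (hC : 0 ≤ C) :
    Loc M φ (10 ^ 11 * C) := by
  obtain ⟨β, hβ, hcol⟩ := col_pi hP h hb hC
  have h1 := h.sub_cob β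
  have h2 := loc_of_kp h1 (kp_pi hP h1 hcol (by positivity)) (by positivity)
  exact (h2.add hβ).mono (by linarith)

end Pool.Agent.Kad.H3
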