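import Pool.Agent.Lib.MP_22c5db_an.H3.Basic

/-! Partitions and cuts. -/

open scoped InnerProductSpace ComplexConjugate
open Finset

noncomputable section

namespace Pool.Agent.Kad.H3

open Pool.Agent.Kad.H2

universe u

set_option linter.unusedSectionVars false

variable {H : Type u} [NormedAddCommGroup H] [InnerProductSpace ℂ H] [CompleteSpace H]
  {M : VonNeumannAlgebra H} {τ : Op H →ₗ[ℝ] ℝ} {φ : Bil H} {C : ℝ}
  {ι : Type} [Fintype ι] [DecidableEq ι] {e : ι → ι → Op H}

theorem part0_ind {X : Op H} (hX : X ∈ M) (h0 : 0 ≤ X) {ε : ℝ} (hε : 0 < ε) (n : ℕ) :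
    ∀ p : Op H, IsStarProjection p → p ∈ M → ‖p * X * p‖ ≤ (n + 1) * ε →
    ∃ (T : Type) (_ : Fintype T) (q : T → Op H), (∀ t, IsStarProjection (q t) ∧ q t ∈ M) ∧
      ∑ t, q t = p ∧ ∀ σ : Op H →ₗ[ℝ] ℝ, Tr0 M σ →
        ∑ t, σ (q t) * ‖q t * X * q t‖ ≤ σ (p * X * p) + ε * σ p := by
  induction n with
  | zero =>
    intro p hp hpM hn
    refine ⟨Unit, inferInstance, fun _ => p, fun _ => ⟨hp, hpM⟩, by simp, fun σ h => ?_⟩
    have a1 : 0 ≤ σ (p * X * p) := h.nonneg (mul_mem (mul_mem hpM hX) hpM)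
      (by simpa [hp.isSelfAdjoint.star_eq] using star_left_conjugate_nonneg h0 p)
    have a2 := mul_le_mul_of_nonneg_left hn (h.proj hp hpM).1
    simp only [univ_unique, sum_singleton]
    push_cast at a2
    linarith
  | succ n ih =>
    intro p hp hpM hn
    have hc : 0 < ((n : ℝ) + 1) * ε := by positivity
    obtain ⟨q, hqM, hq, h1, h2, h3, h4⟩ := part_split hX h0 hc hp hpM
    have hr : IsStarProjection (p - q) := hq.sub_of_mul_eq_left hp h2
    have hrM : p - q ∈ M := sub_mem hpM hqM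
    obtain ⟨T, _, r, r1, r2, r3⟩ := ih (p - q) hr hrM h4
    refine ⟨Option T, inferInstance, fun o => o.elim q r, ?_, ?_, fun σ h => ?_⟩
    · rintro (_ | t)
      · exact ⟨hq, hqM⟩
      · exact r1 t
    · simp only [Fintype.sum_option, Option.elim_none, Option.elim_some, r2, add_sub_cancel]
    · simp only [Fintype.sum_option, Option.elim_none, Option.elim_some]
      have qq : q * q = q := hq.isIdempotentElem.eq
      have a1 : σ (q * X * (p - q)) = 0 := by
        rw [h.comm _ (mul_mem hqM hX) _ hrM, ← mul_assoc, sub_mul, h1, qq, sub_self, zero_mul,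
          map_zero]
      have a2 : σ ((p - q) * X * q) = 0 := by
        rw [h.comm _ (mul_mem hrM hX) _ hqM, ← mul_assoc, mul_sub, h2, qq, sub_self, zero_mul,
          map_zero]
      have a3 : p * X * p = q * X * q + q * X * (p - q) + (p - q) * X * q +
          (p - q) * X * (p - q) := by noncomm_ring
      have a4 := h.mono (part_smul_mem hqM _) (mul_mem (mul_mem hqM hX) hqM) h3
      have a5 := mul_le_mul_of_nonneg_left ((part_norm (X := X) hq h1 h2).trans hn)
        (h.proj hq hqM).1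
      have a6 := r3 σ h
      rw [map_smul, smul_eq_mul] at a4
      rw [map_sub σ p q] at a6
      rw [a3, map_add, map_add, map_add, a1, a2]
      push_cast at a5
      linarith

theorem part0_one {X : Op H} (hX : X ∈ M) (h0 : 0 ≤ X) {ε : ℝ} (hε : 0 < ε)
    {p : Op H} (hp : IsStarProjection p) (hpM : p ∈ M) :
    ∃ (T : Type) (_ : Fintype T) (q : T → Op H), (∀ t, IsStarProjection (q t) ∧ q t ∈ M) ∧
      ∑ t, q t = p ∧ ∀ σ : Op H →ₗ[ℝ] ℝ, Tr0 M σ →
        ∑ t, σ (q t) * ‖q t * X * q t‖ ≤ σ (p * X * p) + ε * σ p := by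
  obtain ⟨n, hn⟩ := exists_nat_ge (‖p * X * p‖ / ε)
  refine part0_ind hX h0 hε n p hp hpM ?_
  rw [div_le_iff₀ hε] at hn
  linarith

theorem part0 {κ : Type} [Fintype κ] {X : κ → Op H} (hX : ∀ j, X j ∈ M) (h0 : ∀ j, 0 ≤ X j)
    {ε : ℝ} (hε : 0 < ε) :
    ∃ (T : Type) (_ : Fintype T) (q : T → Op H), (∀ t, IsStarProjection (q t) ∧ q t ∈ M) ∧
      ∑ t, q t = 1 ∧ ∀ σ : Op H →ₗ[ℝ] ℝ, Tr0 M σ →
        ∀ j, ∑ t, σ (q t) * ‖q t * X j * q t‖ ≤ σ (X j) + ε := by
  classical
  have key : ∀ s : Finset κ, ∃ (T : Type) (_ : Fintype T) (q : T → Op H),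
      (∀ t, IsStarProjection (q t) ∧ q t ∈ M) ∧ ∑ t, q t = 1 ∧ ∀ σ : Op H →ₗ[ℝ] ℝ, Tr0 M σ →
      ∀ j ∈ s, ∑ t, σ (q t) * ‖q t * X j * q t‖ ≤ σ (X j) + ε := by
    intro s
    induction s using Finset.induction_on with
    | empty =>
      exact ⟨Unit, inferInstance, fun _ => 1, fun _ => ⟨IsStarProjection.one _, one_mem M⟩,
        by simp, by simp⟩
    | insert i s _ ih =>
      obtain ⟨T, _, q, q1, q2, q3⟩ := ih
      choose U hU r r1 r2 r3 using fun t => part0_one (hX i) (h0 i) hε (q1 t).1 (q1 t).2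
      refine ⟨Σ t, U t, inferInstance, fun x => r x.1 x.2, fun x => r1 x.1 x.2, ?_,
        fun σ h j hj => ?_⟩
      · simp only [Fintype.sum_sigma, r2, q2]
      rw [Fintype.sum_sigma]
      rcases mem_insert.1 hj with rfl | hj
      · refine (sum_le_sum fun t _ => r3 t σ h).trans (le_of_eq ?_)
        have e : ∀ t, σ (q t * X j * q t) = σ (q t * X j) := fun t => by
          rw [h.comm _ (mul_mem (q1 t).2 (hX j)) _ (q1 t).2, ← mul_assoc,
            (q1 t).1.isIdempotentElem.eq]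
        simp only [e]
        rw [sum_add_distrib, ← mul_sum, ← map_sum, ← map_sum, ← sum_mul, q2, one_mul, h.one,
          mul_one]
      · refine le_trans (sum_le_sum fun t _ => ?_) (q3 σ h j hj)
        have e : σ (q t) = ∑ u, σ (r t u) := by rw [← map_sum, r2]
        rw [e, sum_mul]
        refine sum_le_sum fun u _ => mul_le_mul_of_nonneg_left ?_ (h.proj (r1 t u).1 (r1 t u).2).1
        have a1 := (proj_sum (fun u => (r1 t u).1) (q1 t).1 (r2 t)).1 u
        have a2 := congrArg star a1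
        rw [star_mul, (r1 t u).1.isSelfAdjoint.star_eq, (q1 t).1.isSelfAdjoint.star_eq] at a2
        exact part_norm (r1 t u).1 a1 a2
  obtain ⟨T, i, q, q1, q2, q3⟩ := key univ
  exact ⟨T, i, q, q1, q2, fun σ h j => q3 σ h j (mem_univ j)⟩

theorem cutL_proj {c p : Op H} (hc : Cen M c) (hp : IsStarProjection p) (hpM : p ∈ M) :
    IsStarProjection (c * p) := hc.1.mul hp (hc.2.2 p hpM)

theorem cutL_sm {c t a : Op H} (hc : Cen M c) (haM : a ∈ M) (ht : star t * t = a) :
    star (t * c) * (t * c) = c * a := by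
  rw [star_mul, hc.1.isSelfAdjoint.star_eq]
  calc c * star t * (t * c) = c * ((star t * t) * c) := by simp only [mul_assoc]
    _ = c * a := by rw [ht, ← hc.2.2 a haM, ← mul_assoc, hc.1.isIdempotentElem.eq]

theorem cutL_ms {c t : Op H} (hc : Cen M c) (htM : t ∈ M) :
    t * c * star (t * c) = c * (t * star t) := by
  rw [star_mul, hc.1.isSelfAdjoint.star_eq]
  calc t * c * (c * star t) = t * (c * c) * star t := by simp only [mul_assoc]
    _ = c * (t * star t) := by rw [hc.1.isIdempotentElem.eq, ← hc.2.2 t htM, mul_assoc]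

theorem cutL_aux (h : Tr M τ) {f : Op H} (hf : IsStarProjection f) (hfM : f ∈ M) (N : ℕ) :
    ∀ p : Op H, IsStarProjection p → p ∈ M → ∀ z : Op H, Cen M z → z ≠ 0 →
      (∀ y, Cen M y → z * y = y → y ≠ 0 → τ (y * p) < N * τ (y * f)) →
      ∃ w, Cen M w ∧ w ≠ 0 ∧ z * w = w ∧
      ∃ (n : ℕ) (t : Fin n → Op H) (r : Op H), (∀ i, t i ∈ M ∧ star (t i) * t i = w * f) ∧
        IsStarProjection r ∧ r ∈ M ∧ ∑ i, t i * star (t i) + r = w * p ∧
        (∀ y, Cen M y → τ (y * r) ≤ τ (y * f)) ∧ τ r < τ (w * f) := by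
  induction N with
  | zero =>
    intro p hp hpM z hz hz0 hl
    have h1 := hl z hz hz.1.isIdempotentElem.eq hz0
    rw [Nat.cast_zero, zero_mul] at h1
    exact absurd (h.proj (cutL_proj hz hp hpM) (mul_mem hz.2.1 hpM)).1 (not_le.2 h1)
  | succ N ih =>
    intro p hp hpM z hz hz0 hl
    have zz : z * z = z := hz.1.isIdempotentElem.eq
    obtain ⟨y, hy, l1, l2⟩ := compare hf hp hfM hpM
    obtain ⟨t0, ht0M, ht0, hpt0⟩ := l1.isom (cutL_proj hy hf hfM) (mul_mem hy.2.1 hfM) hp
    obtain ⟨s0, hs0M, hs0, hfs0⟩ :=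
      l2.isom (cutL_proj hy.one_sub hp hpM) (mul_mem hy.one_sub.2.1 hpM) hf
    by_cases hzy : z * y = 0
    · have hsM : s0 * z ∈ M := mul_mem hs0M hz.2.1
      have e1 : star (s0 * z) * (s0 * z) = z * p := by
        rw [cutL_sm hz (mul_mem hy.one_sub.2.1 hpM) hs0, ← mul_assoc, mul_sub, mul_one, hzy,
          sub_zero]
      have e2 : f * (s0 * z) = s0 * z := by rw [← mul_assoc, hfs0]
      have e3 : z * (s0 * z) = s0 * z := by rw [hz.2.2 _ hsM, mul_assoc, zz]
      generalize s0 * z = s at hsM e1 e2 e3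
      have pzp := cutL_proj hz hp hpM
      have pzf := cutL_proj hz hf hfM
      by_cases hs : s * star s = z * f
      · refine ⟨z, hz, hz0, zz, 1, fun _ => star s, 0, fun _ => ⟨star_mem hsM, ?_⟩, .zero _,
          zero_mem M, ?_, fun y' hy' => ?_, ?_⟩
        · rw [star_star, hs]
        · rw [Fin.sum_univ_one, star_star, e1, add_zero]
        · rw [mul_zero, map_zero]
          exact (h.proj (cutL_proj hy' hf hfM) (mul_mem hy'.2.1 hfM)).1
        · rw [map_zero]
          have h1 := hl z hz zz hz0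
          have h2 := (h.proj pzp (mul_mem hz.2.1 hpM)).1
          refine lt_of_le_of_ne (h.proj pzf (mul_mem hz.2.1 hfM)).1 fun e => ?_
          rw [← e, mul_zero] at h1
          exact absurd h2 (not_le.2 h1)
      · refine ⟨z, hz, hz0, zz, 0, Fin.elim0, z * p, fun i => i.elim0, pzp, mul_mem hz.2.1 hpM,
          by simp, fun y' hy' => (Tr0.of h).le_cen hsM pzp hf hfM e1 e2 hy', ?_⟩
        have e4 : z * f * (s * star s) = s * star s := by
          rw [mul_assoc, ← mul_assoc f, e2, ← mul_assoc, e3]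
        have e5 : IsStarProjection (z * f - s * star s) :=
          (cut_proj pzp e1).sub_of_mul_eq_right pzf e4
        obtain ⟨a1, -, a3⟩ := h.proj e5
          (sub_mem (mul_mem hz.2.1 hfM) (mul_mem hsM (star_mem hsM)))
        rw [map_sub, cut_tr h hsM e1] at a1 a3
        refine lt_of_le_of_ne (by linarith) fun e => hs ?_
        exact (sub_eq_zero.1 (a3 (by linarith))).symm
    · have hc : Cen M (z * y) := hz.mul hy
      have zc : z * (z * y) = z * y := by rw [← mul_assoc, zz]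
      have cy : z * y * y = z * y := by rw [mul_assoc, hy.1.isIdempotentElem.eq]
      generalize z * y = c at hzy hc zc cy
      have cc : c * c = c := hc.1.isIdempotentElem.eq
      have htM : t0 * c ∈ M := mul_mem ht0M hc.2.1
      have e1 : star (t0 * c) * (t0 * c) = c * f := by
        rw [cutL_sm hc (mul_mem hy.2.1 hfM) ht0, ← mul_assoc, cy]
      have e2 : p * (t0 * c) = t0 * c := by rw [← mul_assoc, hpt0]
      have e3 : c * (t0 * c) = t0 * c := by rw [hc.2.2 _ htM, mul_assoc, cc]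
      generalize t0 * c = t at htM e1 e2 e3
      have pcp := cutL_proj hc hp hpM
      have pcf := cutL_proj hc hf hfM
      have e4 : c * p * (t * star t) = t * star t := by
        rw [mul_assoc, ← mul_assoc p, e2, ← mul_assoc, e3]
      have e5 : IsStarProjection (c * p - t * star t) :=
        (cut_proj pcf e1).sub_of_mul_eq_right pcp e4
      obtain ⟨w, hw, hw0, cw, n, s, r, a1, a2, a3, a4, a5, a6⟩ := ih (c * p - t * star t) e5
        (sub_mem (mul_mem hc.2.1 hpM) (mul_mem htM (star_mem htM))) c hc hzy (by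
          intro y' hy' cy' hy0
          have yc : y' * c = y' := by rw [hy'.2.2 c hc.2.1, cy']
          have h1 := hl y' hy' (by rw [← cy', ← mul_assoc, zc]) hy0
          have h2 : τ (y' * (t * star t)) = τ (y' * f) := by
            rw [← cutL_ms hy' htM, cut_tr h (mul_mem htM hy'.2.1)
              (cutL_sm hy' (mul_mem hc.2.1 hfM) e1), ← mul_assoc, yc]
          rw [mul_sub, map_sub, h2, ← mul_assoc, yc]
          push_cast at h1
          linarith)
      have wc : w * c = w := by rw [hw.2.2 c hc.2.1, cw]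
      refine ⟨w, hw, hw0, by rw [← cw, ← mul_assoc, zc], n + 1, Fin.cons (t * w) s, r,
        fun i => ?_, a2, a3, ?_, a5, a6⟩
      · refine Fin.cases ?_ (fun i => ?_) i
        · refine ⟨mul_mem htM hw.2.1, ?_⟩
          rw [Fin.cons_zero, cutL_sm hw (mul_mem hc.2.1 hfM) e1, ← mul_assoc, wc]
        · exact a1 i
      · rw [Fin.sum_univ_succ, Fin.cons_zero]
        simp only [Fin.cons_succ]
        rw [add_assoc, a4, cutL_ms hw htM, mul_sub, add_sub_cancel, ← mul_assoc, wc]

theorem cutL (h : Tr M τ) {f : Op H} (hf : IsStarProjection f) (hfM : f ∈ M) {k : ℕ}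
    (hk : ∀ y, Cen M y → τ y = k * τ (y * f)) {p : Op H} (hp : IsStarProjection p) (hpM : p ∈ M)
    {z : Op H} (hz : Cen M z) (hz0 : z ≠ 0) : ∃ w, Cen M w ∧ w ≠ 0 ∧ z * w = w ∧
      ∃ (n : ℕ) (t : Fin n → Op H) (r : Op H), (∀ i, t i ∈ M ∧ star (t i) * t i = w * f) ∧
        IsStarProjection r ∧ r ∈ M ∧ ∑ i, t i * star (t i) + r = w * p ∧
        (∀ y, Cen M y → τ (y * r) ≤ τ (y * f)) ∧ τ r < τ (w * f) := by
  refine cutL_aux h hf hfM (k + 1) p hp hpM z hz hz0 fun y hy _ hy0 => ?_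
  have h1 := (h.proj (cutL_proj hy hp.one_sub (sub_mem (one_mem M) hpM))
    (mul_mem hy.2.1 (sub_mem (one_mem M) hpM))).1
  rw [mul_sub, mul_one, map_sub] at h1
  have h2 := (h.proj (cutL_proj hy hf hfM) (mul_mem hy.2.1 hfM)).1
  obtain ⟨h3, -, h4⟩ := h.proj hy.1 hy.2.1
  have h5 := hk y hy
  have h6 : τ (y * f) ≠ 0 := fun e => hy0 (h4 (by rw [h5, e, mul_zero]))
  have h7 : 0 < τ (y * f) := lt_of_le_of_ne h2 h6.symm
  push_cast
  linarith

end Pool.Agent.Kad.H3
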