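import Pool.Agent.Lib.MP_22c5db_an.H3.ExhP
import Pool.Agent.Lib.MP_22c5db_an.H3.Cover

/-! A corner on which a vector state is almost tracial. -/

open scoped InnerProductSpace ComplexConjugate
open Finset

noncomputable section

namespace Pool.Agent.Kad.H3

open Pool.Agent.Kad.H2

universe u

set_option linter.unusedSectionVars false

variable {H : Type u} [NormedAddCommGroup H] [InnerProductSpace ℂ H] [CompleteSpace H]
  {M : VonNeumannAlgebra H} {τ : Op H →ₗ[ℝ] ℝ} {φ : Bil H} {C : ℝ}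
  {ι : Type} [Fintype ι] [DecidableEq ι] {e : ι → ι → Op H}

section

open VN1

/-- cancellation -/
def smallCanc (M : VonNeumannAlgebra H) : Prop :=
  ∀ U ∈ M, ∀ V ∈ M, U * star U * U = U → V * star V * V = V → V * (U * star U) = V →
    star U * U * V = V →
    ∃ W ∈ M, star W * W = star U * U - V * star V ∧ W * star W = U * star U - star V * V

theorem small_norm {x y : Op H} (h : star x * x = star y * y) (ζ : H) : ‖x ζ‖ = ‖y ζ‖ := by
  have h1 := VN0.re_inner_star_mul x ζ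
  rw [h, VN0.re_inner_star_mul] at h1
  exact (pow_left_inj₀ (norm_nonneg _) (norm_nonneg _) two_ne_zero).1 h1.symm

theorem small_le {V : Op H} (h : V * star V * V = V) (η : H) : ‖V η‖ ≤ ‖η‖ := by
  have h1 := piso_norm h
  calc ‖V η‖ ≤ ‖V‖ * ‖η‖ := V.le_opNorm η
    _ ≤ 1 * ‖η‖ := by gcongr
    _ = ‖η‖ := one_mul _

/-- the support of a vector -/
theorem small_supp (M : VonNeumannAlgebra H) (ξ : H) : ∃ p ∈ M, IsStarProjection p ∧ p ξ = ξ ∧
    ∀ a ∈ M, a * p = a → a ξ = 0 → a = 0 := by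
  obtain ⟨p, hp, h1, -, -, h4, h5⟩ := exists_proj {η : H | ∃ s ∈ M.commutant, η = s ξ}
  have h6 : ∀ t ∈ M.commutant, ∀ η ∈ {η : H | ∃ s ∈ M.commutant, η = s ξ}, p (t η) = t η := by
    rintro t ht _ ⟨s, hs, rfl⟩
    exact h1 _ ⟨t * s, mul_mem ht hs, rfl⟩
  refine ⟨p, mem_of_comm fun t ht => h5 t (h6 t ht) (h6 _ (star_mem ht)), hp,
    h1 _ ⟨1, one_mem _, rfl⟩, fun a ha h h0 => ?_⟩
  rw [← h]
  refine h4 a ?_
  rintro _ ⟨s, hs, rfl⟩
  rw [← mul_apply_eq_comp, ← comm_of_mem ha hs, mul_apply_eq_comp, h0, map_zero]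

theorem small_sub {p V : Op H} (hp : IsStarProjection p) (h : V * star V * V = V) (hV : V * p = V) :
    IsStarProjection (p - star V * V) ∧ (p - star V * V) * p = p - star V * V :=
  ⟨(piso_proj h).1.sub_of_mul_eq_left hp (by rw [mul_assoc, hV]),
    by rw [sub_mul, hp.isIdempotentElem.eq, mul_assoc, hV]⟩

/-- step A -/
theorem small_A (hc : smallCanc M) {ξ : H} (hξ : ξ ≠ 0) : ∃ p ∈ M, IsStarProjection p ∧
    (∀ a ∈ M, a * p = a → a ξ = 0 → a = 0) ∧ ∃ e f : Op H, e * p = e ∧ IsStarProjection e ∧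
      IsStarProjection f ∧ ∃ μ : ℝ, 0 < μ ∧
      (∀ w ∈ M, w * star w * w = w → w * e = w → f * w = w →
        ‖w ξ‖ ^ 2 ≤ μ * ‖star w ξ‖ ^ 2) ∧
      ∀ μ' < μ, ∃ w ∈ M, w * star w * w = w ∧ w * e = w ∧ f * w = w ∧
        μ' * ‖star w ξ‖ ^ 2 < ‖w ξ‖ ^ 2 := by
  obtain ⟨p, hpM, hp, p1, p2⟩ := small_supp M ξ
  have ps := hp.isSelfAdjoint.star_eq
  have pp := hp.isIdempotentElem.eq
  obtain ⟨V, hV, v1, v2, v3, v4, v5⟩ := exhP_main (M := M) hp hp ξ ((2 : ℂ) • ξ)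
  have n2 : ∀ η : H, ‖(2 : ℂ) • η‖ = 2 * ‖η‖ := fun η => by rw [norm_smul]; simp
  rw [map_smul, n2] at v4
  have v3' := star_mul_eq hp.isSelfAdjoint v3
  obtain ⟨he, ep⟩ := small_sub hp v1 v2
  obtain ⟨hf, fp⟩ := small_sub (V := star V) hp (by rw [star_star]; exact piso_star v1) v3'
  rw [star_star] at hf fp
  have f0 : p - V * star V ≠ 0 := fun h => by
    rw [sub_eq_zero] at h
    have a1 : ‖star V ξ‖ = ‖p ξ‖ := small_norm (by rw [star_star, ps, pp, h]) ξ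
    have a2 := small_le v1 ξ
    have a3 := norm_pos_iff.2 hξ
    rw [p1] at a1
    linarith
  obtain ⟨W, hW, w1, w2⟩ := hc p hpM V hV (by rw [ps, pp, pp]) v1 (by rw [ps, pp, v2])
    (by rw [ps, pp, v3])
  rw [ps, pp] at w1 w2
  have w3 : W * star W * W = W := piso_of_proj (w1 ▸ hf)
  set e := p - star V * V with he'
  set f := p - V * star V with hf'
  have pos : ∀ w ∈ M, w ≠ 0 → w * e = w → f * w = w → 0 < ‖w ξ‖ ∧ 0 < ‖star w ξ‖ := by
    intro w hw w0 a1 a2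
    refine ⟨norm_pos_iff.2 fun h => w0 (p2 w hw (by rw [← a1, mul_assoc, ep]) h),
      norm_pos_iff.2 fun h => w0 (star_eq_zero.1 (p2 _ (star_mem hw) ?_ h))⟩
    rw [← star_mul_eq hf.isSelfAdjoint a2, mul_assoc, fp]
  let T : Set ℝ := {r | ∃ w ∈ M, w ≠ 0 ∧ w * star w * w = w ∧ w * e = w ∧ f * w = w ∧
    r = ‖w ξ‖ ^ 2 / ‖star w ξ‖ ^ 2}
  have hT : (‖star W ξ‖ ^ 2 / ‖star (star W) ξ‖ ^ 2) ∈ T := by
    refine ⟨star W, star_mem hW, fun h => f0 ?_, by rw [star_star]; exact piso_star w3, ?_, ?_, rfl⟩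
    · rw [← w1, h, zero_mul]
    · rw [← w2, ← mul_assoc, piso_star w3]
    · rw [← w1, piso_star w3]
  have hb : BddAbove T := ⟨4, by
    rintro _ ⟨w, hw, w0, a1, a2, a3, rfl⟩
    have b1 := v5 w hw w0 a1 a2 a3
    obtain ⟨b2, b3⟩ := pos w hw w0 a2 a3
    rw [map_smul, n2] at b1
    rw [div_le_iff₀ (by positivity)]
    nlinarith⟩
  have hpos : ∀ r ∈ T, 0 < r := by
    rintro _ ⟨w, hw, w0, a1, a2, a3, rfl⟩
    obtain ⟨b2, b3⟩ := pos w hw w0 a2 a3
    positivity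
  refine ⟨p, hpM, hp, p2, e, f, ep, he, hf, sSup T, (hpos _ hT).trans_le (le_csSup hb hT),
    fun w hw a1 a2 a3 => ?_, fun μ' hμ => ?_⟩
  · by_cases w0 : w = 0
    · simp [w0]
    have b1 := le_csSup hb (⟨w, hw, w0, a1, a2, a3, rfl⟩ : ‖w ξ‖ ^ 2 / ‖star w ξ‖ ^ 2 ∈ T)
    obtain ⟨b2, b3⟩ := pos w hw w0 a2 a3
    rwa [div_le_iff₀ (by positivity)] at b1
  · obtain ⟨_, ⟨w, hw, w0, a1, a2, a3, rfl⟩, b1⟩ := exists_lt_of_lt_csSup ⟨_, hT⟩ hμ
    obtain ⟨b2, b3⟩ := pos w hw w0 a2 a3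
    exact ⟨w, hw, a1, a2, a3, by rwa [lt_div_iff₀ (by positivity)] at b1⟩

/-- step B -/
theorem small_B (hc : smallCanc M) {ξ : H} (hξ : ξ ≠ 0) {ε : ℝ} (hε : 0 < ε) :
    ∃ e ∈ M, IsStarProjection e ∧ e ≠ 0 ∧ (∀ a ∈ M, a * e = a → a ξ = 0 → a = 0) ∧
      ∀ v ∈ M, v * star v * v = v → v * e = v → e * v = v →
        ‖v ξ‖ ^ 2 ≤ (1 + ε) * ‖star v ξ‖ ^ 2 := by
  obtain ⟨p, hpM, hp, p2, e, f, ep, he, hf, μ, hμ, m1, m2⟩ := small_A hc hξ
  have hε1 : 0 < 1 + ε := by linarith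
  have hν : 0 < μ / (1 + ε) := by positivity
  have hνμ : μ / (1 + ε) * (1 + ε) = μ := div_mul_cancel₀ _ hε1.ne'
  obtain ⟨U, hU, u1, u2, u3, u4⟩ := m2 (μ / (1 + ε)) (div_lt_self hμ (by linarith))
  generalize μ / (1 + ε) = ν at hν hνμ u4
  obtain ⟨he1, hf1⟩ := piso_proj u1
  have ns : ∀ η : H, ‖((√ν : ℝ) : ℂ) • η‖ ^ 2 = ν * ‖η‖ ^ 2 := fun η => by
    rw [norm_smul, Complex.norm_real, Real.norm_of_nonneg (Real.sqrt_nonneg _), mul_pow,
      Real.sq_sqrt hν.le]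
  obtain ⟨V, hV, v1, v2, v3, v4, v5⟩ := exhP_main (M := M) hf1 he1 (((√ν : ℝ) : ℂ) • ξ) ξ
  have v3' := star_mul_eq he1.isSelfAdjoint v3
  obtain ⟨hf2, f2⟩ := small_sub hf1 v1 v2
  obtain ⟨he2, e2⟩ := small_sub (V := star V) he1 (by rw [star_star]; exact piso_star v1) v3'
  rw [star_star] at he2 e2
  obtain ⟨W, hW, w1, w2⟩ := hc U hU V hV u1 v1 v2 v3
  have w3 : W * star W * W = W := piso_of_proj (w1 ▸ he2)
  have e1e : star U * U * e = star U * U := by rw [mul_assoc, u2]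
  have ff1 : f * (U * star U) = U * star U := by rw [← mul_assoc, u3]
  set e' := star U * U - V * star V with he'
  set f' := U * star U - star V * V with hf'
  have e'e : e' * e = e' := by rw [← e2, mul_assoc, e1e]
  have f1f' : U * star U * f' = f' := by
    have := congrArg star f2
    rwa [star_mul, hf1.isSelfAdjoint.star_eq, hf2.isSelfAdjoint.star_eq] at this
  have ff' : f * f' = f' := by rw [← f1f', ← mul_assoc, ff1]
  refine ⟨e', sub_mem (mul_mem (star_mem hU) hU) (mul_mem hV (star_mem hV)), he2, fun h => ?_,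
    fun a ha h h0 => p2 a ha (by rw [← h, ← e'e, mul_assoc, mul_assoc, ep]) h0,
    fun v hv a1 a2 a3 => ?_⟩
  · rw [he', sub_eq_zero] at h
    have b1 : ‖star V ξ‖ = ‖U ξ‖ := small_norm (by rw [star_star, h]) ξ
    have b2 : ‖V ξ‖ ≤ ‖star U ξ‖ := by
      calc ‖V ξ‖ = ‖V (U (star U ξ))‖ := congrArg (fun t : Op H => ‖t ξ‖) v2.symm
        _ ≤ ‖U (star U ξ)‖ := small_le v1 _
        _ ≤ ‖star U ξ‖ := small_le u1 _
    have b3 : ‖star V ξ‖ ^ 2 ≤ ‖V (((√ν : ℝ) : ℂ) • ξ)‖ ^ 2 := by gcongr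
    rw [map_smul, ns, b1] at b3
    have b4 : ‖V ξ‖ ^ 2 ≤ ‖star U ξ‖ ^ 2 := by gcongr
    nlinarith
  · have c1 : star (W * v) * (W * v) = star v * v := by
      rw [star_mul, mul_assoc, ← mul_assoc (star W), w1, a3]
    have c2 : W * v * star (W * v) * (W * v) = W * v := by
      rw [mul_assoc, c1, mul_assoc, ← mul_assoc v, a1]
    have f'W : f' * W = W := by rw [← w2, w3]
    have c3 := m1 (W * v) (mul_mem hW hv) c2
      (by rw [← a2, ← e'e, mul_assoc, mul_assoc, mul_assoc, he.isIdempotentElem.eq])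
      (by rw [← mul_assoc, ← f'W, ← mul_assoc, ff'])
    rw [small_norm c1 ξ] at c3
    have hvv := (piso_proj a1).2
    have vs := hvv.isSelfAdjoint.star_eq
    have d0 : e' * (v * star v) = v * star v := by rw [← mul_assoc, a3]
    have d1 : v * star v * star W * star (v * star v * star W) = v * star v := by
      rw [star_mul, star_star, vs, mul_assoc, ← mul_assoc (star W), w1, d0,
        hvv.isIdempotentElem.eq]
    have d2 : ‖star (W * v) ξ‖ = ‖(v * star v * star W) ξ‖ := small_norm (by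
      rw [star_star, star_mul (v * star v), star_star, vs, star_mul, mul_assoc W (v * star v),
        ← mul_assoc (v * star v), hvv.isIdempotentElem.eq, mul_assoc, mul_assoc]) ξ
    have d3 : ‖star (v * star v * star W) ξ‖ = ‖star v ξ‖ :=
      small_norm (by rw [star_star, star_star, d1]) ξ
    have d4 : ν * ‖(v * star v * star W) ξ‖ ^ 2 ≤ ‖star (v * star v * star W) ξ‖ ^ 2 := by
      by_cases h0 : v * star v * star W = 0
      · simp [h0]
      have g := v5 _ (mul_mem (mul_mem hv (star_mem hv)) (star_mem hW)) h0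
        (by rw [d1, ← mul_assoc, hvv.isIdempotentElem.eq])
        (by rw [← w2, mul_assoc, ← mul_assoc (star W), piso_star w3])
        (by rw [← mul_assoc, d0])
      rw [← ns, ← map_smul]
      gcongr
    rw [d2] at c3
    rw [d3] at d4
    have d5 := mul_le_mul_of_nonneg_left d4 hε1.le
    rw [← mul_assoc, mul_comm (1 + ε) ν, hνμ] at d5
    exact c3.trans d5

end

theorem small (hN : NoPI M) {z : Op H} (hz : Cen M z) (hz0 : z ≠ 0) {ε : ℝ} (hε : 0 < ε) :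
    ∃ (ξ : H) (p : Op H), IsStarProjection p ∧ p ∈ M ∧ p ≠ 0 ∧ z * p = p ∧
      (∀ a ∈ M, a * p = a → a ξ = 0 → a = 0) ∧
      ∀ v ∈ M, v * star v * v = v → p * v = v → v * p = v →
        ‖v ξ‖ ^ 2 ≤ (1 + ε) * ‖star v ξ‖ ^ 2 := by
  obtain ⟨ζ, hζ⟩ : ∃ ζ, z ζ ≠ 0 := by
    by_contra h
    push Not at h
    exact hz0 (ContinuousLinearMap.ext h)
  obtain ⟨p, hpM, hp, p0, p1, p2⟩ := small_B (M := M)
    (fun _ hU _ hV u1 v1 v2 v3 => cover_canc hN hU hV u1 v1 v2 v3) hζ hε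
  have hz' := hz.one_sub
  have zp : z * p = p := by
    have h1 := p1 ((1 - z) * p) (mul_mem hz'.2.1 hpM) (by rw [mul_assoc, hp.isIdempotentElem.eq])
      (by
        rw [hz'.2.2 p hpM, mul_apply_eq_comp, sub_apply, one_apply_eq_self, VN0.proj_proj hz.1,
          sub_self, map_zero])
    rw [sub_mul, one_mul, sub_eq_zero] at h1
    exact h1.symm
  exact ⟨z ζ, p, hp, hpM, p0, zp, p1, fun v hv h1 h2 h3 => p2 v hv h1 h3 h2⟩

end Pool.Agent.Kad.H3
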