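import Pool.Agent.Lib.MP_22c5db_an.H3.Match

/-! Existence of traces. -/

open scoped InnerProductSpace ComplexConjugate
open Finset

noncomputable section

namespace Pool.Agent.Kad.H3

open Pool.Agent.Kad.H2

universe u

set_option linter.unusedSectionVars false

variable {H : Type u} [NormedAddCommGroup H] [InnerProductSpace ℂ H] [CompleteSpace H]
  {M : VonNeumannAlgebra H} {τ : Op H →ₗ[ℝ] ℝ} {φ : Bil H} {C : ℝ}
  {ι : Type} [Fintype ι] [DecidableEq ι] {e : ι → ι → Op H}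

/-- an approximate trace -/
theorem trEx_step (hN : NoPI M) {ζ : H} (hζ : ‖ζ‖ = 1) {ε : ℝ} (hε : 0 < ε) :
    ∃ g : Op H →L[ℝ] ℝ, (∀ x, |g x| ≤ ‖x‖) ∧ (∀ x, 0 ≤ g (star x * x)) ∧
      (∀ x, g (star x) = g x) ∧ (∀ x ∈ M, g (star x * x) ≤ (1 + ε) * g (x * star x)) ∧
      ∀ z, Cen M z → ‖z ζ‖ ^ 2 ≤ (1 + ε) * g z + ε ^ 2 := by
  classical
  obtain ⟨A, _, w, hw, hP, hV⟩ := exhZ (M := M) (fun w => ∃ (I : Type) (_ : Fintype I)
      (η : I → H), (∀ i, w (η i) = η i) ∧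
        (∀ x ∈ M, ∑ i, ‖x (η i)‖ ^ 2 ≤ (1 + ε) * ∑ i, ‖star x (η i)‖ ^ 2) ∧
        ∀ y, Cen M y → w * y = y → ∑ i, ‖y (η i)‖ ^ 2 ≤ ‖y ζ‖ ^ 2 ∧
          ‖y ζ‖ ^ 2 ≤ (1 + ε) * ∑ i, ‖y (η i)‖ ^ 2)
    (fun z hz hz0 => matching hN ζ hz hz0 hε) {ζ} hε
  choose I inst η h1 h2 h3 using hP
  have hV' := hV ζ (mem_singleton_self ζ)
  obtain ⟨g, hg⟩ : ∃ g : Op H →L[ℝ] ℝ, ∀ x, g x = ∑ a, ∑ i, (⟪η a i, x (η a i)⟫_ℂ).re :=
    ⟨∑ a, ∑ i, vf (η a i), fun x => by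
      simp only [_root_.sum_apply, vf_apply]⟩
  have hsq : ∀ x, g (star x * x) = ∑ a, ∑ i, ‖x (η a i)‖ ^ 2 := fun x => by
    simp only [hg, re_form_star]
  have hn : ∑ a, ∑ i, ‖η a i‖ ^ 2 ≤ 1 := by
    have a1 := hw.split ζ
    have a2 : ∑ a, ∑ i, ‖η a i‖ ^ 2 ≤ ∑ a, ‖w a ζ‖ ^ 2 := sum_le_sum fun a _ => by
      have a3 := (h3 a (w a) (hw.cen a) (hw.cen a).1.isIdempotentElem.eq).1
      simpa only [h1] using a3
    rw [hζ] at a1
    nlinarith [sq_nonneg ‖ζ - (∑ a, w a) ζ‖]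
  refine ⟨g, fun x => ?_, fun x => ?_, fun x => ?_, fun x hx => ?_, fun z hz => ?_⟩
  · rw [hg]
    have a1 : ∀ v : H, |(⟪v, x v⟫_ℂ).re| ≤ ‖v‖ ^ 2 * ‖x‖ := fun v =>
      calc |(⟪v, x v⟫_ℂ).re| ≤ ‖⟪v, x v⟫_ℂ‖ := Complex.abs_re_le_norm _
        _ ≤ ‖v‖ * ‖x v‖ := norm_inner_le_norm _ _
        _ ≤ ‖v‖ * (‖x‖ * ‖v‖) := mul_le_mul_of_nonneg_left (x.le_opNorm v) (norm_nonneg _)
        _ = ‖v‖ ^ 2 * ‖x‖ := by ring
    calc |∑ a, ∑ i, (⟪η a i, x (η a i)⟫_ℂ).re| ≤ ∑ a, |∑ i, (⟪η a i, x (η a i)⟫_ℂ).re| :=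
          abs_sum_le_sum_abs _ _
      _ ≤ ∑ a, ∑ i, ‖η a i‖ ^ 2 * ‖x‖ := sum_le_sum fun a _ =>
          (abs_sum_le_sum_abs _ _).trans (sum_le_sum fun i _ => a1 _)
      _ = (∑ a, ∑ i, ‖η a i‖ ^ 2) * ‖x‖ := by simp only [sum_mul]
      _ ≤ 1 * ‖x‖ := mul_le_mul_of_nonneg_right hn (norm_nonneg _)
      _ = ‖x‖ := one_mul _
  · rw [hsq]
    exact sum_nonneg fun a _ => sum_nonneg fun i _ => sq_nonneg _
  · rw [hg, hg]
    refine sum_congr rfl fun a _ => sum_congr rfl fun i _ => ?_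
    rw [ContinuousLinearMap.star_eq_adjoint, ContinuousLinearMap.adjoint_inner_right,
      ← inner_conj_symm, Complex.conj_re]
  · have a1 := hsq (star x)
    rw [star_star] at a1
    rw [hsq, a1, mul_sum]
    exact sum_le_sum fun a _ => h2 a x hx
  · have a0 : star z * z = z := by rw [hz.1.isSelfAdjoint.star_eq, hz.1.isIdempotentElem.eq]
    have a1 := hsq z
    rw [a0] at a1
    have a2 := hw.split (z ζ)
    have a3 : ∑ a, ‖w a (z ζ)‖ ^ 2 ≤ (1 + ε) * g z := by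
      rw [a1, mul_sum]
      refine sum_le_sum fun a _ => ?_
      have b1 := (h3 a (w a * z) ((hw.cen a).mul hz)
        (by rw [← mul_assoc, (hw.cen a).1.isIdempotentElem.eq])).2
      have b2 : ∀ i, (w a * z) (η a i) = z (η a i) := fun i => by
        rw [(hw.cen a).2.2 z hz.2.1, mul_apply_eq_comp, h1]
      simp only [b2] at b1
      exact b1
    have a4 : ‖z ζ - (∑ a, w a) (z ζ)‖ ≤ ε := by
      have b1 : (∑ a, w a) (z ζ) = z ((∑ a, w a) ζ) := by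
        rw [← mul_apply_eq_comp, hw.sum_cen.2.2 z hz.2.1, mul_apply_eq_comp]
      rw [b1, ← map_sub]
      calc ‖z (ζ - (∑ a, w a) ζ)‖ ≤ ‖z‖ * ‖ζ - (∑ a, w a) ζ‖ := z.le_opNorm _
        _ ≤ 1 * ε := mul_le_mul hz.1.norm_le hV' (norm_nonneg _) zero_le_one
        _ = ε := one_mul _
    have a5 := pow_le_pow_left₀ (norm_nonneg _) a4 2
    linarith

/-- the limit of bounded functionals along an ultrafilter -/
theorem trEx_lim {J : Type*} (𝒰 : Ultrafilter J) (g : J → Op H →L[ℝ] ℝ)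
    (hg : ∀ n x, |g n x| ≤ ‖x‖) :
    ∃ τ : Op H →ₗ[ℝ] ℝ, ∀ x, Filter.Tendsto (fun n => g n x) 𝒰 (nhds (τ x)) := by
  have h1 : ∀ x : Op H, ∃ l : ℝ, Filter.Tendsto (fun n => g n x) 𝒰 (nhds l) := by
    intro x
    obtain ⟨l, -, hl2⟩ := (isCompact_Icc (a := -‖x‖) (b := ‖x‖)).ultrafilter_le_nhds
      (𝒰.map fun n => g n x) (by
        rw [Filter.le_principal_iff, Ultrafilter.coe_map, Filter.mem_map]
        exact Filter.univ_mem' fun n => abs_le.1 (hg n x))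
    exact ⟨l, hl2⟩
  choose l hl using h1
  exact ⟨{ toFun := l
           map_add' := fun a b => tendsto_nhds_unique (hl (a + b)) (by
             simpa only [map_add] using (hl a).add (hl b))
           map_smul' := fun c a => tendsto_nhds_unique (hl (c • a)) (by
             simpa only [map_smul, RingHom.id_apply, smul_eq_mul] using (hl a).const_mul c) },
    hl⟩

theorem exists_tr0 (hN : NoPI M) {ζ : H} (hζ : ‖ζ‖ = 1) :
    ∃ τ : Op H →ₗ[ℝ] ℝ, Tr0 M τ ∧ ∀ z, Cen M z → ‖z ζ‖ ^ 2 ≤ τ z := by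
  have hpos : ∀ n : ℕ, (0 : ℝ) < 1 / ((n : ℝ) + 1) := fun n => Nat.one_div_pos_of_nat
  choose g g1 g2 g3 g4 g5 using fun n : ℕ => trEx_step hN hζ (hpos n)
  obtain ⟨τ, hτ⟩ := trEx_lim (Filter.hyperfilter ℕ) g g1
  have he : Filter.Tendsto (fun n : ℕ => (1 : ℝ) / ((n : ℝ) + 1)) (Filter.hyperfilter ℕ)
      (nhds 0) :=
    tendsto_one_div_add_atTop_nhds_zero_nat.mono_left
      (Filter.hyperfilter_le_cofinite.trans Nat.cofinite_eq_atTop.le)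
  have he1 : ∀ x, Filter.Tendsto (fun n : ℕ => (1 + (1 : ℝ) / ((n : ℝ) + 1)) * g n x)
      (Filter.hyperfilter ℕ) (nhds (τ x)) := fun x => by
    have a1 := (he.const_add 1).mul (hτ x)
    rwa [add_zero, one_mul] at a1
  have t1 : ∀ x, τ (star x) = τ x := fun x =>
    tendsto_nhds_unique (hτ (star x)) (by simpa only [g3] using hτ x)
  have t2 : ∀ x ∈ M, τ (star x * x) ≤ τ (x * star x) := fun x hx =>
    le_of_tendsto_of_tendsto' (hτ _) (he1 _) fun n => g4 n x hx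
  have t3 : ∀ x ∈ M, τ (star x * x) = τ (x * star x) := fun x hx => by
    refine le_antisymm (t2 x hx) ?_
    have a1 := t2 (star x) (star_mem hx)
    rwa [star_star] at a1
  have t4 : ∀ z, Cen M z → ‖z ζ‖ ^ 2 ≤ τ z := fun z hz => by
    have a1 := (he1 z).add (he.pow 2)
    rw [zero_pow two_ne_zero, add_zero] at a1
    exact ge_of_tendsto' a1 fun n => g5 n z hz
  refine ⟨τ, ⟨le_antisymm ?_ ?_, fun x hx y hy => ?_, fun x _ => ?_⟩, t4⟩
  · exact le_of_tendsto' (hτ 1) fun n =>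
      (le_abs_self _).trans ((g1 n 1).trans ContinuousLinearMap.norm_id_le)
  · have a1 := t4 1 Cen.one
    rwa [one_apply_eq_self, hζ, _root_.one_pow] at a1
  · have a1 := t3 (x + star y) (add_mem hx (star_mem hy))
    have a2 := t3 x hx
    have a3 := t3 y hy
    have a4 := t1 (x * y)
    have a5 := t1 (y * x)
    rw [star_mul] at a4 a5
    rw [star_add, star_star] at a1
    simp only [mul_add, add_mul, map_add] at a1
    linarith
  · exact ge_of_tendsto' (hτ _) fun n => g2 n x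

theorem trEx_f_le (h : Tr0 M τ) {a b : Op H} (ha : a ∈ M) (hb : b ∈ M) {s : ℝ}
    (hab : ∀ ξ, ‖a ξ‖ ^ 2 ≤ s * ‖b ξ‖ ^ 2) : τ (star a * a) ≤ s * τ (star b * b) := by
  have h1 : star a * a ≤ s • (star b * b) :=
    le_of_form (IsSelfAdjoint.star_mul_self a) (sa_smul s (IsSelfAdjoint.star_mul_self b))
      fun ξ => by rw [re_form_smul, re_form_star, re_form_star]; exact hab ξ
  have h0 : s • (star b * b) ∈ M := by
    rw [← Complex.coe_smul]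
    exact smul_mem' _ (mul_mem (star_mem hb) hb)
  have h2 := h.mono (mul_mem (star_mem ha) ha) h0 h1
  rwa [map_smul, smul_eq_mul] at h2

theorem trEx_f_contr {a : Op H} (ha : ‖a‖ ≤ 1) (ξ : H) : ‖a ξ‖ ^ 2 ≤ 1 * ‖ξ‖ ^ 2 := by
  rw [one_mul]
  refine pow_le_pow_left₀ (norm_nonneg _) ((a.le_opNorm ξ).trans ?_) 2
  exact mul_le_of_le_one_left (norm_nonneg _) ha

theorem faithful (hN : NoPI M) (h : Tr0 M τ) (hz : ∀ z, Cen M z → τ z = 0 → z = 0) : Tr M τ := by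
  refine ⟨h.one, h.comm, h.pos, fun x hx hx0 => ?_⟩
  by_contra hne
  obtain ⟨q, hqM, hq, hq0, -, hlow⟩ :=
    VN2.exists_below (R := M) (IsStarProjection.one (Op H)) hx hne (mul_one x)
  have hxp : 0 < ‖x‖ := norm_pos_iff.2 hne
  have hxq : x * q ∈ M := mul_mem hx hqM
  have e1 : τ (star q * q) ≤ (2 / ‖x‖) ^ 2 * τ (star (x * q) * (x * q)) :=
    trEx_f_le h hqM hxq fun ξ => by
      by_cases h0 : q ξ = 0
      · rw [h0, norm_zero, zero_pow two_ne_zero]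
        positivity
      · have h2 : q (q ξ) = q ξ := congrArg (fun t : Op H => t ξ) hq.isIdempotentElem.eq
        have h3 := hlow (q ξ) h2 h0
        rw [← mul_pow]
        refine pow_le_pow_left₀ (norm_nonneg _) ?_ 2
        rw [div_mul_eq_mul_div, le_div_iff₀ hxp]
        change _ ≤ 2 * ‖x (q ξ)‖
        linarith
  have e2 : τ (star (star (x * q)) * star (x * q)) ≤ 1 * τ (star (star x) * star x) :=
    trEx_f_le h (star_mem hxq) (star_mem hx) fun ξ => by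
      rw [star_mul, hq.isSelfAdjoint.star_eq]
      exact trEx_f_contr (hq.norm_le q) (star x ξ)
  rw [star_star, star_star, h.comm _ hxq _ (star_mem hxq), h.comm _ hx _ (star_mem hx), hx0] at e2
  have e3 : τ (star q * q) ≤ 0 :=
    e1.trans (mul_nonpos_of_nonneg_of_nonpos (sq_nonneg _) (by linarith))
  obtain ⟨c, hc, hcq, -, I, _, a, ha, hsum⟩ :=
    cover hN (z := 1) ⟨IsStarProjection.one (Op H), one_mem M, fun y _ => by rw [one_mul, mul_one]⟩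
      hq hqM hq0 (one_mul q)
  have e4 : τ c ≤ 0 := by
    rw [← hsum, map_sum]
    refine sum_nonpos fun i _ => ?_
    obtain ⟨a1, a2, -, a4⟩ := ha i
    have e5 : τ (star (a i) * a i) ≤ 1 * τ (star q * q) :=
      trEx_f_le h a1 hqM fun ξ => by
        have h2 : a i ξ = a i (q ξ) := congrArg (fun t : Op H => t ξ) a2.symm
        rw [h2]
        exact trEx_f_contr a4 (q ξ)
    rw [h.comm _ a1 _ (star_mem a1)]
    linarith
  exact hcq (by rw [hz c hc (le_antisymm e4 (h.proj hc.1 hc.2.1).1), zero_mul])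

theorem trEx_h_all (hN : NoPI M) (h1 : (1 : Op H) ≠ 0) (ζ : H) :
    ∃ σ : Op H →ₗ[ℝ] ℝ, Tr0 M σ ∧ ∀ z, Cen M z → ‖z ζ‖ ^ 2 ≤ ‖ζ‖ ^ 2 * σ z := by
  have key : ∀ v : H, v ≠ 0 →
      ∃ σ : Op H →ₗ[ℝ] ℝ, Tr0 M σ ∧ ∀ z, Cen M z → ‖z v‖ ^ 2 ≤ ‖v‖ ^ 2 * σ z := fun v hv => by
    have hp : 0 < ‖v‖ := norm_pos_iff.2 hv
    have hn : ‖((‖v‖ : ℂ)⁻¹)‖ = ‖v‖⁻¹ := by rw [norm_inv, Complex.norm_real, norm_norm]
    obtain ⟨σ, hσ, hd⟩ := exists_tr0 hN (ζ := ((‖v‖ : ℂ)⁻¹) • v)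
      (by rw [norm_smul, hn, inv_mul_cancel₀ hp.ne'])
    refine ⟨σ, hσ, fun z hc => ?_⟩
    have h2 := hd z hc
    rw [map_smul, norm_smul, hn, mul_pow, inv_pow, inv_mul_le_iff₀ (pow_pos hp 2)] at h2
    exact h2
  by_cases h0 : ζ = 0
  · obtain ⟨v, hv⟩ : ∃ v : H, v ≠ 0 := by
      by_contra hv
      exact h1 (ContinuousLinearMap.ext fun v => by_contra fun h2 => hv ⟨v, h2⟩)
    obtain ⟨σ, hσ, -⟩ := key v hv
    refine ⟨σ, hσ, fun z _ => ?_⟩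
    rw [h0, map_zero, norm_zero, zero_pow two_ne_zero, zero_mul]
  · exact key ζ h0

theorem hasT (hN : NoPI M) (h1 : (1 : Op H) ≠ 0) (hS : Sep M) : HasT M := by
  classical
  obtain ⟨S, hS⟩ := hS
  choose σ hσ hd using trEx_h_all hN h1
  intro ζ
  have hn : (0 : ℝ) < (insert ζ S).card := Nat.cast_pos.2 (card_pos.2 (insert_nonempty ζ S))
  obtain ⟨ρ, hρ⟩ : ∃ ρ : Op H →ₗ[ℝ] ℝ, ∀ x, ρ x =
      2⁻¹ * σ ζ x + 2⁻¹ * (((insert ζ S).card : ℝ)⁻¹ * ∑ s ∈ insert ζ S, σ s x) :=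
    ⟨(2⁻¹ : ℝ) • σ ζ + (2⁻¹ : ℝ) • (((insert ζ S).card : ℝ)⁻¹ • ∑ s ∈ insert ζ S, σ s), fun x => by
      simp only [LinearMap.add_apply, LinearMap.smul_apply, LinearMap.sum_apply, smul_eq_mul]⟩
  have h0 : Tr0 M ρ := by
    refine ⟨?_, fun x hx y hy => ?_, fun x hx => ?_⟩
    · rw [hρ, (hσ ζ).one, sum_congr rfl fun s _ => (hσ s).one, sum_const, nsmul_eq_mul, mul_one,
        mul_one, inv_mul_cancel₀ hn.ne']
      norm_num
    · rw [hρ, hρ, (hσ ζ).comm x hx y hy, sum_congr rfl fun s _ => (hσ s).comm x hx y hy]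
    · rw [hρ]
      have h2 := (hσ ζ).pos x hx
      have h3 : 0 ≤ ∑ s ∈ insert ζ S, σ s (star x * x) := sum_nonneg fun s _ => (hσ s).pos x hx
      positivity
  have hc0 : ∀ z, Cen M z → ∀ s, 0 ≤ σ s z := fun z hc s => ((hσ s).proj hc.1 hc.2.1).1
  have hc1 : ∀ z, Cen M z → 0 ≤ ((insert ζ S).card : ℝ)⁻¹ * ∑ s ∈ insert ζ S, σ s z :=
    fun z hc => mul_nonneg (inv_nonneg.2 hn.le) (sum_nonneg fun s _ => hc0 z hc s)
  refine ⟨ρ, faithful hN h0 fun z hc hz => hS z hc fun ξ hξ => ?_, fun z hc => ?_⟩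
  · have h2 : ((insert ζ S).card : ℝ)⁻¹ * ∑ s ∈ insert ζ S, σ s z = 0 := by
      have h3 := hρ z
      have h4 := hc0 z hc ζ
      have h5 := hc1 z hc
      linarith
    have h3 := (mul_eq_zero.1 h2).resolve_left (inv_ne_zero hn.ne')
    have h4 := (sum_eq_zero_iff_of_nonneg fun s _ => hc0 z hc s).1 h3 ξ (mem_insert_of_mem hξ)
    have h5 := hd ξ z hc
    rw [h4, mul_zero] at h5
    exact norm_eq_zero.1 (pow_eq_zero_iff two_ne_zero |>.1 (le_antisymm h5 (sq_nonneg _)))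
  · have h2 : σ ζ z ≤ 2 * ρ z := by
      have h3 := hρ z
      have h5 := hc1 z hc
      linarith
    calc ‖z ζ‖ ^ 2 ≤ ‖ζ‖ ^ 2 * σ ζ z := hd ζ z hc
      _ ≤ ‖ζ‖ ^ 2 * (2 * ρ z) := mul_le_mul_of_nonneg_left h2 (sq_nonneg _)
      _ = 2 * ‖ζ‖ ^ 2 * ρ z := by ring

end Pool.Agent.Kad.H3
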