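import Pool.Agent.Lib.MP_22c5db_an.H3.Avg
import Pool.Agent.Lib.MP_22c5db_an.H3.Exh

/-! Normalisation over the centre. -/

open scoped InnerProductSpace ComplexConjugate
open Finset

noncomputable section

namespace Pool.Agent.Kad.H3

open Pool.Agent.Kad.H2

universe u

set_option linter.unusedSectionVars false

variable {H : Type u} [NormedAddCommGroup H] [InnerProductSpace ℂ H] [CompleteSpace H]
  {M : VonNeumannAlgebra H} {τ : Op H →ₗ[ℝ] ℝ} {φ : Bil H} {C : ℝ}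
  {ι : Type} [Fintype ι] [DecidableEq ι] {e : ι → ι → Op H}

theorem znorm_atoms (M : VonNeumannAlgebra H) (S : Finset (Op H)) :
    ∃ (A : Type) (_ : Fintype A) (w : A → Op H), (∀ a, Cen M (w a)) ∧
      ∑ a, star (w a) * w a = 1 ∧ ∀ z ∈ S, Cen M z → ∀ a,
        (z * w a = w a ∧ w a * z = w a) ∨ (z * w a = 0 ∧ w a * z = 0) := by
  classical
  obtain ⟨A, _, w, ho, h1, h2⟩ := atoms (M := M) (S.filter (Cen M))
    fun z hz => (Finset.mem_filter.1 hz).2
  refine ⟨A, inferInstance, w, ho.cen, ?_, fun z hz hc a => ?_⟩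
  · rw [← h1]
    exact Finset.sum_congr rfl fun a _ => by
      rw [(ho.cen a).1.isSelfAdjoint.star_eq, (ho.cen a).1.isIdempotentElem.eq]
  · have e := hc.2.2 _ (ho.cen a).2.1
    rcases h2 z (Finset.mem_filter.2 ⟨hz, hc⟩) a with h | h
    · exact Or.inl ⟨h, e ▸ h⟩
    · exact Or.inr ⟨h, e ▸ h⟩

theorem znorm_lim (β : Finset (Op H) → Op H →ₗ[ℂ] Op H) {c : ℝ} (hc : 0 ≤ c)
    (hβ : ∀ S, Bd M (β S) c) : ∃ β₀ : Op H →ₗ[ℂ] Op H, Bd M β₀ c ∧ ∀ x ∈ M, ∀ y ∈ M,
      ∀ z : Op H, (∀ S, z ∈ S → (φ - cob (β S)) x y = 0) → (φ - cob β₀) x y = 0 := by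
  classical
  let 𝒰 : Ultrafilter (Finset (Op H)) := Ultrafilter.of Filter.atTop
  have hU : (𝒰 : Filter (Finset (Op H))) ≤ Filter.atTop := Ultrafilter.of_le _
  obtain ⟨β₀, hb0, hlim⟩ := wlim 𝒰 β hc hβ
  refine ⟨β₀, hb0, fun x hx y hy z hz => ContinuousLinearMap.ext fun ζ =>
    ext_inner_left ℂ fun η => ?_⟩
  refine tendsto_nhds_unique (wlim_cob (φ := φ) hlim hx hy ζ η) (tendsto_const_nhds.congr' ?_)
  apply hU
  filter_upwards [Filter.eventually_ge_atTop ({z} : Finset (Op H))] with S hS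
  rw [hz S (hS (Finset.mem_singleton_self _))]

theorem znorm_one : ‖(1 : Op H)‖ ≤ 1 := ContinuousLinearMap.norm_id_le

theorem znorm_left (h : CC M φ) (hb : Bd2 M φ C) (hC : 0 ≤ C) :
    ∃ β : Op H →ₗ[ℂ] Op H, Bd M β (3 * C) ∧ ∀ z, Cen M z → ∀ y ∈ M, (φ - cob β) z y = 0 := by
  have h1 : ∀ S : Finset (Op H), ∃ β : Op H →ₗ[ℂ] Op H, Bd M β (3 * C) ∧
      ∀ z ∈ S, Cen M z → ∀ y ∈ M, (φ - cob β) z y = 0 := by
    intro S
    obtain ⟨A, _, w, hw, h1, h2⟩ := znorm_atoms M S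
    have hs : ∀ a, star (w a) = w a := fun a => (hw a).1.isSelfAdjoint.star_eq
    have hm : ∀ a, w a ∈ M := fun a => (hw a).2.1
    refine ⟨avg φ w, avg_bd hb hC hm h1 ?_, fun z hz hc y hy => ?_⟩
    · have e : ∑ a, w a * star (w a) = 1 := by
        rw [← h1]
        exact Finset.sum_congr rfl fun a _ => by rw [hs a]
      rw [e]
      exact znorm_one
    · rw [sub_cob_avg h hm h1 hc.2.1 hy, avg_apply, Finset.mul_sum, ← Finset.sum_sub_distrib]
      refine Finset.sum_eq_zero fun a _ => ?_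
      rw [hs a, ← mul_assoc]
      rcases h2 z hz hc a with ⟨e1, e2⟩ | ⟨e1, e2⟩
      · rw [e1, e2, sub_self]
      · rw [e1, e2, map_zero, LinearMap.zero_apply, mul_zero, zero_mul, sub_self]
  choose β hβ1 hβ2 using h1
  obtain ⟨β₀, hb0, hlim⟩ := znorm_lim (φ := φ) β (by positivity) hβ1
  exact ⟨β₀, hb0, fun z hz y hy => hlim z hz.2.1 y hy z fun S hS => hβ2 S z hS hz y hy⟩

/-- the right average over a family of projections -/
def znormR {A : Type} [Fintype A] (φ : Bil H) (w : A → Op H) : Op H →ₗ[ℂ] Op H :=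
  ∑ a, (LinearMap.mulRight ℂ (w a)).comp (φ.flip (w a))

theorem znormR_apply {A : Type} [Fintype A] (φ : Bil H) (w : A → Op H) (x : Op H) :
    znormR φ w x = ∑ a, φ x (w a) * w a := by
  simp only [znormR, LinearMap.sum_apply, LinearMap.comp_apply, LinearMap.mulRight_apply,
    LinearMap.flip_apply]

theorem znormR_cob {A : Type} [Fintype A] {w : A → Op H} (h : CC M φ) (hw : ∀ a, Cen M (w a))
    (h1 : ∑ a, star (w a) * w a = 1) {x y : Op H} (hx : x ∈ M) (hy : y ∈ M) :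
    (φ - cob (znormR φ w)) x y = ∑ a, φ x (y * w a) * w a - znormR φ w x * y := by
  have e : znormR φ w (x * y) = x * znormR φ w y + ∑ a, φ x (y * w a) * w a - φ x y := by
    have e1 : φ x y = ∑ a, φ x y * w a * w a := by
      conv_lhs => rw [← mul_one (φ x y), ← h1, Finset.mul_sum]
      exact Finset.sum_congr rfl fun a _ => by
        rw [(hw a).1.isSelfAdjoint.star_eq, mul_assoc]
    rw [znormR_apply, znormR_apply, Finset.mul_sum, ← Finset.sum_add_distrib]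
    conv_rhs => rw [e1]
    rw [← Finset.sum_sub_distrib]
    refine Finset.sum_congr rfl fun a _ => ?_
    rw [h x hx y hy _ (hw a).2.1, sub_mul, add_mul, mul_assoc x]
  rw [LinearMap.sub_apply, LinearMap.sub_apply, cob_apply, e]
  abel

theorem znormR_bd {A : Type} [Fintype A] {w : A → Op H} (hb : Bd2 M φ C) (hC : 0 ≤ C)
    (hw : ∀ a, Cen M (w a)) (h1 : ∑ a, star (w a) * w a = 1) : Bd M (znormR φ w) (3 * C) := by
  intro x hx
  have hs : ∀ a, star (w a) = w a := fun a => (hw a).1.isSelfAdjoint.star_eq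
  have hcl : Cl w 1 := cl_iff.2 (by rw [h1, _root_.one_pow]; exact znorm_one)
  have hcl' : Cl (fun a => star (w a)) 1 := by simpa only [hs] using hcl
  have key : ∀ ζ η : H, ‖⟪η, znormR φ w x ζ⟫_ℂ‖ ≤ 3 * C * ‖x‖ * ‖ζ‖ * ‖η‖ := by
    intro ζ η
    let T : Op H →ₗ[ℂ] H := (ContinuousLinearMap.apply ℂ H η).toLinearMap.comp (dag (φ x))
    have hT : ∀ a, T a = star (φ x (star a)) η := fun a => rfl
    have hTb : ∀ a ∈ M, ‖T a‖ ≤ C * ‖x‖ * ‖η‖ * ‖a‖ := fun a ha => by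
      rw [hT]
      have e1 := hb x hx _ (star_mem ha)
      rw [norm_star] at e1
      calc ‖star (φ x (star a)) η‖ ≤ ‖star (φ x (star a))‖ * ‖η‖ :=
            ContinuousLinearMap.le_opNorm _ _
        _ ≤ C * ‖x‖ * ‖a‖ * ‖η‖ := by
            rw [norm_star]
            exact mul_le_mul_of_nonneg_right e1 (norm_nonneg _)
        _ = _ := by ring
    have g := gt hTb (by positivity) (fun a => (hw a).2.1) hcl hcl'
    have g1 : ∑ a, ‖T (w a)‖ ^ 2 ≤ (3 * C * ‖x‖ * ‖η‖) ^ 2 :=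
      g.trans (by nlinarith [sq_nonneg (C * ‖x‖ * ‖η‖)])
    have g2 : ∑ a, ‖w a ζ‖ ^ 2 ≤ ‖ζ‖ ^ 2 := by simpa using hcl ζ
    have e : ⟪η, znormR φ w x ζ⟫_ℂ = ∑ a, ⟪T (w a), w a ζ⟫_ℂ := by
      rw [znormR_apply, _root_.sum_apply, inner_sum]
      refine Finset.sum_congr rfl fun a _ => ?_
      rw [hT, hs a, ContinuousLinearMap.star_eq_adjoint, ContinuousLinearMap.adjoint_inner_left]
      rfl
    rw [e]
    refine (norm_sum_le _ _).trans
      ((Finset.sum_le_sum fun a _ => norm_inner_le_norm _ _).trans ?_)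
    refine (pow_le_pow_iff_left₀ (Finset.sum_nonneg fun a _ => by positivity) (by positivity)
      two_ne_zero).1 ((Finset.sum_mul_sq_le_sq_mul_sq _ _ _).trans ?_)
    calc _ ≤ (3 * C * ‖x‖ * ‖η‖) ^ 2 * ‖ζ‖ ^ 2 :=
          mul_le_mul g1 g2 (Finset.sum_nonneg fun a _ => by positivity) (by positivity)
      _ = _ := by ring
  refine ContinuousLinearMap.opNorm_le_bound _ (by positivity) fun ζ => ?_
  have k := key ζ (znormR φ w x ζ)
  rw [inner_self_eq_norm_sq_to_K, norm_pow, RCLike.norm_ofReal, abs_norm, sq] at k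
  rcases (norm_nonneg (znormR φ w x ζ)).eq_or_lt with h0 | h0
  · rw [← h0]; positivity
  · exact le_of_mul_le_mul_right k h0

theorem znorm_right (h : CC M φ) (hb : Bd2 M φ C) (hC : 0 ≤ C)
    (hl : ∀ z, Cen M z → ∀ y ∈ M, φ z y = 0) :
    ∃ β : Op H →ₗ[ℂ] Op H, Bd M β (3 * C) ∧ ZN M (φ - cob β) := by
  have h1 : ∀ S : Finset (Op H), ∃ β : Op H →ₗ[ℂ] Op H, Bd M β (3 * C) ∧
      (∀ z, Cen M z → ∀ y ∈ M, (φ - cob β) z y = 0) ∧
      ∀ z ∈ S, Cen M z → ∀ x ∈ M, (φ - cob β) x z = 0 := by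
    intro S
    obtain ⟨A, _, w, hw, h1, h2⟩ := znorm_atoms M S
    refine ⟨znormR φ w, znormR_bd hb hC hw h1, fun z hc y hy => ?_, fun z hz hc x hx => ?_⟩
    · rw [znormR_cob h hw h1 hc.2.1 hy, znormR_apply,
        Finset.sum_eq_zero fun a _ => by rw [hl z hc _ (mul_mem hy (hw a).2.1), zero_mul],
        Finset.sum_eq_zero fun a _ => by rw [hl z hc _ (hw a).2.1, zero_mul], zero_mul, sub_self]
    · rw [znormR_cob h hw h1 hx hc.2.1, znormR_apply, Finset.sum_mul, ← Finset.sum_sub_distrib]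
      refine Finset.sum_eq_zero fun a _ => ?_
      rw [mul_assoc]
      rcases h2 z hz hc a with ⟨e1, e2⟩ | ⟨e1, e2⟩
      · rw [e1, e2, sub_self]
      · rw [e1, e2, map_zero, mul_zero, zero_mul, sub_self]
  choose β hβ1 hβ2 hβ3 using h1
  obtain ⟨β₀, hb0, hlim⟩ := znorm_lim (φ := φ) β (by positivity) hβ1
  exact ⟨β₀, hb0, fun z hz x hx => ⟨hlim z hz.2.1 x hx z fun S _ => hβ2 S z hz x hx,
    hlim x hx z hz.2.1 z fun S hS => hβ3 S z hS hz x hx⟩⟩

theorem znorm (h : CC M φ) (hb : Bd2 M φ C) (hC : 0 ≤ C) :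
    ∃ β : Op H →ₗ[ℂ] Op H, Bd M β (33 * C) ∧ ZN M (φ - cob β) ∧
      Bd2 M (φ - cob β) (100 * C) := by
  obtain ⟨β₁, b1, l1⟩ := znorm_left h hb hC
  have hb1 := bd2_sub_cob hb (by positivity) b1
  obtain ⟨β₂, b2, l2⟩ := znorm_right (h.sub_cob β₁) hb1 (by positivity) l1
  have hb2 := bd2_sub_cob hb1 (by positivity) b2
  have e : φ - cob (β₁ + β₂) = φ - cob β₁ - cob β₂ := by
    rw [cob_add]
    refine LinearMap.ext fun x => LinearMap.ext fun y => ?_
    simp only [LinearMap.sub_apply, LinearMap.add_apply]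
    abel
  refine ⟨β₁ + β₂, fun x hx => ?_, e ▸ l2, ?_⟩
  · rw [LinearMap.add_apply]
    refine (norm_add_le _ _).trans ((add_le_add (b1 x hx) (b2 x hx)).trans (le_of_eq ?_))
    ring
  · rw [e, show 100 * C = C + 3 * (3 * C) + 3 * (3 * (C + 3 * (3 * C))) by ring]
    exact hb2

end Pool.Agent.Kad.H3
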