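import Pool.Agent.Lib.MP_22c5db_an.H3.Corner
import Pool.Agent.Lib.MP_22c5db_an.H3.PInf
import Pool.Agent.Lib.MP_22c5db_an.H3.KpTwo
import Pool.Agent.Lib.MP_22c5db_an.H3.TrEx
import Pool.Agent.Lib.MP_22c5db_an.H3.ZNorm

/-! Assembly. -/

open scoped InnerProductSpace ComplexConjugate
open Finset

noncomputable section

namespace Pool.Agent.Kad.H3

open Pool.Agent.Kad.H2

universe u

set_option linter.unusedSectionVars false

variable {H : Type u} [NormedAddCommGroup H] [InnerProductSpace ℂ H] [CompleteSpace H]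
  {M : VonNeumannAlgebra H} {τ : Op H →ₗ[ℝ] ℝ} {φ : Bil H} {C : ℝ}
  {ι : Type} [Fintype ι] [DecidableEq ι] {e : ι → ι → Op H}

theorem loc_piece (hS : Sep M) (h : CC M φ) (hb : Bd2 M φ C) (hC : 0 ≤ C) (hz : ZN M φ) {z : Op H}
    (hzc : Cen M z) (hz0 : z ≠ 0) :
    ∃ w, Cen M w ∧ w ≠ 0 ∧ z * w = w ∧ LocW M φ w (10 ^ 11 * C) := by
  have h0 : (0 : ℝ) ≤ 10 ^ 11 * C := by positivity
  by_cases hA : ∃ c, Cen M c ∧ c ≠ 0 ∧ z * c = c ∧ PI M c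
  · obtain ⟨c, h₁, h₂, h₃, h₄⟩ := hA
    obtain ⟨K, _, _, _, J, N, hJ⟩ := exists_frame (R := M) h₁.1 h₁.2.1 Unit
    exact ⟨c, h₁, h₂, h₃, cor_loc h₁ hJ h hz h0
      (loc_pi (cor_pi h₁ hJ h₄) (cor_cc h₁ hJ h hz).1 (cor_bd hJ hb hC) hC)⟩
  by_cases hB : ∃ p ∈ M, IsStarProjection p ∧ p ≠ 0 ∧ z * p = p ∧ Ab M p
  · obtain ⟨p, hpR, hp, hp0, hzp, hab⟩ := hB
    rcases typeI hzc hp hpR hp0 hzp hab with h' | ⟨k, e, P, hP, hP0, hzP, he, heR, hab'⟩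
    · exact absurd h' hA
    · obtain ⟨K, _, _, _, J, N, hJ⟩ := exists_frame (R := M) hP.1 hP.2.1 Unit
      obtain ⟨m1, m2, m3⟩ := cor_mu hP hJ he heR
      obtain ⟨c1, c2⟩ := cor_cc hP hJ h hz
      exact ⟨P, hP, hP0, hzP, cor_loc hP hJ h hz h0
        ((loc_one c1 (cor_bd hJ hb hC) hC c2 m1 m2 (m3 0 hab')).mono (by linarith))⟩
  · obtain ⟨K, _, _, _, J, N, hJ⟩ := exists_frame (R := M) hzc.1 hzc.2.1 Unit
    obtain ⟨c1, c2⟩ := cor_cc hzc hJ h hz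
    have hN : NoPI N := cor_noPI hzc hJ fun c h₁ h₂ h₃ h₄ => hA ⟨c, h₁, h₂, h₃, h₄⟩
    have hU : Uns N := fun k hk => by
      obtain ⟨f, f1, f2⟩ := halving hzc.1 hzc.2.1
        (fun p hpR hp hp0 hzp hab => hB ⟨p, hpR, hp, hp0, hzp, hab⟩) hk
      obtain ⟨m1, m2, -⟩ := cor_mu hzc hJ f1 f2
      exact ⟨_, m1, m2⟩
    exact ⟨z, hzc, hz0, hzc.1.isIdempotentElem, cor_loc hzc hJ h hz h0
      (loc_two hU (hasT hN (cor_one hJ hz0) (cor_sep hzc hJ hS)) c1 (cor_bd hJ hb hC) hC c2)⟩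

theorem loc_glue (h : CC M φ) (hb : Bd2 M φ C) (hC : 0 ≤ C) (hz : ZN M φ) {c : ℝ} (hc : 0 ≤ c)
    (hl : ∀ z, Cen M z → z ≠ 0 → ∃ w, Cen M w ∧ w ≠ 0 ∧ z * w = w ∧ LocW M φ w c) :
    Loc M φ c := by
  intro ξ
  have h1 : ∀ n : ℕ, ∃ β : Op H →ₗ[ℂ] Op H, Bd M β c ∧ ∀ x ∈ M, ∀ y ∈ M, ∀ b ∈ M,
      ‖(φ - cob β) x y (b ξ)‖ ≤ C * ‖x‖ * ‖y‖ * ‖b‖ * (1 / ((n : ℝ) + 1)) := by
    intro n
    obtain ⟨A, _, w, hw, hP, hV⟩ := exhZ (M := M) (fun w => LocW M φ w c) hl {ξ}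
      (ε := 1 / ((n : ℝ) + 1)) (by positivity)
    choose ψ hψ hψ' using fun a => hP a ξ
    refine ⟨blk w ψ, blk_bd hw hc hψ, fun x hx y hy b hb' => ?_⟩
    rw [(sub_cob_blk hw h hz hx hy (b ξ)).1]
    have e1 : ∀ a, w a ((φ - cob (ψ a)) x y (w a (b ξ))) = 0 := fun a => by
      have e2 := hψ' a x hx y hy (w a * b) (mul_mem (hw.cen a).2.1 hb')
      rw [mul_apply_eq_comp] at e2
      rw [LinearMap.sub_apply, LinearMap.sub_apply, sub_apply, map_sub, ← e2,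
        VN0.proj_proj (hw.cen a).1, sub_self]
    rw [sum_eq_zero fun a _ => e1 a, zero_add]
    have e3 : b ξ - (∑ a, w a) (b ξ) = b (ξ - (∑ a, w a) ξ) := by
      rw [map_sub, ← mul_apply_eq_comp (∑ a, w a), hw.sum_cen.2.2 b hb', mul_apply_eq_comp]
    rw [e3]
    calc _ ≤ ‖φ x y‖ * (‖b‖ * ‖ξ - (∑ a, w a) ξ‖) :=
          ((φ x y).le_opNorm _).trans
            (mul_le_mul_of_nonneg_left (b.le_opNorm _) (norm_nonneg _))
      _ ≤ C * ‖x‖ * ‖y‖ * (‖b‖ * (1 / ((n : ℝ) + 1))) :=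
          mul_le_mul (hb x hx y hy)
            (mul_le_mul_of_nonneg_left (hV ξ (mem_singleton_self ξ)) (norm_nonneg _))
            (by positivity) (by positivity)
      _ = _ := by ring
  choose β hβ hβ' using h1
  obtain ⟨β₀, hb0, hlim⟩ := wlim (Filter.hyperfilter ℕ) β hc hβ
  refine ⟨β₀, hb0, fun x hx y hy b hb' => ?_⟩
  have t1 : Filter.Tendsto (fun n => (φ - cob (β n)) x y (b ξ)) (Filter.hyperfilter ℕ) (nhds 0) := by
    refine squeeze_zero_norm (fun n => hβ' n x hx y hy b hb') ?_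
    have t2 := (tendsto_one_div_add_atTop_nhds_zero_nat (𝕜 := ℝ)).const_mul (C * ‖x‖ * ‖y‖ * ‖b‖)
    rw [mul_zero] at t2
    exact t2.mono_left (Nat.hyperfilter_le_atTop)
  have t3 : (φ - cob β₀) x y (b ξ) = 0 := by
    refine ext_inner_left ℂ fun η => ?_
    exact tendsto_nhds_unique (wlim_cob hlim hx hy (b ξ) η)
      (Filter.Tendsto.inner (𝕜 := ℂ) tendsto_const_nhds t1)
  rw [LinearMap.sub_apply, LinearMap.sub_apply, sub_apply] at t3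
  exact sub_eq_zero.1 t3

theorem main (h : CC M φ) (hb : Bd2 M φ C) (hC : 0 ≤ C) (S : Finset H)
    (hS : Dense (Submodule.span ℂ {η : H | ∃ x ∈ M, ∃ ξ ∈ S, η = x ξ} : Set H)) :
    ∃ (ψ : Op H →ₗ[ℂ] Op H) (c : ℝ), Bd M ψ c ∧ ∀ x ∈ M, ∀ y ∈ M, φ x y = cob ψ x y := by
  have hsep : Sep M := ⟨S, fun z hz h0 => by
    refine ContinuousLinearMap.ext_on hS ?_
    rintro _ ⟨x, hx, ξ, hξ, rfl⟩
    show z (x ξ) = 0
    rw [← mul_apply_eq_comp, hz.2.2 x hx, mul_apply_eq_comp, h0 ξ hξ, map_zero]⟩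
  obtain ⟨β, hβ, hz, hb'⟩ := znorm h hb hC
  have h1 := h.sub_cob β
  have h0 : (0 : ℝ) ≤ 100 * C := by positivity
  have h2 : Loc M (φ - cob β) (10 ^ 11 * (100 * C)) :=
    loc_glue h1 hb' h0 hz (by positivity) fun z hzc hz0 => loc_piece hsep h1 hb' h0 hz hzc hz0
  obtain ⟨ψ, c, hψ, hψ'⟩ := cyc (by positivity) h2 S hS
  refine ⟨β + ψ, 33 * C + c, fun a ha => ?_, fun x hx y hy => ?_⟩
  · rw [LinearMap.add_apply, add_mul]
    exact (norm_add_le _ _).trans (add_le_add (hβ a ha) (hψ a ha))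
  · rw [cob_add, LinearMap.add_apply, LinearMap.add_apply, ← hψ' x hx y hy, LinearMap.sub_apply,
      LinearMap.sub_apply, add_sub_cancel]

end Pool.Agent.Kad.H3
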